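import Pool.Agent.Lib.KPT.Props

/-!
KPT project, row K13: every k-point certificate obeys the barrier.
-/

namespace Pool.Agent.KPT

open MeasureTheory Filter Topology
open scoped Real
open Pool.Agent.Lib.MP_ef2672_gt_Tauber (gamma inv minSq)

noncomputable section

/-- the bound for one certificate, one radius and one density -/
lemma barrier_one (h4 : K4) (h6 : K6) (h11 : K11) {N k : ℕ} {V : Set (E N)} {r M : ℝ}
    {T : Finset (E N) → Option (E N) → Option (E N) → ℝ} {R C ρ ρ' : ℝ} (hk : 2 ≤ k)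
    (hVb : Bornology.IsBounded V) (hVm : MeasurableSet V) (hr : 0 < r)
    (hT : Cert k V r M T) (hRB : RB N R C ρ) (hC : 1 ≤ C) (hρ' : 0 < ρ') (hρ : ρ' < ρ) (hR : r < R) :
    ρ' * (volume V).toReal ≤ C ^ (k - 2) * M := by
  obtain ⟨h, hh, hh0⟩ := ((h11 N R C ρ ρ' r hRB hC hρ' hρ hr hR).and self_mem_nhdsWithin).exists
  have hh0 : 0 < h := hh0
  have hdet : (h • (1 : Matrix (Fin N) (Fin N) ℝ)).det = h ^ N := by
    rw [Matrix.det_smul, Fintype.card_fin, Matrix.det_one, mul_one]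
  obtain ⟨t, X, hX, hXv⟩ := h6 N (h • 1) V (by rw [hdet]; positivity) hVb hVm
  rw [hdet, abs_of_pos (by positivity)] at hXv
  have hgrid : Grid h X := by
    refine ⟨t, fun x hx => ?_⟩
    obtain ⟨-, z, hz⟩ := hX x hx
    refine ⟨z, fun i => ?_⟩
    rw [hz i, Matrix.smul_mulVec, Matrix.one_mulVec]
    rfl
  obtain ⟨g, g1, g2, g3, g4, g5⟩ := hh X hgrid
  have hw : 0 < ρ' * h ^ N := by positivity
  have hsq : ∀ z, √(g z) ^ 2 = g z := fun z => Real.sq_sqrt (g2 z)
  have key := h4 N k V r M T X (fun x y => √(g (x - y))) C (ρ' * h ^ N) hk hT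
    (fun x hx => (hX x hx).1) hC hw
    (fun x y => by
      have : g (x - y) = g (y - x) := by rw [← g1 (x - y), neg_sub]
      simp only [this])
    (fun x y => Real.sqrt_nonneg _) (fun x y => by rw [hsq]; exact g3 _)
    (fun x y _ hxy => by rw [g4 _ hxy, Real.sqrt_zero])
    (fun ψ => by
      simp only [hsq]
      exact g5 ψ)
  have hC0 : 0 < C ^ (k - 2) := by positivity
  have h1 : ρ' * h ^ N * X.card ≤ C ^ (k - 2) * M := by
    have e : ρ' * h ^ N / C ^ (k - 2) * X.card = (ρ' * h ^ N * X.card) / C ^ (k - 2) := by ring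
    rw [e, div_le_iff₀ hC0] at key
    linarith
  calc ρ' * (volume V).toReal ≤ ρ' * (h ^ N * X.card) := mul_le_mul_of_nonneg_left hXv hρ'.le
    _ = ρ' * h ^ N * X.card := by ring
    _ ≤ _ := h1

/-- powers of `C` -/
lemma pow_le_exp {δ : ℝ} {N k : ℕ} (hk : (k : ℝ) ≤ Real.exp (δ * N)) :
    (1 + Real.exp (-(δ * N))) ^ (k - 2) ≤ Real.exp 1 := by
  have h1 : 1 + Real.exp (-(δ * N)) ≤ Real.exp (Real.exp (-(δ * N))) := by
    have := Real.add_one_le_exp (Real.exp (-(δ * N)))
    linarith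
  have h0 : 0 < Real.exp (-(δ * N)) := Real.exp_pos _
  calc (1 + Real.exp (-(δ * N))) ^ (k - 2) ≤ Real.exp (Real.exp (-(δ * N))) ^ (k - 2) :=
        pow_le_pow_left₀ (by positivity) h1 _
    _ = Real.exp ((k - 2 : ℕ) * Real.exp (-(δ * N))) := by rw [← Real.exp_nat_mul]
    _ ≤ Real.exp 1 := by
        refine Real.exp_le_exp.mpr ?_
        have h2 : ((k - 2 : ℕ) : ℝ) ≤ Real.exp (δ * N) := by
          refine le_trans ?_ hk
          exact_mod_cast Nat.sub_le k 2
        calc ((k - 2 : ℕ) : ℝ) * Real.exp (-(δ * N)) ≤ Real.exp (δ * N) * Real.exp (-(δ * N)) :=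
              mul_le_mul_of_nonneg_right h2 h0.le
          _ = 1 := by rw [← Real.exp_add]; simp

theorem k13 (h4 : K4) (h5 : K5) (h6 : K6) (h11 : K11) (h12 : K12) : K13 := by
  intro ε hε
  have ht0 : ∀ (N k : ℕ), 2 ≤ k → ∀ t : ℝ, IsBound k N t → 0 ≤ t := by
    rintro N k hk t ⟨V, r, M, T, hVb, hVm, hV, hr, hT, rfl⟩
    have hM0 : 0 ≤ M := by
      have := h5 N k V r M T ∅ hk hT (by simp) (by intro x hx; simp at hx)
      simpa using this
    unfold kval
    positivity
  by_cases hε1 : 1 / π ^ 2 ≤ ε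
  · refine ⟨1, one_pos, Eventually.of_forall fun N k hk _ t ht => ?_⟩
    refine le_trans ?_ (ht0 N k hk t ht)
    exact mul_nonpos_of_nonpos_of_nonneg (by linarith) (Nat.cast_nonneg N)
  push Not at hε1
  have hβ : 0 < 1 / π ^ 2 - ε / 2 := by linarith
  obtain ⟨δ, hδ, hev⟩ := h12 (ε / 2) (by linarith) (by linarith)
  refine ⟨δ, hδ, ?_⟩
  -- the factor `(2 e) ^ (-2 / N)`
  have hlim : Tendsto (fun N : ℕ => (1 / π ^ 2 - ε / 2) * (2 * Real.exp 1) ^ (-(2 : ℝ) / N)) atTop
      (𝓝 ((1 / π ^ 2 - ε / 2) * 1)) := by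
    refine Tendsto.const_mul _ ?_
    have h1 : Tendsto (fun N : ℕ => -(2 : ℝ) / N) atTop (𝓝 0) :=
      tendsto_const_nhds.div_atTop tendsto_natCast_atTop_atTop
    have h2 : Tendsto (fun x : ℝ => (2 * Real.exp 1) ^ x) (𝓝 0) (𝓝 ((2 * Real.exp 1) ^ (0 : ℝ))) :=
      (Real.continuous_const_rpow (by positivity)).tendsto 0
    have h3 := h2.comp h1
    rw [Real.rpow_zero] at h3
    exact h3
  have hlt : 1 / π ^ 2 - ε < (1 / π ^ 2 - ε / 2) * 1 := by linarith
  filter_upwards [hev, hlim.eventually_const_lt hlt, eventually_gt_atTop 0] with N hN hN2 hN0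
  intro k hk hkN t ht
  have hNR : (0 : ℝ) < N := by exact_mod_cast hN0
  have ht0' := ht0 N k hk t ht
  obtain ⟨V, r, M, T, hVb, hVm, hV, hr, hT, rfl⟩ := ht
  have hM0 : 0 ≤ M := by
    have := h5 N k V r M T ∅ hk hT (by simp) (by intro x hx; simp at hx)
    simpa using this
  set β : ℝ := 1 / π ^ 2 - ε / 2 with hβd
  set q : ℝ := (2 * Real.exp 1) ^ (-(2 : ℝ) / N) with hq
  have hq0 : 0 < q := by
    rw [hq]
    positivity
  -- one radius
  have hone : ∀ η : ℝ, 0 < η → β * N * q ≤ kval N V r M * (1 + η) ^ 2 := by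
    intro η hη
    have hR : r < (1 + η) * r := by nlinarith
    have hR0 : 0 < (1 + η) * r := by positivity
    have hbase : 0 < β * N / ((1 + η) * r) ^ 2 := by positivity
    set ρ : ℝ := (β * N / ((1 + η) * r) ^ 2) ^ ((N : ℝ) / 2) with hρd
    have hρ : 0 < ρ := by
      rw [hρd]
      positivity
    have h1 := barrier_one h4 h6 h11 hk hVb hVm hr hT (hN _ hR0)
      (le_add_of_nonneg_right (Real.exp_pos _).le) (half_pos hρ) (half_lt_self hρ) hR
    have h2 := pow_le_exp hkN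
    have h3 : ρ / 2 * (volume V).toReal ≤ Real.exp 1 * M :=
      h1.trans (mul_le_mul_of_nonneg_right h2 hM0)
    have h4' : ρ * (2 * Real.exp 1)⁻¹ ≤ M / (volume V).toReal := by
      rw [le_div_iff₀ hV]
      have he := Real.exp_pos 1
      have e : ρ * (2 * Real.exp 1)⁻¹ * (volume V).toReal
          = (ρ / 2 * (volume V).toReal) / Real.exp 1 := by
        field_simp
      rw [e, div_le_iff₀ he]
      linarith
    have h5' : (ρ * (2 * Real.exp 1)⁻¹) ^ ((2 : ℝ) / N) = β * N / ((1 + η) * r) ^ 2 * q := by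
      rw [Real.mul_rpow hρ.le (by positivity), hρd, ← Real.rpow_mul hbase.le, hq]
      have e1 : (N : ℝ) / 2 * (2 / N) = 1 := by field_simp
      have e2 : ((2 * Real.exp 1)⁻¹ : ℝ) ^ ((2 : ℝ) / N) = (2 * Real.exp 1) ^ (-(2 : ℝ) / N) := by
        rw [Real.inv_rpow (by positivity), ← Real.rpow_neg (by positivity)]
        congr 1
        ring
      rw [e1, Real.rpow_one, e2]
    have h6' : β * N / ((1 + η) * r) ^ 2 * q ≤ (M / (volume V).toReal) ^ ((2 : ℝ) / N) := by
      rw [← h5']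
      exact Real.rpow_le_rpow (by positivity) h4' (by positivity)
    unfold kval
    have h7 : β * N * q = r ^ 2 * (β * N / ((1 + η) * r) ^ 2 * q) * (1 + η) ^ 2 := by
      field_simp
    rw [h7]
    refine mul_le_mul_of_nonneg_right ?_ (sq_nonneg _)
    exact mul_le_mul_of_nonneg_left h6' (sq_nonneg _)
  -- the radius tends to `r`
  have hall : β * N * q ≤ kval N V r M := by
    have hc : Tendsto (fun η : ℝ => kval N V r M * (1 + η) ^ 2) (𝓝[>] 0)
        (𝓝 (kval N V r M * (1 + 0) ^ 2)) := by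
      have : Continuous fun η : ℝ => kval N V r M * (1 + η) ^ 2 := by fun_prop
      exact (this.tendsto 0).mono_left nhdsWithin_le_nhds
    have h := ge_of_tendsto hc (by
      filter_upwards [self_mem_nhdsWithin] with η hη
      exact hone η hη)
    simpa using h
  calc (1 / π ^ 2 - ε) * N ≤ β * q * N := mul_le_mul_of_nonneg_right hN2.le hNR.le
    _ = β * N * q := by ring
    _ ≤ _ := hall

end

end Pool.Agent.KPT
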