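import Mathlib

/-!
KPT project (MP_ef2672): k-point semidefinite bounds for packings in `ℝᴺ`.
-/

namespace Pool.Agent.KPT

open MeasureTheory
open scoped Real

noncomputable section

section abstract_part

variable {α : Type*}

open Classical in
/-- The points of `Q` together with the points of the pair `p` (`none` stands for no point). -/
def join (Q : Finset α) (p : Option α × Option α) : Finset α :=
  Q ∪ p.1.toFinset ∪ p.2.toFinset

open Classical in
/-- The functional `B_k T`: the sum of `T Q x y` over `Q ⊆ I` with at most `k - 2` points and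
`x, y ∈ I ∪ {none}` such that the points of `Q`, `x`, `y` are exactly the points of `I`. -/
def B (k : ℕ) (T : Finset α → Option α → Option α → ℝ) (I : Finset α) : ℝ :=
  ∑ Q ∈ I.powerset.filter (fun Q => Q.card + 2 ≤ k),
    ∑ p ∈ (I.insertNone ×ˢ I.insertNone).filter (fun p => join Q p = I), T Q p.1 p.2

/-- The kernel `K` is positive semidefinite on the set `W`. -/
def Psd (W : Set α) (K : α → α → ℝ) : Prop :=
  ∀ S : Finset α, (∀ x ∈ S, x ∈ W) → ∀ a : α → ℝ, 0 ≤ ∑ x ∈ S, ∑ y ∈ S, a x * a y * K x y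

end abstract_part

/-- Euclidean space. -/
abbrev E (N : ℕ) := EuclideanSpace ℝ (Fin N)

/-- Distinct points of `I` have distance at least `r`. -/
def Sep {N : ℕ} (r : ℝ) (I : Finset (E N)) : Prop :=
  ∀ x ∈ I, ∀ y ∈ I, x ≠ y → r ≤ ‖x - y‖

/-- `T` is a k-point certificate of value `M` for the packings of the region `V` whose points have
distances at least `r`. -/
def Cert {N : ℕ} (k : ℕ) (V : Set (E N)) (r M : ℝ)
    (T : Finset (E N) → Option (E N) → Option (E N) → ℝ) : Prop :=
  (∀ Q : Finset (E N), (∀ x ∈ Q, x ∈ V) → Sep r Q → Q.card + 2 ≤ k →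
    Psd {p : Option (E N) | ∀ x ∈ p, x ∈ V} (T Q)) ∧
  (∀ x ∈ V, B k T {x} ≤ -1) ∧
  (∀ I : Finset (E N), (∀ x ∈ I, x ∈ V) → Sep r I → 2 ≤ I.card → I.card ≤ k → B k T I ≤ 0) ∧
  T ∅ none none = M

/-- The upper bound for Hermite's constant given by a certificate of value `M` for the region `V`
and the distance `r`. -/
def kval (N : ℕ) (V : Set (E N)) (r M : ℝ) : ℝ :=
  r ^ 2 * (M / (volume V).toReal) ^ ((2 : ℝ) / N)

/-- `t` is the bound for Hermite's constant given by some k-point certificate. -/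
def IsBound (k N : ℕ) (t : ℝ) : Prop :=
  ∃ (V : Set (E N)) (r M : ℝ) (T : Finset (E N) → Option (E N) → Option (E N) → ℝ),
    Bornology.IsBounded V ∧ MeasurableSet V ∧ 0 < (volume V).toReal ∧ 0 < r ∧ Cert k V r M T ∧
      t = kval N V r M

/-- The best k-point bound for Hermite's constant. -/
def kpt (k N : ℕ) : ℝ := sInf {t : ℝ | IsBound k N t}

/-- The relaxed linear programming inequality: for every function `F` of positive type,
`ρ (∫ F - C ∫_{‖x‖ ≥ R} F⁺) ≤ F 0`. -/
def RB (N : ℕ) (R C ρ : ℝ) : Prop :=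
  ∀ (F : E N → ℝ) (ν : Measure (E N)), IsFiniteMeasure ν → Integrable F →
    (∀ x, F x = ∫ ξ, Real.cos (inner ℝ x ξ) ∂ν) →
      ρ * ((∫ x, F x) - C * ∫ x in {x : E N | R ≤ ‖x‖}, max (F x) 0) ≤ F 0

/-- The symmetrised sum of the matrix `b` over the pairs of `G` with difference `z`. -/
def fs {N : ℕ} (G : Finset (E N)) (b : E N → E N → ℝ) (z : E N) : ℝ :=
  ∑ x ∈ G, ∑ y ∈ G, ((if x - y = z then b x y else 0) + (if y - x = z then b x y else 0)) / 2

open Classical in
/-- The differences of the points of `G`. -/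
def diffs {N : ℕ} (G : Finset (E N)) : Finset (E N) := (G ×ˢ G).image fun p => p.1 - p.2

end

end Pool.Agent.KPT
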