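import Pool.Agent.Lib.KPT.Sum
import Pool.Agent.Lib.LPX.Upper

/-!
KPT project: assembly.
-/

namespace Pool.Agent.KPT

open MeasureTheory Filter Topology
open scoped Real
open Pool.Agent.Lib.MP_ef2672_gt_Tauber (gamma)
open Pool.Agent.LPX (Adm val lp)

theorem isBound_nonneg (h5 : K5) {k N : ℕ} {t : ℝ} (hk : 2 ≤ k) (h : IsBound k N t) : 0 ≤ t := by
  obtain ⟨V, r, M, T, -, -, hv, hr, hT, rfl⟩ := h
  have hM := h5 N k V r M T ∅ hk hT (by simp) (by intro x hx; simp at hx)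
  simp only [Finset.card_empty, Nat.cast_zero] at hM
  unfold kval
  positivity

theorem bddBelow_isBound (h5 : K5) {k : ℕ} (hk : 2 ≤ k) (N : ℕ) :
    BddBelow {t : ℝ | IsBound k N t} := ⟨0, fun _ ht => isBound_nonneg h5 hk ht⟩

theorem B_succ {α : Type} (k : ℕ) (T : Finset α → Option α → Option α → ℝ) (I : Finset α) :
    B (k + 1) (fun Q => if Q.card + 2 ≤ k then T Q else fun _ _ => 0) I = B k T I := by
  classical
  unfold B
  have h1 : I.powerset.filter (fun Q => Q.card + 2 ≤ k) =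
      (I.powerset.filter (fun Q => Q.card + 2 ≤ k + 1)).filter (fun Q => Q.card + 2 ≤ k) := by
    ext Q
    simp only [Finset.mem_filter]
    constructor
    · rintro ⟨h1, h2⟩
      exact ⟨⟨h1, by omega⟩, h2⟩
    · rintro ⟨⟨h1, -⟩, h2⟩
      exact ⟨h1, h2⟩
  rw [h1]
  conv_rhs => rw [Finset.sum_filter]
  refine Finset.sum_congr rfl fun Q _ => ?_
  by_cases h : Q.card + 2 ≤ k
  · simp only [if_pos h]
  · simp only [if_neg h, Finset.sum_const_zero]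

theorem cert_succ (h1b : K1b) {N k : ℕ} {V : Set (E N)} {r M : ℝ}
    {T : Finset (E N) → Option (E N) → Option (E N) → ℝ} (hk : 2 ≤ k) (h : Cert k V r M T) :
    Cert (k + 1) V r M (fun Q => if Q.card + 2 ≤ k then T Q else fun _ _ => 0) := by
  obtain ⟨hP, hB1, hB2, hM⟩ := h
  refine ⟨fun Q hQ hs hc => ?_, fun x hx => ?_, fun I hI hs h2 hc => ?_, ?_⟩
  · by_cases hQk : Q.card + 2 ≤ k
    · simp only [hQk, if_true]
      exact hP Q hQ hs hQk
    · simp only [hQk, if_false]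
      intro S _ a
      simp
  · rw [B_succ]
    exact hB1 x hx
  · rw [B_succ]
    rcases Nat.lt_or_ge k I.card with h | h
    · rw [(h1b (E N) k T).1 I h]
    · exact hB2 I hI hs h2 h
  · simp only [Finset.card_empty, zero_add, hk, if_true]
    exact hM

theorem isBound_succ (h1b : K1b) {k N : ℕ} {t : ℝ} (hk : 2 ≤ k) (h : IsBound k N t) :
    IsBound (k + 1) N t := by
  obtain ⟨V, r, M, T, hb, hm, hv, hr, hT, ht⟩ := h
  exact ⟨V, r, M, _, hb, hm, hv, hr, cert_succ h1b hk hT, ht⟩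

/-- Admissible functions give k-point bounds. -/
theorem isBound_of_adm (h5 : K5) (h14 : K14) {N : ℕ} {F : E N → ℝ} {r : ℝ} (hN : 0 < N)
    (h : Adm N F r) {k : ℕ} (hk : 2 ≤ k) {ε : ℝ} (hε : 0 < ε) :
    ∃ t, IsBound k N t ∧ t ≤ val N F r + ε := by
  have hr := h.1
  have hI : 0 < ∫ x, F x := h.2.2.2.2
  have h0 := h.zero_nonneg
  have hcont : Tendsto (fun η : ℝ => r ^ 2 * (F 0 / (∫ x, F x) + η) ^ ((2 : ℝ) / N)) (𝓝[>] 0)
      (𝓝 (r ^ 2 * (F 0 / (∫ x, F x) + 0) ^ ((2 : ℝ) / N))) := by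
    refine Tendsto.mono_left ?_ nhdsWithin_le_nhds
    refine Tendsto.const_mul _ ?_
    refine Tendsto.rpow_const (tendsto_const_nhds.add tendsto_id) (Or.inr (by positivity))
  rw [add_zero] at hcont
  obtain ⟨η, hη1, hη0⟩ := ((hcont.eventually_lt_const (show r ^ 2 * (F 0 / (∫ x, F x)) ^
    ((2 : ℝ) / N) < val N F r + ε by
      have : r ^ 2 * (F 0 / (∫ x, F x)) ^ ((2 : ℝ) / N) = val N F r := rfl
      linarith)).and self_mem_nhdsWithin).exists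
  obtain ⟨V, M, T, hb, hm, hv, hT, hle⟩ := h14 N F r hN h k hk η hη0
  have hM := h5 N k V r M T ∅ hk hT (by simp) (by intro x hx; simp at hx)
  simp only [Finset.card_empty, Nat.cast_zero] at hM
  refine ⟨kval N V r M, ⟨V, r, M, T, hb, hm, hv, hr, hT, rfl⟩, le_trans ?_ hη1.le⟩
  unfold kval
  gcongr

theorem kpt_le_val (h5 : K5) (h14 : K14) {N : ℕ} {F : E N → ℝ} {r : ℝ} (hN : 0 < N)
    (h : Adm N F r) {k : ℕ} (hk : 2 ≤ k) : kpt k N ≤ val N F r := by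
  refine le_of_forall_pos_le_add fun ε hε => ?_
  obtain ⟨t, ht, hle⟩ := isBound_of_adm h5 h14 hN h hk hε
  exact (csInf_le (bddBelow_isBound h5 hk N) ht).trans hle

theorem kpt_le_lp (h5 : K5) (h14 : K14) {N k : ℕ} (hN : 0 < N) (hk : 2 ≤ k) :
    kpt k N ≤ lp N := by
  refine LPX.le_lp fun F r h => kpt_le_val h5 h14 hN h hk

theorem nonempty_isBound (h5 : K5) (h14 : K14) {N k : ℕ} (hN : 0 < N) (hk : 2 ≤ k) :
    {t : ℝ | IsBound k N t}.Nonempty := by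
  obtain ⟨F, r, h⟩ := LPX.exists_adm N
  obtain ⟨t, ht, -⟩ := isBound_of_adm h5 h14 hN h hk one_pos
  exact ⟨t, ht⟩

theorem kpt_succ_le (h1b : K1b) (h5 : K5) (h14 : K14) {N k : ℕ} (hN : 0 < N) (hk : 2 ≤ k) :
    kpt (k + 1) N ≤ kpt k N :=
  csInf_le_csInf (bddBelow_isBound h5 (by omega) N) (nonempty_isBound h5 h14 hN hk)
    fun _ ht => isBound_succ h1b hk ht

theorem gamma_le_bound (h7 : K7) {N k : ℕ} {t : ℝ} (hN : 0 < N) (hk : 2 ≤ k)
    (h : IsBound k N t) : gamma N ≤ t := by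
  obtain ⟨V, r, M, T, hb, hm, hv, hr, hT, rfl⟩ := h
  exact h7 N k V r M T hN hk hb hm hv hr hT

theorem gamma_le_kpt (h5 : K5) (h7 : K7) (h14 : K14) {N k : ℕ} (hN : 0 < N) (hk : 2 ≤ k) :
    gamma N ≤ kpt k N :=
  le_csInf (nonempty_isBound h5 h14 hN hk) fun _ ht => gamma_le_bound h7 hN hk ht

/-- The main statement: uniform asymptotics. -/
theorem uniform (h5 : K5) (h13 : K13) (h14 : K14) {ε : ℝ} (hε : 0 < ε) :
    ∃ δ : ℝ, 0 < δ ∧ ∀ᶠ N : ℕ in atTop, ∀ k : ℕ, 2 ≤ k → (k : ℝ) ≤ Real.exp (δ * N) →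
      (∀ t : ℝ, IsBound k N t → (1 / π ^ 2 - ε) * N ≤ t) ∧
      ∃ t : ℝ, IsBound k N t ∧ t ≤ (1 / π ^ 2 + ε) * N := by
  obtain ⟨δ, hδ, H⟩ := h13 ε hε
  refine ⟨δ, hδ, ?_⟩
  filter_upwards [H, LPX.upper (d := ε / 2) (by positivity), eventually_ge_atTop 1] with N hN hU h1N
    k hk hkN
  refine ⟨hN k hk hkN, ?_⟩
  obtain ⟨F, r, hF, hle⟩ := hU
  have hNr : (1 : ℝ) ≤ N := by exact_mod_cast h1N
  obtain ⟨t, ht, hle2⟩ := isBound_of_adm h5 h14 (by omega) hF hk (ε := ε / 2 * N) (by positivity)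
  exact ⟨t, ht, by linarith⟩

theorem kpt_tendsto (h5 : K5) (h13 : K13) (h14 : K14) {k : ℕ → ℕ} (hk : ∀ N, 2 ≤ k N)
    (hlog : Tendsto (fun N : ℕ => Real.log (k N) / N) atTop (𝓝 0)) :
    Tendsto (fun N : ℕ => kpt (k N) N / N) atTop (𝓝 (1 / π ^ 2)) := by
  rw [Metric.tendsto_nhds]
  intro ε hε
  obtain ⟨δ, hδ, H⟩ := uniform h5 h13 h14 (half_pos hε)
  filter_upwards [H, hlog.eventually_lt_const hδ, eventually_ge_atTop 1] with N hN hl h1N
  have hNr : (0 : ℝ) < N := by exact_mod_cast (by omega : 0 < N)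
  have hkpos : (0 : ℝ) < k N := by
    have := hk N
    exact_mod_cast (by omega : 0 < k N)
  have hkN : (k N : ℝ) ≤ Real.exp (δ * N) := by
    rw [div_lt_iff₀ hNr] at hl
    calc (k N : ℝ) = Real.exp (Real.log (k N)) := (Real.exp_log hkpos).symm
      _ ≤ _ := Real.exp_le_exp.2 hl.le
  obtain ⟨hlow, t, ht, hup⟩ := hN (k N) (hk N) hkN
  have h1 : (1 / π ^ 2 - ε / 2) * N ≤ kpt (k N) N :=
    le_csInf ⟨t, ht⟩ fun s hs => hlow s hs
  have h2 : kpt (k N) N ≤ (1 / π ^ 2 + ε / 2) * N :=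
    (csInf_le (bddBelow_isBound h5 (hk N) N) ht).trans hup
  rw [Real.dist_eq, abs_lt]
  constructor
  · have : 1 / π ^ 2 - ε / 2 ≤ kpt (k N) N / N := by rwa [le_div_iff₀ hNr]
    linarith
  · have : kpt (k N) N / N ≤ 1 / π ^ 2 + ε / 2 := by rwa [div_le_iff₀ hNr]
    linarith

end Pool.Agent.KPT
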