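import Pool.Agent.Lib.KPT.Props
import Pool.Agent.Lib.KL.PackLP
import Pool.Agent.Lib.KL.PackLim

/-!
KPT project, row K14: admissible functions give k-point certificates.  (helper63)
-/

set_option autoImplicit false

namespace Pool.Agent.KPT

open MeasureTheory Filter Topology Metric
open scoped Real

noncomputable section

namespace FromLP

variable {Ω V : Type*} [MeasurableSpace Ω] [MeasurableSpace V] [AddCommGroup V]

/-- A cosine transform of a finite measure is positive semidefinite on finite measures. -/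
theorem psd_sum (ν : Measure Ω) [IsFiniteMeasure ν] (L : Ω → V → ℝ)
    (hL : Measurable (Function.uncurry L)) (hadd : ∀ ω x y, L ω (x - y) = L ω x - L ω y)
    (g : V → ℝ) (hg : ∀ z, g z = ∫ ω, Real.cos (L ω z) ∂ν) {ι : Type*} (S : Finset ι)
    (m : ι → Measure V) (hm : ∀ i, IsFiniteMeasure (m i)) (a : ι → ℝ) :
    0 ≤ ∑ i ∈ S, ∑ j ∈ S, a i * a j * ∫ x, ∫ y, g (x - y) ∂(m j) ∂(m i) := by
  have hb : ∀ i j, ∫ x, ∫ y, g (x - y) ∂(m j) ∂(m i) =
      ∫ ω, ((∫ x, Real.cos (L ω x) ∂(m i)) * (∫ y, Real.cos (L ω y) ∂(m j)) +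
      (∫ x, Real.sin (L ω x) ∂(m i)) * (∫ y, Real.sin (L ω y) ∂(m j))) ∂ν := by
    intro i j
    have := hm i
    have := hm j
    rw [Pool.Agent.Lib.KL.Pack.bform ν L hL hadd (m i) (m j)]
    simp only [hg]
  have key : ∀ (f : ℝ → ℝ) (hf : Measurable f) (hb : ∀ x, |f x| ≤ 1) (i : ι),
      StronglyMeasurable (fun ω => ∫ x, f (L ω x) ∂(m i)) ∧
      ∀ ω, ‖∫ x, f (L ω x) ∂(m i)‖ ≤ (m i).real Set.univ := by
    intro f hf hb i
    have := hm i
    refine ⟨?_, fun ω => ?_⟩
    · have h1 : StronglyMeasurable (Function.uncurry fun (ω : Ω) (x : V) => f (L ω x)) :=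
        (hf.comp hL).stronglyMeasurable
      exact h1.integral_prod_right
    · refine (norm_integral_le_of_norm_le_const (C := 1) (ae_of_all _ fun x => ?_)).trans ?_
      · simpa [Real.norm_eq_abs] using hb _
      · simp
  have hI : ∀ (f : ℝ → ℝ) (hf : Measurable f) (hb : ∀ x, |f x| ≤ 1) (i j : ι),
      Integrable (fun ω => (∫ x, f (L ω x) ∂(m i)) * ∫ x, f (L ω x) ∂(m j)) ν := by
    intro f hf hb i j
    obtain ⟨m1, b1⟩ := key f hf hb i
    obtain ⟨m2, b2⟩ := key f hf hb j
    refine Integrable.of_bound (m1.mul m2).aestronglyMeasurable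
      ((m i).real Set.univ * (m j).real Set.univ) (ae_of_all _ fun ω => ?_)
    rw [norm_mul]
    exact mul_le_mul (b1 ω) (b2 ω) (norm_nonneg _) measureReal_nonneg
  have hc := hI Real.cos Real.measurable_cos Real.abs_cos_le_one
  have hs := hI Real.sin Real.measurable_sin Real.abs_sin_le_one
  have e : ∑ i ∈ S, ∑ j ∈ S, a i * a j * ∫ x, ∫ y, g (x - y) ∂(m j) ∂(m i) =
      ∫ ω, ((∑ i ∈ S, a i * ∫ x, Real.cos (L ω x) ∂(m i)) ^ 2 +
        (∑ i ∈ S, a i * ∫ x, Real.sin (L ω x) ∂(m i)) ^ 2) ∂ν := by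
    have h1 : ∀ ω, ((∑ i ∈ S, a i * ∫ x, Real.cos (L ω x) ∂(m i)) ^ 2 +
        (∑ i ∈ S, a i * ∫ x, Real.sin (L ω x) ∂(m i)) ^ 2) =
        ∑ i ∈ S, ∑ j ∈ S, a i * a j *
          ((∫ x, Real.cos (L ω x) ∂(m i)) * (∫ y, Real.cos (L ω y) ∂(m j)) +
            (∫ x, Real.sin (L ω x) ∂(m i)) * (∫ y, Real.sin (L ω y) ∂(m j))) := by
      intro ω
      rw [sq, sq, Finset.sum_mul_sum, Finset.sum_mul_sum, ← Finset.sum_add_distrib]
      refine Finset.sum_congr rfl fun i _ => ?_
      rw [← Finset.sum_add_distrib]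
      refine Finset.sum_congr rfl fun j _ => ?_
      ring
    simp only [h1]
    rw [integral_finsetSum]
    · refine Finset.sum_congr rfl fun i _ => ?_
      rw [integral_finsetSum]
      · refine Finset.sum_congr rfl fun j _ => ?_
        rw [integral_const_mul, hb]
      · intro j _
        exact ((hc i j).add (hs i j)).const_mul _
    · intro i _
      refine integrable_finsetSum _ fun j _ => ?_
      exact ((hc i j).add (hs i j)).const_mul _
  rw [e]
  exact integral_nonneg fun ω => add_nonneg (sq_nonneg _) (sq_nonneg _)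

/-! ### The kernel -/

/-- The measure of a point (`none`: Lebesgue measure on `D`). -/
def km {N : ℕ} (D : Set (E N)) : Option (E N) → Measure (E N)
  | none => volume.restrict D
  | some x => Measure.dirac x

/-- The coefficient of a point. -/
def kc {N : ℕ} (c : ℝ) : Option (E N) → ℝ
  | none => -c
  | some _ => 1

/-- The kernel on `V ∪ {none}`. -/
def kern {N : ℕ} (F : E N → ℝ) (D : Set (E N)) (c : ℝ) (p q : Option (E N)) : ℝ :=
  kc c p * kc c q * (∫ x, ∫ y, F (x - y) ∂(km D q) ∂(km D p)) / F 0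

theorem kern_ss {N : ℕ} (F : E N → ℝ) (D : Set (E N)) (c : ℝ) (x y : E N) :
    kern F D c (some x) (some y) = F (x - y) / F 0 := by
  simp [kern, kc, km]

theorem kern_sn {N : ℕ} (F : E N → ℝ) (D : Set (E N)) (c : ℝ) (x : E N) :
    kern F D c (some x) none = -(c * (∫ y in D, F (x - y)) / F 0) := by
  simp [kern, kc, km]
  ring

theorem kern_ns {N : ℕ} (F : E N → ℝ) (D : Set (E N)) (c : ℝ) (x : E N) :
    kern F D c none (some x) = -(c * (∫ y in D, F (y - x)) / F 0) := by
  simp [kern, kc, km]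
  ring

theorem kern_nn {N : ℕ} (F : E N → ℝ) (D : Set (E N)) (c : ℝ) :
    kern F D c none none = c ^ 2 * (∫ x in D, ∫ y in D, F (x - y)) / F 0 := by
  simp [kern, kc, km]
  ring

theorem L_meas {N : ℕ} : Measurable (Function.uncurry fun (ω z : E N) => inner ℝ z ω) := by
  exact (continuous_snd.inner continuous_fst).measurable

theorem kern_psd {N : ℕ} {F : E N → ℝ} {D : Set (E N)} (hD : volume D ≠ ⊤) (c : ℝ)
    (ν : Measure (E N)) [IsFiniteMeasure ν] (hF : ∀ x, F x = ∫ ξ, Real.cos (inner ℝ x ξ) ∂ν)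
    (hF0 : 0 ≤ F 0) (S : Finset (Option (E N))) (a : Option (E N) → ℝ) :
    0 ≤ ∑ p ∈ S, ∑ q ∈ S, a p * a q * kern F D c p q := by
  have hm : ∀ p, IsFiniteMeasure (km D p) := by
    intro p
    cases p with
    | none => exact ⟨by rw [km, Measure.restrict_apply_univ]; exact lt_top_iff_ne_top.2 hD⟩
    | some x => rw [km]; infer_instance
  have h := psd_sum ν (fun ω z => inner ℝ z ω) L_meas (fun ω x y => inner_sub_left x y ω) F hF S
    (km D) hm (fun p => a p * kc c p)
  have e : ∑ p ∈ S, ∑ q ∈ S, a p * a q * kern F D c p q =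
      (∑ p ∈ S, ∑ q ∈ S, a p * kc c p * (a q * kc c q) *
        ∫ x, ∫ y, F (x - y) ∂(km D q) ∂(km D p)) / F 0 := by
    rw [Finset.sum_div]
    refine Finset.sum_congr rfl fun p _ => ?_
    rw [Finset.sum_div]
    refine Finset.sum_congr rfl fun q _ => ?_
    rw [kern]
    ring
  rw [e]
  exact div_nonneg h hF0

/-! ### The functional `B` -/

open Classical in
/-- The functional with the single kernel `K`. -/
def TT {α : Type*} (K : Option α → Option α → ℝ) (Q : Finset α) (p q : Option α) : ℝ :=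
  if Q = ∅ then K p q else 0

open Classical in
theorem B_T {α : Type*} {k : ℕ} (hk : 2 ≤ k) (K : Option α → Option α → ℝ) (I : Finset α) :
    B k (TT K) I =
      ∑ p ∈ (I.insertNone ×ˢ I.insertNone).filter (fun p => join ∅ p = I), K p.1 p.2 := by
  unfold B
  rw [Finset.sum_eq_single ∅]
  · simp [TT]
  · intro Q _ hQ
    simp [TT, hQ]
  · intro h
    exact absurd (by simp [hk]) h

open Classical in
theorem B_one {α : Type*} (K : Option α → Option α → ℝ) (x : α) :
    ∑ p ∈ (({x} : Finset α).insertNone ×ˢ ({x} : Finset α).insertNone).filter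
      (fun p => join ∅ p = {x}), K p.1 p.2 =
      K (some x) (some x) + K (some x) none + K none (some x) := by
  have h : (({x} : Finset α).insertNone ×ˢ ({x} : Finset α).insertNone).filter
      (fun p => join ∅ p = {x}) = {(some x, some x), (some x, none), (none, some x)} := by
    ext ⟨p, q⟩
    cases p <;> cases q <;> simp [join, Finset.mem_insertNone, Finset.ext_iff]
    · rintro rfl a
      exact eq_comm
    · rintro rfl a
      exact eq_comm
    · rintro rfl rfl a
      rw [or_self, eq_comm]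
  rw [h, Finset.sum_insert, Finset.sum_insert, Finset.sum_singleton]
  · ring
  · simp
  · simp

open Classical in
theorem B_many {α : Type*} (K : Option α → Option α → ℝ) (I : Finset α) (hI : 2 ≤ I.card)
    (hK : ∀ x ∈ I, ∀ y ∈ I, x ≠ y → K (some x) (some y) ≤ 0) :
    ∑ p ∈ (I.insertNone ×ˢ I.insertNone).filter (fun p => join ∅ p = I), K p.1 p.2 ≤ 0 := by
  refine Finset.sum_nonpos fun p hp => ?_
  rw [Finset.mem_filter, Finset.mem_product] at hp
  obtain ⟨⟨h1, h2⟩, h3⟩ := hp
  obtain ⟨p, q⟩ := p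
  simp only at h1 h2 ⊢
  have hc : ∀ z : α, I ⊆ {z} → False := fun z h => by
    have := Finset.card_le_card h
    rw [Finset.card_singleton] at this
    omega
  cases p with
  | none =>
    exfalso
    cases q with
    | none =>
      have h4 : I = ∅ := by rw [← h3]; simp [join]
      rw [h4] at hI
      simp at hI
    | some y =>
      refine hc y ?_
      rw [← h3]
      simp [join]
  | some x =>
    cases q with
    | none =>
      exfalso
      refine hc x ?_
      rw [← h3]
      simp [join]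
    | some y =>
      by_cases hxy : x = y
      · exfalso
        refine hc x ?_
        rw [← h3, hxy]
        simp [join]
      · exact hK x (by simpa using h1) y (by simpa using h2) hxy

/-! ### The double integral -/

/-- The double integral of `F (x - y)` over a large set. -/
theorem quad_le {N : ℕ} {F : E N → ℝ} (ν : Measure (E N)) [IsFiniteMeasure ν]
    (hF : ∀ x, F x = ∫ ξ, Real.cos (inner ℝ x ξ) ∂ν) (hi : Integrable F)
    {K D W : Set (E N)} (hK : MeasurableSet K) (hD : MeasurableSet D) (hDt : volume D ≠ ⊤)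
    (hKD : K ⊆ D) (hx : ∀ x ∈ K, ∀ z ∈ W, x - z ∈ D) :
    ∫ x in D, ∫ y in D, F (x - y) ≤
      volume.real K * ((∫ z, F z) + ∫ z in Wᶜ, |F z|) +
        (volume.real D - volume.real K) * ∫ z, |F z| := by
  set I := ∫ z, F z
  set T := ∫ z in Wᶜ, |F z|
  set A := ∫ z, |F z|
  have hfin : IsFiniteMeasure (volume.restrict D) := ⟨by
    rw [Measure.restrict_apply_univ]; exact lt_top_iff_ne_top.2 hDt⟩
  have hbg : ∀ z, |F z| ≤ ν.real Set.univ := fun z => by
    rw [hF]
    have := norm_integral_le_of_norm_le_const (μ := ν)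
      (f := fun ξ => Real.cos (inner ℝ z ξ)) (C := 1)
      (ae_of_all _ fun ω => by simpa [Real.norm_eq_abs] using Real.abs_cos_le_one _)
    simpa [Real.norm_eq_abs] using this
  have hmF : Measurable F := by
    have h1 : StronglyMeasurable (Function.uncurry fun (z : E N) (ω : E N) =>
        Real.cos (inner ℝ z ω)) :=
      (Real.measurable_cos.comp (continuous_fst.inner continuous_snd).measurable).stronglyMeasurable
    have h2 := h1.integral_prod_right (ν := ν)
    have h3 : F = fun z => ∫ ω, Real.cos (inner ℝ z ω) ∂ν := funext hF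
    rw [h3]
    exact h2.measurable
  have hmj : StronglyMeasurable (Function.uncurry fun (x y : E N) => F (x - y)) :=
    (hmF.comp (measurable_fst.sub measurable_snd)).stronglyMeasurable
  have hms : StronglyMeasurable fun x => ∫ y, F (x - y) ∂(volume.restrict D) :=
    hmj.integral_prod_right
  have hbd : ∀ x, ‖∫ y, F (x - y) ∂(volume.restrict D)‖ ≤
      ν.real Set.univ * (volume.restrict D).real Set.univ := fun x =>
    norm_integral_le_of_norm_le_const (ae_of_all _ fun y => hbg (x - y))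
  have hi' : Integrable (fun x => ∫ y, F (x - y) ∂(volume.restrict D)) (volume.restrict D) :=
    Integrable.of_bound hms.aestronglyMeasurable _ (ae_of_all _ hbd)
  have hpt : ∀ x ∈ D, (∫ y, F (x - y) ∂(volume.restrict D)) ≤
      K.indicator (fun _ => I + T) x + (D \ K).indicator (fun _ => A) x := by
    intro x hxD
    by_cases hxK : x ∈ K
    · have := Pool.Agent.Lib.KL.Pack.mean_close volume hi hD (hx x hxK)
      rw [abs_le] at this
      rw [Set.indicator_of_mem hxK, Set.indicator_of_notMem (by simp [hxK])]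
      linarith [this.2]
    · rw [Set.indicator_of_notMem hxK, Set.indicator_of_mem (show x ∈ D \ K from ⟨hxD, hxK⟩),
        zero_add]
      exact Pool.Agent.Lib.KL.Pack.mean_le volume hi D x
  have hi2 : Integrable (fun x => K.indicator (fun _ => I + T) x +
      (D \ K).indicator (fun _ => A) x) (volume.restrict D) :=
    ((integrable_const _).indicator hK).add ((integrable_const _).indicator (hD.diff hK))
  calc ∫ x in D, ∫ y in D, F (x - y) ≤
        ∫ x in D, (K.indicator (fun _ => I + T) x + (D \ K).indicator (fun _ => A) x) :=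
        setIntegral_mono_on hi' hi2 hD hpt
    _ = _ := by
      rw [integral_add ((integrable_const _).indicator hK)
        ((integrable_const _).indicator (hD.diff hK)), integral_indicator hK,
        integral_indicator (hD.diff hK), Measure.restrict_restrict hK,
        Measure.restrict_restrict (hD.diff hK), setIntegral_const, setIntegral_const,
        Set.inter_eq_left.2 hKD, Set.inter_eq_left.2 Set.sdiff_subset, smul_eq_mul, smul_eq_mul,
        measureReal_sdiff hKD hK hDt]

/-! ### The certificate -/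

/-- The certificate for the ball of radius `R`. -/
theorem cert {N : ℕ} {F : E N → ℝ} {r : ℝ} (ν : Measure (E N)) [IsFiniteMeasure ν]
    (hF : ∀ x, F x = ∫ ξ, Real.cos (inner ℝ x ξ) ∂ν) (hi : Integrable F)
    (hneg : ∀ x, r ≤ ‖x‖ → F x ≤ 0) (hF0 : 0 < F 0) {k : ℕ} (hk : 2 ≤ k)
    {K D W : Set (E N)} (hD : MeasurableSet D) (hDt : volume D ≠ ⊤)
    (hx : ∀ x ∈ K, ∀ z ∈ W, x - z ∈ D) (hT : 0 < (∫ z, F z) - ∫ z in Wᶜ, |F z|) :
    ∃ T : Finset (E N) → Option (E N) → Option (E N) → ℝ,
      Cert k K r ((F 0 / ((∫ z, F z) - ∫ z in Wᶜ, |F z|)) ^ 2 *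
        (∫ x in D, ∫ y in D, F (x - y)) / F 0) T := by
  classical
  set c := F 0 / ((∫ z, F z) - ∫ z in Wᶜ, |F z|) with hc
  have hc0 : 0 < c := div_pos hF0 hT
  refine ⟨TT (kern F D c), ?_, ?_, ?_, ?_⟩
  · intro Q _ _ _ S _ a
    by_cases hQ : Q = ∅
    · simp only [TT, hQ, if_true]
      exact kern_psd hDt c ν hF hF0.le S a
    · simp only [TT, hQ, if_false, mul_zero, Finset.sum_const_zero]
      exact le_rfl
  · intro x hxK
    rw [B_T hk, B_one, kern_ss, kern_sn, kern_ns, sub_self, div_self hF0.ne']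
    have heven : ∀ y, F (y - x) = F (x - y) := by
      intro y
      rw [hF, hF, ← neg_sub x y]
      simp only [inner_neg_left, Real.cos_neg]
    simp only [heven]
    have h1 := Pool.Agent.Lib.KL.Pack.mean_close volume hi hD (hx x hxK)
    rw [abs_le] at h1
    have h2 : (∫ z, F z) - (∫ z in Wᶜ, |F z|) ≤ ∫ y in D, F (x - y) := by linarith [h1.1]
    have h3 : 1 ≤ c * (∫ y in D, F (x - y)) / F 0 := by
      rw [one_le_div hF0]
      calc F 0 = c * ((∫ z, F z) - ∫ z in Wᶜ, |F z|) := by
            rw [hc, div_mul_cancel₀ _ hT.ne']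
        _ ≤ _ := by gcongr
    linarith
  · intro I hI hsep h2 _
    rw [B_T hk]
    refine B_many _ I h2 fun x hxI y hyI hxy => ?_
    rw [kern_ss]
    exact div_nonpos_of_nonpos_of_nonneg (hneg _ (hsep x hxI y hyI hxy)) hF0.le
  · simp only [TT, if_true]
    rw [kern_nn]

/-- The value of the certificates of large balls. -/
theorem value_lim {N : ℕ} {F : E N → ℝ} (hi : Integrable F) (hpos : 0 < ∫ z, F z) :
    Tendsto (fun R : ℝ => F 0 / ((∫ z, F z) - ∫ z in (ball (0 : E N) (√R))ᶜ, |F z|) ^ 2 *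
      (((∫ z, F z) + ∫ z in (ball (0 : E N) (√R))ᶜ, |F z|) +
        (((R + √R) / R) ^ N - 1) * ∫ z, |F z|)) atTop (𝓝 (F 0 / ∫ z, F z)) := by
  have h1 := (Pool.Agent.Lib.KL.Pack.tendsto_tail hi).comp Real.tendsto_sqrt_atTop
  have h2 : Tendsto (fun R : ℝ => ((R + √R) / R) ^ N) atTop (𝓝 1) := by
    have h : Tendsto (fun R : ℝ => (1 + √R / R) ^ N) atTop (𝓝 ((1 + 0) ^ N)) :=
      (tendsto_const_nhds.add Pool.Agent.Lib.KL.Pack.tendsto_sqrt_div).pow N
    rw [add_zero, one_pow] at h
    refine h.congr' ?_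
    filter_upwards [eventually_gt_atTop 0] with R hR
    congr 1
    field_simp
  have h3 : Tendsto (fun R : ℝ => F 0 / ((∫ z, F z) -
      ∫ z in (ball (0 : E N) (√R))ᶜ, |F z|) ^ 2) atTop (𝓝 (F 0 / ((∫ z, F z) - 0) ^ 2)) := by
    refine tendsto_const_nhds.div ((tendsto_const_nhds.sub h1).pow 2) ?_
    rw [sub_zero]
    positivity
  have h4 := h3.mul (((tendsto_const_nhds (x := ∫ z, F z)).add h1).add
    ((h2.sub_const 1).mul_const (∫ z, |F z|)))
  have e : F 0 / ((∫ z, F z) - 0) ^ 2 * ((∫ z, F z) + 0 + (1 - 1) * ∫ z, |F z|) =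
      F 0 / ∫ z, F z := by
    have := hpos.ne'
    field_simp
    ring
  rw [e] at h4
  exact h4

end FromLP

open FromLP in
/-- **Row K14.** -/
theorem k14 : K14 := by
  intro N F r hN hadm k hk η hη
  obtain ⟨hr, hi, ⟨ν, hν, hF⟩, hneg, hpos⟩ := hadm
  have : NeZero N := ⟨hN.ne'⟩
  have hF0' : F 0 = ν.real Set.univ := by
    rw [hF]
    simp
  have hbd : ∀ z, |F z| ≤ F 0 := fun z => by
    rw [hF z, hF0']
    have := norm_integral_le_of_norm_le_const (μ := ν)
      (f := fun ξ => Real.cos (inner ℝ z ξ)) (C := 1)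
      (ae_of_all _ fun ω => by simpa [Real.norm_eq_abs] using Real.abs_cos_le_one _)
    simpa [Real.norm_eq_abs] using this
  have hF0 : 0 < F 0 := by
    rcases (le_trans (abs_nonneg _) (hbd 0)).eq_or_lt with h | h
    · exfalso
      have h1 : ∀ z, F z = 0 := fun z => abs_nonpos_iff.1 ((hbd z).trans h.symm.le)
      simp [h1] at hpos
    · exact h
  have h1 := value_lim hi hpos
  have h2 := (Pool.Agent.Lib.KL.Pack.tendsto_tail hi).comp Real.tendsto_sqrt_atTop
  have h3 : ∀ᶠ R : ℝ in atTop, F 0 / ((∫ z, F z) - ∫ z in (ball (0 : E N) (√R))ᶜ, |F z|) ^ 2 *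
      (((∫ z, F z) + ∫ z in (ball (0 : E N) (√R))ᶜ, |F z|) +
        (((R + √R) / R) ^ N - 1) * ∫ z, |F z|) < F 0 / (∫ z, F z) + η :=
    h1.eventually (gt_mem_nhds (by linarith))
  have h4 : ∀ᶠ R : ℝ in atTop, ∫ z in (ball (0 : E N) (√R))ᶜ, |F z| < ∫ z, F z :=
    h2.eventually (gt_mem_nhds hpos)
  obtain ⟨R, h3, h4, hR⟩ := (h3.and (h4.and (eventually_gt_atTop (0 : ℝ)))).exists
  set D : Set (E N) := ball 0 (R + √R) with hDd
  set K : Set (E N) := ball 0 R with hKd
  set W : Set (E N) := ball 0 (√R) with hWd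
  have hsq : 0 < √R := Real.sqrt_pos.2 hR
  have hKD : K ⊆ D := ball_subset_ball (by linarith)
  have hDt : volume D ≠ ⊤ := measure_ball_lt_top.ne
  have hx : ∀ x ∈ K, ∀ z ∈ W, x - z ∈ D := by
    intro x hx z hz
    rw [hKd, mem_ball_zero_iff] at hx
    rw [hWd, mem_ball_zero_iff] at hz
    rw [hDd, mem_ball_zero_iff]
    calc ‖x - z‖ ≤ ‖x‖ + ‖z‖ := norm_sub_le _ _
      _ < R + √R := by linarith
  obtain ⟨T, hT⟩ := cert (r := r) ν hF hi hneg hF0 hk measurableSet_ball hDt hx (sub_pos.2 h4)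
  set v : ℝ := volume.real (ball (0 : E N) 1) with hv
  have hv0 : 0 < v := by
    rw [hv, measureReal_def]
    exact ENNReal.toReal_pos (measure_ball_pos _ _ one_pos).ne' measure_ball_lt_top.ne
  have hvol : ∀ s : ℝ, 0 < s → volume.real (ball (0 : E N) s) = s ^ N * v := by
    intro s hs
    rw [hv, measureReal_def, measureReal_def, Measure.addHaar_ball_of_pos _ _ hs,
      ENNReal.toReal_mul, ENNReal.toReal_ofReal (by positivity), finrank_euclideanSpace,
      Fintype.card_fin]
  have hvK : volume.real K = R ^ N * v := hvol R hR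
  have hvD : volume.real D = (R + √R) ^ N * v := hvol _ (by positivity)
  have hvK0 : 0 < volume.real K := by rw [hvK]; positivity
  refine ⟨K, _, T, isBounded_ball, measurableSet_ball, by rwa [← measureReal_def], hT, ?_⟩
  rw [← measureReal_def]
  refine le_trans ?_ h3.le
  have h5 := quad_le ν hF hi (K := K) (D := D) (W := W) measurableSet_ball measurableSet_ball hDt
    hKD hx
  have hS : 0 < (∫ z, F z) - ∫ z in Wᶜ, |F z| := sub_pos.2 h4
  have h6 : (F 0 / ((∫ z, F z) - ∫ z in Wᶜ, |F z|)) ^ 2 * (∫ x in D, ∫ y in D, F (x - y)) / F 0 ≤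
      (F 0 / ((∫ z, F z) - ∫ z in Wᶜ, |F z|)) ^ 2 * (volume.real K * ((∫ z, F z) +
        ∫ z in Wᶜ, |F z|) + (volume.real D - volume.real K) * ∫ z, |F z|) / F 0 := by
    gcongr
  rw [div_le_iff₀ hvK0]
  refine h6.trans (le_of_eq ?_)
  have h7 : volume.real D = ((R + √R) / R) ^ N * volume.real K := by
    rw [hvK, hvD, div_pow]
    field_simp
  rw [h7]
  field_simp


end

end Pool.Agent.KPT
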