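import Pool.Agent.Lib.KPT.Props

/-!
KPT project, row K7: soundness for Hermite's constant.
-/

namespace Pool.Agent.KPT

open MeasureTheory Filter Topology
open scoped Real
open Pool.Agent.Lib.MP_ef2672_gt_Tauber (gamma inv minSq)

noncomputable section

lemma minSq_nonneg {N : ℕ} (A : Matrix (Fin N) (Fin N) ℝ) : 0 ≤ minSq A :=
  Real.iInf_nonneg fun _ => Finset.sum_nonneg fun _ _ => sq_nonneg _

lemma minSq_le {N : ℕ} (A : Matrix (Fin N) (Fin N) ℝ) {w : Fin N → ℤ} (hw : w ≠ 0) :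
    minSq A ≤ ∑ i, (Matrix.mulVec A (fun j => (w j : ℝ))) i ^ 2 := by
  unfold minSq
  have hb : BddBelow (Set.range fun w : {w : Fin N → ℤ // w ≠ 0} =>
      ∑ i, (Matrix.mulVec A (fun j => (w.1 j : ℝ))) i ^ 2) :=
    ⟨0, by
      rintro _ ⟨w, rfl⟩
      exact Finset.sum_nonneg fun _ _ => sq_nonneg _⟩
  exact ciInf_le hb (⟨w, hw⟩ : {w : Fin N → ℤ // w ≠ 0})

theorem k7 (h5 : K5) (h6 : K6) : K7 := by
  intro N k V r M T hN hk hVb hVm hV hr hT
  have hM0 : 0 ≤ M := by
    have := h5 N k V r M T ∅ hk hT (by simp) (by intro x hx; simp at hx)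
    simpa using this
  have hk0 : 0 ≤ kval N V r M := by
    unfold kval
    positivity
  have hNR : (0 : ℝ) < N := by exact_mod_cast hN
  have : Nonempty {A : Matrix (Fin N) (Fin N) ℝ // A.det ≠ 0} := ⟨⟨1, by simp⟩⟩
  unfold gamma
  refine ciSup_le fun A => ?_
  obtain ⟨A, hA⟩ := A
  change inv A ≤ kval N V r M
  have hm0 := minSq_nonneg A
  rcases hm0.eq_or_lt with hm | hm
  · unfold inv
    rw [← hm, zero_div]
    exact hk0
  set m := minSq A with hmd
  set c : ℝ := r / √m with hc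
  have hsm : 0 < √m := Real.sqrt_pos.mpr hm
  have hc0 : 0 < c := div_pos hr hsm
  have hc2 : c ^ 2 * m = r ^ 2 := by
    rw [hc, div_pow, Real.sq_sqrt hm.le]
    field_simp
  have hdet : (c • A).det = c ^ N * A.det := by
    rw [Matrix.det_smul, Fintype.card_fin]
  have hdet0 : (c • A).det ≠ 0 := by
    rw [hdet]
    exact mul_ne_zero (pow_ne_zero _ hc0.ne') hA
  obtain ⟨t, X, hX, hXv⟩ := h6 N (c • A) V hdet0 hVb hVm
  have hsep : Sep r X := by
    intro x hx y hy hxy
    obtain ⟨-, z, hz⟩ := hX x hx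
    obtain ⟨-, z', hz'⟩ := hX y hy
    have hne : z - z' ≠ 0 := by
      intro h
      apply hxy
      have : z = z' := sub_eq_zero.mp h
      subst this
      ext i
      rw [hz i, hz' i]
    have h1 := minSq_le A hne
    rw [← hmd] at h1
    have h2 : ∀ i, (x - y) i = c * (Matrix.mulVec A (fun j => (((z - z') j : ℤ) : ℝ))) i := by
      intro i
      have e1 : (x - y) i = x i - y i := rfl
      have e2 : (fun j => (((z - z') j : ℤ) : ℝ)) = (fun j => (z j : ℝ)) - fun j => (z' j : ℝ) := by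
        funext j
        simp
      rw [e1, hz i, hz' i, e2, Matrix.mulVec_sub, Matrix.smul_mulVec, Matrix.smul_mulVec]
      simp only [Pi.smul_apply, Pi.sub_apply, smul_eq_mul]
      ring
    have h3 : ‖x - y‖ ^ 2 = c ^ 2 * ∑ i, (Matrix.mulVec A (fun j => (((z - z') j : ℤ) : ℝ))) i ^ 2 := by
      rw [EuclideanSpace.norm_sq_eq, Finset.mul_sum]
      refine Finset.sum_congr rfl fun i _ => ?_
      rw [h2 i, Real.norm_eq_abs, sq_abs, mul_pow]
    have h4 : r ^ 2 ≤ ‖x - y‖ ^ 2 := by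
      rw [h3, ← hc2]
      exact mul_le_mul_of_nonneg_left h1 (sq_nonneg _)
    exact le_of_sq_le_sq h4 (norm_nonneg _)
  have hcard := h5 N k V r M T X hk hT (fun x hx => (hX x hx).1) hsep
  have hdp : 0 < |A.det| := abs_pos.mpr hA
  have habs : |(c • A).det| = c ^ N * |A.det| := by
    rw [hdet, abs_mul, abs_of_pos (pow_pos hc0 N)]
  rw [habs] at hXv
  have hvol : (volume V).toReal ≤ c ^ N * |A.det| * M := by
    refine hXv.trans ?_
    exact mul_le_mul_of_nonneg_left hcard (by positivity)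
  -- conclusion
  have h7 : 1 / (c ^ N * |A.det|) ≤ M / (volume V).toReal := by
    rw [div_le_div_iff₀ (by positivity) hV]
    linarith
  have h8 : (1 / (c ^ N * |A.det|)) ^ ((2 : ℝ) / N) = m / r ^ 2 / |A.det| ^ ((2 : ℝ) / N) := by
    have e1 : (c ^ N) ^ ((2 : ℝ) / N) = c ^ 2 := by
      rw [← Real.rpow_natCast, ← Real.rpow_mul hc0.le]
      have : (N : ℝ) * (2 / N) = (2 : ℕ) := by
        field_simp
        norm_num
      rw [this, Real.rpow_natCast]
    have e2 : c ^ 2 = r ^ 2 / m := by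
      rw [← hc2]
      field_simp
    rw [Real.div_rpow zero_le_one (by positivity), Real.one_rpow,
      Real.mul_rpow (by positivity) (abs_nonneg _), e1, e2]
    field_simp
  unfold inv kval
  rw [← hmd]
  calc m / |A.det| ^ ((2 : ℝ) / N) = r ^ 2 * (m / r ^ 2 / |A.det| ^ ((2 : ℝ) / N)) := by
        field_simp
    _ = r ^ 2 * (1 / (c ^ N * |A.det|)) ^ ((2 : ℝ) / N) := by rw [h8]
    _ ≤ _ := by
        refine mul_le_mul_of_nonneg_left ?_ (sq_nonneg _)
        exact Real.rpow_le_rpow (by positivity) h7 (by positivity)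

end

end Pool.Agent.KPT
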