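import Pool.Agent.Lib.KPT.Props

/-!
KPT project, row K10b: the number of short differences of a grid.
-/

namespace Pool.Agent.KPT

open MeasureTheory Filter Topology
open scoped Real

noncomputable section

theorem abs_coord_le_norm {N : ℕ} (z : E N) (i : Fin N) : |z i| ≤ ‖z‖ := by
  have := EuclideanSpace.norm_eq z
  rw [this]
  apply Real.le_sqrt_of_sq_le
  rw [sq_abs]
  have h1 : ‖z i‖ ^ 2 ≤ ∑ j, ‖z j‖ ^ 2 :=
    Finset.single_le_sum (f := fun j => ‖z j‖ ^ 2) (fun j _ => by positivity) (Finset.mem_univ i)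
  rwa [Real.norm_eq_abs, sq_abs] at h1

theorem k10b : K10b := by
  classical
  intro N h r G hh hr hG
  obtain ⟨t, ht⟩ := hG
  set q : ℤ := ⌈r / h⌉ with hq
  have hq0 : 0 < q := Int.ceil_pos.2 (by positivity)
  set B : Finset (Fin N → ℤ) := Fintype.piFinset fun _ => Finset.Ioo (-q) q with hB
  have hcoord : ∀ z ∈ (diffs G).filter (fun z => ‖z‖ < r), ∃ m : Fin N → ℤ, m ∈ B ∧
      ∀ i, z i = h * m i := by
    intro z hz
    obtain ⟨hz1, hz2⟩ := Finset.mem_filter.1 hz
    obtain ⟨p, hp, rfl⟩ := Finset.mem_image.1 hz1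
    obtain ⟨hp1, hp2⟩ := Finset.mem_product.1 hp
    obtain ⟨m1, hm1⟩ := ht _ hp1
    obtain ⟨m2, hm2⟩ := ht _ hp2
    refine ⟨fun i => m1 i - m2 i, ?_, fun i => ?_⟩
    · rw [hB, Fintype.mem_piFinset]
      intro i
      have h1 : (p.1 - p.2) i = h * (m1 i - m2 i) := by
        rw [PiLp.sub_apply, hm1 i, hm2 i]; ring
      have h2 : |(p.1 - p.2) i| < r := (abs_coord_le_norm _ i).trans_lt hz2
      rw [h1, abs_mul, abs_of_pos hh] at h2
      have h3 : |((m1 i - m2 i : ℤ) : ℝ)| < r / h := by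
        rw [lt_div_iff₀ hh, mul_comm]
        push_cast
        exact h2
      have h4 : |((m1 i - m2 i : ℤ) : ℝ)| < q := h3.trans_le (Int.le_ceil _)
      have h5 : |m1 i - m2 i| < q := by
        rw [← Int.cast_abs] at h4
        exact_mod_cast h4
      rw [Finset.mem_Ioo]
      exact abs_lt.1 h5
    · show (p.1 - p.2) i = _
      rw [PiLp.sub_apply, hm1 i, hm2 i]
      push_cast
      ring
  choose! m hmB hm using hcoord
  have hcard : ((diffs G).filter fun z => ‖z‖ < r).card ≤ B.card := by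
    apply Finset.card_le_card_of_injOn m (fun z hz => hmB z hz)
    intro z hz w hw hzw
    ext i
    rw [hm z hz i, hm w hw i, hzw]
  have hBcard : (B.card : ℝ) = (2 * q - 1 : ℝ) ^ N := by
    rw [hB, Fintype.card_piFinset]
    simp only [Int.card_Ioo, Finset.prod_const, Finset.card_univ, Fintype.card_fin]
    push_cast
    congr 1
    have h1 : 0 ≤ q - -q - 1 := by omega
    have h2 : (((q - -q - 1).toNat : ℤ) : ℝ) = ((q - -q - 1 : ℤ) : ℝ) := by
      rw [Int.toNat_of_nonneg h1]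
    rw [Int.cast_natCast] at h2
    rw [h2]
    push_cast
    ring
  have h6 : (2 * q - 1 : ℝ) ≤ 2 * r / h + 1 := by
    have h7 := (Int.ceil_lt_add_one (r / h)).le
    rw [← hq] at h7
    have h8 : 2 * r / h = 2 * (r / h) := by ring
    rw [h8]
    linarith
  have h9 : (0 : ℝ) ≤ 2 * q - 1 := by
    have : (1 : ℝ) ≤ q := by exact_mod_cast hq0
    linarith
  calc (((diffs G).filter fun z => ‖z‖ < r).card : ℝ) ≤ B.card := by exact_mod_cast hcard
    _ = (2 * q - 1 : ℝ) ^ N := hBcard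
    _ ≤ _ := pow_le_pow_left₀ h9 h6 N

end

end Pool.Agent.KPT
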