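import Pool.Agent.Lib.KPT.Defs
import Pool.Agent.Lib.LPX.Defs
import Pool.Agent.Lib.MP_ef2672_gt_Tauber.Defs

/-!
KPT project: exact statements of the rows.
-/

namespace Pool.Agent.KPT

open MeasureTheory Filter Topology
open scoped Real
open Pool.Agent.Lib.MP_ef2672_gt_Tauber (gamma inv minSq)

noncomputable section

/-- K1: exchange of summation. -/
def K1 : Prop :=
  ∀ (α : Type) (k : ℕ) (T : Finset α → Option α → Option α → ℝ) (ν : Finset α → ℝ) (G : Finset α),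
    ∑ Q ∈ G.powerset.filter (fun Q => Q.card + 2 ≤ k), ∑ p ∈ G.insertNone ×ˢ G.insertNone,
      T Q p.1 p.2 * ν (join Q p) = ∑ I ∈ G.powerset, ν I * B k T I

/-- K1b: `B k T I` vanishes for more than `k` points, and its value on the empty set. -/
def K1b : Prop :=
  ∀ (α : Type) (k : ℕ) (T : Finset α → Option α → Option α → ℝ),
    (∀ I : Finset α, k < I.card → B k T I = 0) ∧ (2 ≤ k → B k T ∅ = T ∅ none none)

/-- K2: the inner product of two nonnegative quadratic forms. -/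
def K2 : Prop :=
  ∀ (β : Type) (S : Finset β) (K N : β → β → ℝ),
    (∀ a : β → ℝ, 0 ≤ ∑ x ∈ S, ∑ y ∈ S, a x * a y * K x y) → (∀ x y, N x y = N y x) →
    (∀ a : β → ℝ, 0 ≤ ∑ x ∈ S, ∑ y ∈ S, a x * a y * N x y) →
      0 ≤ ∑ x ∈ S, ∑ y ∈ S, K x y * N x y

open Classical in
/-- The pseudo-moments: `w ^ |I|` times the product of `s x y ^ 2` over the unordered pairs. -/
def nu {α : Type} (w : ℝ) (s : α → α → ℝ) (I : Finset α) : ℝ :=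
  w ^ I.card * ∏ p ∈ I.offDiag, s p.1 p.2

open Classical in
/-- K3: the pseudo-moments have positive semidefinite conditional matrices. -/
def K3 : Prop :=
  ∀ (α : Type) (G : Finset α) (s : α → α → ℝ) (C w : ℝ) (m : ℕ), 1 ≤ C → 0 < w →
    (∀ x y, s x y = s y x) → (∀ x y, 0 ≤ s x y) → (∀ x y, s x y ^ 2 ≤ C) →
    (∀ ψ : α → ℝ, w * (∑ x ∈ G, ψ x) ^ 2 ≤
      ∑ x ∈ G, ψ x ^ 2 + w * ∑ p ∈ G.offDiag, s p.1 p.2 ^ 2 * (ψ p.1 * ψ p.2)) →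
    ∀ Q : Finset α, Q ⊆ G → Q.card ≤ m → ∀ a : Option α → ℝ,
      0 ≤ ∑ p ∈ G.insertNone, ∑ q ∈ G.insertNone, a p * a q * nu (w / C ^ m) s (join Q (p, q))

open Classical in
/-- K4: weak duality (from K1, K1b, K2, K3). -/
def K4 : Prop :=
  ∀ (N k : ℕ) (V : Set (E N)) (r M : ℝ) (T : Finset (E N) → Option (E N) → Option (E N) → ℝ)
    (G : Finset (E N)) (s : E N → E N → ℝ) (C w : ℝ), 2 ≤ k → Cert k V r M T → (∀ x ∈ G, x ∈ V) →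
    1 ≤ C → 0 < w → (∀ x y, s x y = s y x) → (∀ x y, 0 ≤ s x y) → (∀ x y, s x y ^ 2 ≤ C) →
    (∀ x y, x ≠ y → ‖x - y‖ < r → s x y = 0) →
    (∀ ψ : E N → ℝ, w * (∑ x ∈ G, ψ x) ^ 2 ≤
      ∑ x ∈ G, ψ x ^ 2 + w * ∑ p ∈ G.offDiag, s p.1 p.2 ^ 2 * (ψ p.1 * ψ p.2)) →
    w / C ^ (k - 2) * G.card ≤ M

/-- K5: soundness for packings (from K1, K1b). -/
def K5 : Prop :=
  ∀ (N k : ℕ) (V : Set (E N)) (r M : ℝ) (T : Finset (E N) → Option (E N) → Option (E N) → ℝ)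
    (X : Finset (E N)), 2 ≤ k → Cert k V r M T → (∀ x ∈ X, x ∈ V) → Sep r X → (X.card : ℝ) ≤ M

/-- K6: some translate of the lattice `A ℤᴺ` has at least `vol V / |det A|` points in `V`. -/
def K6 : Prop :=
  ∀ (N : ℕ) (A : Matrix (Fin N) (Fin N) ℝ) (V : Set (E N)), A.det ≠ 0 → Bornology.IsBounded V →
    MeasurableSet V → ∃ (t : E N) (X : Finset (E N)), (∀ x ∈ X, x ∈ V ∧
      ∃ z : Fin N → ℤ, ∀ i, x i = t i + (A.mulVec fun j => (z j : ℝ)) i) ∧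
      (volume V).toReal ≤ |A.det| * X.card

/-- K7: soundness for Hermite's constant (from K5, K6). -/
def K7 : Prop :=
  ∀ (N k : ℕ) (V : Set (E N)) (r M : ℝ) (T : Finset (E N) → Option (E N) → Option (E N) → ℝ),
    0 < N → 2 ≤ k → Bornology.IsBounded V → MeasurableSet V → 0 < (volume V).toReal → 0 < r →
    Cert k V r M T → gamma N ≤ kval N V r M

open Classical in
/-- K8: Gaussian smoothing of a discrete function of positive type. -/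
def K8 : Prop :=
  ∀ (N : ℕ) (R C ρ r τ Θ : ℝ) (G : Finset (E N)) (b : E N → E N → ℝ), RB N R C ρ → 0 ≤ C →
    0 ≤ ρ → 0 < r → r < R → 0 < τ →
    (∀ a : E N → ℝ, 0 ≤ ∑ x ∈ G, ∑ y ∈ G, a x * a y * b x y) →
    (∀ x ∈ G, ∑ y ∈ G, Real.exp (-‖x - y‖ ^ 2 / (2 * τ ^ 2)) ≤ Θ) →
    ρ * (2 * π * τ ^ 2) ^ ((N : ℝ) / 2) * ((∑ x ∈ G, ∑ y ∈ G, b x y) -
        C * ∑ z ∈ (diffs G).filter (fun z => r ≤ ‖z‖), max (fs G b z) 0) -
      ρ * C * ((diffs G).filter fun z => ‖z‖ < r).card *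
        (∫ v in {v : E N | R - r ≤ ‖v‖}, Real.exp (-‖v‖ ^ 2 / (2 * τ ^ 2))) * (∑ x ∈ G, b x x) ≤
      Θ * ∑ x ∈ G, b x x

open Classical in
/-- K9: separation. -/
def K9 : Prop :=
  ∀ (N : ℕ) (C w r : ℝ) (G : Finset (E N)), 0 ≤ C → 0 < w → 0 < r →
    (∀ b : E N → E N → ℝ, (∀ a : E N → ℝ, 0 ≤ ∑ x ∈ G, ∑ y ∈ G, a x * a y * b x y) →
      w * ((∑ x ∈ G, ∑ y ∈ G, b x y) -
        C * ∑ z ∈ (diffs G).filter (fun z => r ≤ ‖z‖), max (fs G b z) 0) ≤ ∑ x ∈ G, b x x) →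
    ∃ g : E N → ℝ, (∀ z, g (-z) = g z) ∧ (∀ z, 0 ≤ g z) ∧ (∀ z, g z ≤ C) ∧
      (∀ z, ‖z‖ < r → g z = 0) ∧
      ∀ ψ : E N → ℝ, w * (∑ x ∈ G, ψ x) ^ 2 ≤
        ∑ x ∈ G, ψ x ^ 2 + w * ∑ p ∈ G.offDiag, g (p.1 - p.2) * (ψ p.1 * ψ p.2)

/-- `G` is a finite part of a translate of the cubic grid of mesh `h`. -/
def Grid {N : ℕ} (h : ℝ) (G : Finset (E N)) : Prop :=
  ∃ t : E N, ∀ x ∈ G, ∃ z : Fin N → ℤ, ∀ i, x i = t i + h * z i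

/-- K10a: Gaussian sums over a grid. -/
def K10a : Prop :=
  ∀ (N : ℕ) (h τ : ℝ) (G : Finset (E N)), 0 < h → 0 < τ → Grid h G → ∀ x ∈ G,
    ∑ y ∈ G, Real.exp (-‖x - y‖ ^ 2 / (2 * τ ^ 2)) ≤ (1 + √(2 * π) * τ / h) ^ N

open Classical in
/-- K10b: the number of short differences. -/
def K10b : Prop :=
  ∀ (N : ℕ) (h r : ℝ) (G : Finset (E N)), 0 < h → 0 < r → Grid h G →
    (((diffs G).filter fun z => ‖z‖ < r).card : ℝ) ≤ (2 * r / h + 1) ^ N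

/-- K10c: the Gaussian tail. -/
def K10c : Prop :=
  ∀ (N : ℕ) (d : ℝ), 0 < d → Tendsto (fun τ : ℝ =>
    (2 * π * τ ^ 2) ^ (-((N : ℝ) / 2)) *
      ∫ v in {v : E N | d ≤ ‖v‖}, Real.exp (-‖v‖ ^ 2 / (2 * τ ^ 2))) (𝓝[>] 0) (𝓝 0)

open Classical in
/-- K11: finite duality (from K8, K9, K10): the pair correlation on fine grids. -/
def K11 : Prop :=
  ∀ (N : ℕ) (R C ρ ρ' r : ℝ), RB N R C ρ → 1 ≤ C → 0 < ρ' → ρ' < ρ → 0 < r → r < R →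
    ∀ᶠ h : ℝ in 𝓝[>] 0, ∀ G : Finset (E N), Grid h G →
      ∃ g : E N → ℝ, (∀ z, g (-z) = g z) ∧ (∀ z, 0 ≤ g z) ∧ (∀ z, g z ≤ C) ∧
        (∀ z, ‖z‖ < r → g z = 0) ∧
        ∀ ψ : E N → ℝ, ρ' * h ^ N * (∑ x ∈ G, ψ x) ^ 2 ≤
          ∑ x ∈ G, ψ x ^ 2 + ρ' * h ^ N * ∑ p ∈ G.offDiag, g (p.1 - p.2) * (ψ p.1 * ψ p.2)

/-- K12: the relaxed barrier, for every dimension. -/
def K12 : Prop :=
  ∀ ε : ℝ, 0 < ε → ε < 1 / π ^ 2 → ∃ δ : ℝ, 0 < δ ∧ ∀ᶠ N : ℕ in atTop, ∀ R : ℝ, 0 < R →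
    RB N R (1 + Real.exp (-(δ * N))) (((1 / π ^ 2 - ε) * N / R ^ 2) ^ ((N : ℝ) / 2))

/-- K13: every k-point certificate obeys the barrier (from K4, K6, K11, K12). -/
def K13 : Prop :=
  ∀ ε : ℝ, 0 < ε → ∃ δ : ℝ, 0 < δ ∧ ∀ᶠ N : ℕ in atTop, ∀ k : ℕ, 2 ≤ k → (k : ℝ) ≤ Real.exp (δ * N) →
    ∀ t : ℝ, IsBound k N t → (1 / π ^ 2 - ε) * N ≤ t

/-- K14: admissible functions give k-point certificates. -/
def K14 : Prop :=
  ∀ (N : ℕ) (F : E N → ℝ) (r : ℝ), 0 < N → LPX.Adm N F r → ∀ k : ℕ, 2 ≤ k → ∀ η : ℝ, 0 < η →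
    ∃ (V : Set (E N)) (M : ℝ) (T : Finset (E N) → Option (E N) → Option (E N) → ℝ),
      Bornology.IsBounded V ∧ MeasurableSet V ∧ 0 < (volume V).toReal ∧ Cert k V r M T ∧
        M / (volume V).toReal ≤ F 0 / (∫ x, F x) + η

end

end Pool.Agent.KPT
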