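import Mathlib
import Pool.Agent.Lib.KPT.Props

/-!
KPT project: Gaussian sums over a grid.
-/

set_option autoImplicit false

namespace Pool.Agent.KPT

open MeasureTheory Finset
open scoped Real

namespace GridSum

/-- a sum over a symmetric interval of integers -/
lemma sum_symm (f : ℤ → ℝ) (J : ℕ) :
    ∑ j ∈ Finset.Icc (-(J : ℤ)) J, f j =
      f 0 + ∑ i ∈ Finset.range J, (f ((i : ℤ) + 1) + f (-((i : ℤ) + 1))) := by
  induction J with
  | zero => simp
  | succ J ih =>
    have h1 : Finset.Icc (-((J + 1 : ℕ) : ℤ)) ((J + 1 : ℕ) : ℤ) =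
        insert (((J : ℤ) + 1)) (insert (-((J : ℤ) + 1)) (Finset.Icc (-(J : ℤ)) J)) := by
      ext j
      simp only [Finset.mem_Icc, Finset.mem_insert]
      push_cast
      omega
    rw [h1, Finset.sum_insert, Finset.sum_insert, ih, Finset.sum_range_succ]
    · ring
    · rw [Finset.mem_Icc]; omega
    · rw [Finset.mem_insert, Finset.mem_Icc]; omega

/-- the Gaussian sum over the integers -/
lemma one_dim (c : ℝ) (hc : 0 < c) (J : ℕ) :
    ∑ j ∈ Finset.Icc (-(J : ℤ)) J, Real.exp (-c * (j : ℝ) ^ 2) ≤ 1 + √(π / c) := by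
  rw [sum_symm (fun j => Real.exp (-c * (j : ℝ) ^ 2)) J]
  have h1 : ∀ i ∈ Finset.range J, (Real.exp (-c * ((((i : ℤ) + 1 : ℤ)) : ℝ) ^ 2) +
      Real.exp (-c * (((-((i : ℤ) + 1) : ℤ)) : ℝ) ^ 2)) =
      2 * Real.exp (-c * ((0 : ℝ) + ((i + 1 : ℕ) : ℝ)) ^ 2) := by
    intro i _
    push_cast
    rw [neg_sq, zero_add]
    ring
  rw [Finset.sum_congr rfl h1, ← Finset.mul_sum]
  have hanti : AntitoneOn (fun x : ℝ => Real.exp (-c * x ^ 2)) (Set.Icc (0 : ℝ) (0 + (J : ℝ))) := by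
    intro x hx y hy hxy
    apply Real.exp_le_exp.2
    have : x ^ 2 ≤ y ^ 2 := pow_le_pow_left₀ hx.1 hxy 2
    nlinarith
  have h2 := hanti.sum_le_integral
  have h3 : ∫ x in (0 : ℝ)..(0 + (J : ℝ)), Real.exp (-c * x ^ 2) ≤ √(π / c) / 2 := by
    rw [zero_add, intervalIntegral.integral_of_le (Nat.cast_nonneg J), ← integral_gaussian_Ioi c]
    apply setIntegral_mono_set ((integrable_exp_neg_mul_sq hc).integrableOn)
    · exact Filter.Eventually.of_forall fun x => (Real.exp_pos _).le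
    · exact Filter.Eventually.of_forall fun x hx => hx.1
  have h4 : ((0 : ℤ) : ℝ) = 0 := Int.cast_zero
  simp only [h4]
  rw [show -c * (0 : ℝ) ^ 2 = 0 by ring, Real.exp_zero]
  linarith

end GridSum

/-- K10a. -/
theorem k10a : K10a := by
  intro N h τ G hh hτ hG x hx
  classical
  obtain ⟨t, ht⟩ := hG
  have hz : ∀ y : E N, ∃ z : Fin N → ℤ, y ∈ G → ∀ i, y i = t i + h * z i := by
    intro y
    by_cases hy : y ∈ G
    · obtain ⟨z, hz⟩ := ht y hy
      exact ⟨z, fun _ => hz⟩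
    · exact ⟨0, fun h => absurd h hy⟩
  choose z hz using hz
  set φ : E N → Fin N → ℤ := fun y i => z x i - z y i with hφ
  set c : ℝ := h ^ 2 / (2 * τ ^ 2) with hc
  have hc0 : 0 < c := by positivity
  set J : ℕ := ∑ y ∈ G, ∑ i, (φ y i).natAbs with hJ
  have hJle : ∀ y ∈ G, ∀ i, (φ y i).natAbs ≤ J := by
    intro y hy i
    calc (φ y i).natAbs ≤ ∑ i, (φ y i).natAbs :=
          Finset.single_le_sum (f := fun i => (φ y i).natAbs) (fun _ _ => Nat.zero_le _)
            (Finset.mem_univ i)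
      _ ≤ J := Finset.single_le_sum (f := fun y => ∑ i, (φ y i).natAbs)
            (fun _ _ => Nat.zero_le _) hy
  set f : ℤ → ℝ := fun j => Real.exp (-c * (j : ℝ) ^ 2) with hf
  have hterm : ∀ y ∈ G, Real.exp (-‖x - y‖ ^ 2 / (2 * τ ^ 2)) = ∏ i, f (φ y i) := by
    intro y hy
    rw [hf, ← Real.exp_sum]
    congr 1
    rw [EuclideanSpace.norm_sq_eq, ← Finset.mul_sum]
    have h1 : ∀ i, ‖(x - y) i‖ ^ 2 = h ^ 2 * ((φ y i : ℤ) : ℝ) ^ 2 := by
      intro i
      rw [Real.norm_eq_abs, sq_abs]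
      have e1 : (x - y) i = h * ((φ y i : ℤ) : ℝ) := by
        change x i - y i = _
        rw [hz x hx i, hz y hy i, hφ]
        push_cast
        ring
      rw [e1]
      ring
    rw [Finset.sum_congr rfl fun i _ => h1 i, ← Finset.mul_sum, hc]
    ring
  rw [Finset.sum_congr rfl hterm]
  have hinj : Set.InjOn φ (G : Set (E N)) := by
    intro y hy y' hy' hyy
    ext i
    have h1 := congrFun hyy i
    simp only [hφ] at h1
    have h2 : z y i = z y' i := by omega
    rw [hz y hy i, hz y' hy' i, h2]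
  have h1 : ∑ y ∈ G, ∏ i, f (φ y i) = ∑ m ∈ G.image φ, ∏ i, f (m i) :=
    (Finset.sum_image (f := fun m : Fin N → ℤ => ∏ i, f (m i)) hinj).symm
  rw [h1]
  have hsub : G.image φ ⊆ Fintype.piFinset fun _ : Fin N => Finset.Icc (-(J : ℤ)) J := by
    intro m hm
    obtain ⟨y, hy, rfl⟩ := Finset.mem_image.1 hm
    rw [Fintype.mem_piFinset]
    intro i
    have := hJle y hy i
    rw [Finset.mem_Icc]
    omega
  calc ∑ m ∈ G.image φ, ∏ i, f (m i)
      ≤ ∑ m ∈ Fintype.piFinset fun _ : Fin N => Finset.Icc (-(J : ℤ)) J, ∏ i, f (m i) :=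
        Finset.sum_le_sum_of_subset_of_nonneg hsub fun m _ _ =>
          Finset.prod_nonneg fun i _ => (Real.exp_pos _).le
    _ = ∏ _i : Fin N, ∑ j ∈ Finset.Icc (-(J : ℤ)) J, f j :=
        (Finset.prod_univ_sum (fun _ : Fin N => Finset.Icc (-(J : ℤ)) J) fun _ j => f j).symm
    _ = (∑ j ∈ Finset.Icc (-(J : ℤ)) J, f j) ^ N := by
        rw [Finset.prod_const, Finset.card_univ, Fintype.card_fin]
    _ ≤ (1 + √(2 * π) * τ / h) ^ N := by
        apply pow_le_pow_left₀ (Finset.sum_nonneg fun j _ => (Real.exp_pos _).le)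
        refine (GridSum.one_dim c hc0 J).trans (le_of_eq ?_)
        congr 1
        have e1 : π / c = (2 * π) * (τ / h) ^ 2 := by
          rw [hc]; field_simp
        rw [e1, Real.sqrt_mul (by positivity), Real.sqrt_sq (by positivity)]
        ring

end Pool.Agent.KPT
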