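import Pool.Agent.Lib.KPT.Props

/-!
KPT project, row K3: the Kirkwood product has positive semidefinite conditional matrices.
-/

set_option autoImplicit false

namespace Pool.Agent.KPT

open Classical in
theorem nu_insert {α : Type} (w : ℝ) (s : α → α → ℝ) (hs : ∀ x y, s x y = s y x) (I : Finset α)
    (x : α) (hx : x ∉ I) : nu w s (insert x I) = nu w s I * (w * ∏ y ∈ I, s x y ^ 2) := by
  unfold nu
  rw [Finset.card_insert_of_notMem hx, Finset.offDiag_insert hx]
  have d1 : Disjoint (I.offDiag ∪ {x} ×ˢ I) (I ×ˢ {x}) := by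
    rw [Finset.disjoint_left]
    rintro ⟨p, q⟩ h1 h2
    rw [Finset.mem_product, Finset.mem_singleton] at h2
    rw [Finset.mem_union, Finset.mem_offDiag, Finset.mem_product, Finset.mem_singleton] at h1
    obtain ⟨h2a, h2b⟩ := h2
    simp only at h1 h2a h2b
    subst h2b
    rcases h1 with ⟨-, h, -⟩ | ⟨-, h⟩
    · exact hx h
    · exact hx h
  have d2 : Disjoint I.offDiag ({x} ×ˢ I) := by
    rw [Finset.disjoint_left]
    rintro ⟨p, q⟩ h1 h2
    rw [Finset.mem_product, Finset.mem_singleton] at h2
    rw [Finset.mem_offDiag] at h1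
    obtain ⟨h2a, h2b⟩ := h2
    simp only at h1 h2a h2b
    subst h2a
    exact hx h1.1
  rw [Finset.prod_union d1, Finset.prod_union d2, Finset.prod_product, Finset.prod_product,
    Finset.prod_singleton]
  simp only [Finset.prod_singleton]
  have e : ∏ y ∈ I, s y x = ∏ y ∈ I, s x y := Finset.prod_congr rfl fun y _ => hs _ _
  rw [e, Finset.prod_pow]
  ring

theorem nu_nonneg {α : Type} (w : ℝ) (hw : 0 ≤ w) (s : α → α → ℝ) (h0 : ∀ x y, 0 ≤ s x y)
    (I : Finset α) : 0 ≤ nu w s I :=
  mul_nonneg (pow_nonneg hw _) (Finset.prod_nonneg fun _ _ => h0 _ _)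

open Classical in
theorem k3 : K3 := by
  intro α G s C w m hC hw hs h0 hsC hψ Q hQG hQm a
  set w' := w / C ^ m with hw'
  have hCm : (1:ℝ) ≤ C ^ m := one_le_pow₀ hC
  have hCm0 : (0:ℝ) < C ^ m := lt_of_lt_of_le one_pos hCm
  have hw'0 : 0 < w' := div_pos hw hCm0
  set A := nu w' s Q with hA
  have hA0 : 0 ≤ A := nu_nonneg w' hw'0.le s h0 Q
  -- the weights
  let φ : α → ℝ := fun x => w' * ∏ y ∈ Q, s x y ^ 2
  have hφ0 : ∀ x, 0 ≤ φ x := fun x =>
    mul_nonneg hw'0.le (Finset.prod_nonneg fun _ _ => sq_nonneg _)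
  have hφw : ∀ x, φ x ≤ w := fun x => by
    have h1 : ∏ y ∈ Q, s x y ^ 2 ≤ C ^ m := by
      calc ∏ y ∈ Q, s x y ^ 2 ≤ ∏ _y ∈ Q, C :=
            Finset.prod_le_prod (fun _ _ => sq_nonneg _) fun y _ => hsC x y
        _ = C ^ Q.card := Finset.prod_const _
        _ ≤ C ^ m := pow_le_pow_right₀ hC hQm
    calc w' * ∏ y ∈ Q, s x y ^ 2 ≤ w' * C ^ m := mul_le_mul_of_nonneg_left h1 hw'0.le
      _ = w := by rw [hw']; field_simp
  let τ : Option α → ℝ := fun p => p.elim 1 fun x => if x ∈ Q then 1 else φ x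
  -- values of nu
  have n0 : ∀ q : Option α, nu w' s (Q ∪ q.toFinset) = A * τ q := by
    intro q
    rcases q with _ | x
    · simp [τ, hA]
    · by_cases hx : x ∈ Q
      · have : Q ∪ (some x).toFinset = Q := by
          rw [Option.toFinset_some, Finset.union_eq_left, Finset.singleton_subset_iff]
          exact hx
        rw [this]
        simp [τ, hx, hA]
      · have : Q ∪ (some x).toFinset = insert x Q := by
          rw [Option.toFinset_some, Finset.union_comm, Finset.insert_eq]
        rw [this, nu_insert w' s hs Q x hx]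
        simp [τ, hx, hA, φ]
  have j1 : ∀ q : Option α, join Q (none, q) = Q ∪ q.toFinset := fun q => by
    simp [join]
  have j2 : ∀ q : Option α, join Q (q, none) = Q ∪ q.toFinset := fun q => by
    simp [join]
  have j3 : ∀ x ∈ Q, ∀ q : Option α, join Q (some x, q) = Q ∪ q.toFinset := fun x hx q => by
    have : Q ∪ (some x).toFinset = Q := by
      rw [Option.toFinset_some, Finset.union_eq_left, Finset.singleton_subset_iff]
      exact hx
    simp only [join, this]
  have j4 : ∀ x ∈ Q, ∀ q : Option α, join Q (q, some x) = Q ∪ q.toFinset := fun x hx q => by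
    have : Q ∪ q.toFinset ∪ (some x).toFinset = Q ∪ q.toFinset := by
      rw [Option.toFinset_some, Finset.union_eq_left, Finset.singleton_subset_iff]
      exact Finset.mem_union_left _ hx
    simp only [join, this]
  -- the difference with a square
  let ψ : α → ℝ := fun x => if x ∈ Q then 0 else a (some x) * φ x
  let e : α → ℝ := fun x => if x ∈ Q then 0 else a (some x) ^ 2 * φ x
  let κ : α → α → ℝ := fun x y => if x = y then e x - ψ x ^ 2 else
    s x y ^ 2 * (ψ x * ψ y) - ψ x * ψ y
  have D0 : ∀ q : Option α, a none * a q * nu w' s (join Q (none, q)) =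
      A * (a none * τ none * (a q * τ q)) := fun q => by
    rw [j1, n0]
    simp [τ]
    ring
  have D1 : ∀ x : α, a (some x) * a none * nu w' s (join Q (some x, none)) =
      A * (a (some x) * τ (some x) * (a none * τ none)) := fun x => by
    rw [j2, n0]
    simp [τ]
    ring_nf
  have D2 : ∀ x y : α, a (some x) * a (some y) * nu w' s (join Q (some x, some y)) =
      A * (a (some x) * τ (some x) * (a (some y) * τ (some y)) + κ x y) := fun x y => by
    by_cases hx : x ∈ Q
    · rw [j3 x hx, n0]
      have h1 : τ (some x) = 1 := by simp [τ, hx]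
      have h2 : κ x y = 0 := by
        simp only [κ]
        split_ifs with h
        · simp [e, ψ, hx]
        · simp [ψ, hx]
      rw [h1, h2]
      ring
    by_cases hy : y ∈ Q
    · rw [j4 y hy, n0]
      have h1 : τ (some y) = 1 := by simp [τ, hy]
      have h2 : κ x y = 0 := by
        simp only [κ]
        split_ifs with h
        · subst h
          exact absurd hy hx
        · simp [ψ, hy]
      rw [h1, h2]
      ring
    have hτx : τ (some x) = φ x := by simp [τ, hx]
    have hτy : τ (some y) = φ y := by simp [τ, hy]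
    have hψx : ψ x = a (some x) * φ x := by simp [ψ, hx]
    have hψy : ψ y = a (some y) * φ y := by simp [ψ, hy]
    by_cases hxy : x = y
    · subst hxy
      have : join Q (some x, some x) = Q ∪ (some x).toFinset := by
        simp only [join, Finset.union_assoc, Finset.union_self]
      rw [this, n0, hτx]
      simp only [κ, if_true]
      have he : e x = a (some x) ^ 2 * φ x := by simp [e, hx]
      rw [he, hψx]
      ring
    · have h1 : join Q (some x, some y) = insert x (insert y Q) := by
        ext z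
        simp only [join, Option.toFinset_some, Finset.mem_union, Finset.mem_singleton,
          Finset.mem_insert]
        tauto
      have hx' : x ∉ insert y Q := by
        rw [Finset.mem_insert]
        tauto
      rw [h1, nu_insert w' s hs _ x hx', nu_insert w' s hs _ y hy, Finset.prod_insert hy, hτx, hτy]
      simp only [κ, if_neg hxy]
      rw [hψx, hψy]
      simp only [φ]
      rw [← hA]
      ring
  -- the sum
  have total : ∑ p ∈ G.insertNone, ∑ q ∈ G.insertNone, a p * a q * nu w' s (join Q (p, q)) =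
      A * ((∑ p ∈ G.insertNone, a p * τ p) ^ 2 + ∑ x ∈ G, ∑ y ∈ G, κ x y) := by
    rw [pow_two, Finset.sum_mul_sum, Finset.sum_insertNone, Finset.sum_insertNone (s := G)
      (f := fun p => ∑ q ∈ G.insertNone, a p * τ p * (a q * τ q))]
    have t1 : ∑ q ∈ G.insertNone, a none * a q * nu w' s (join Q (none, q)) =
        A * ∑ q ∈ G.insertNone, a none * τ none * (a q * τ q) := by
      rw [Finset.mul_sum]
      exact Finset.sum_congr rfl fun q _ => D0 q
    have t2 : ∀ x ∈ G, ∑ q ∈ G.insertNone, a (some x) * a q * nu w' s (join Q (some x, q)) =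
        A * (∑ q ∈ G.insertNone, a (some x) * τ (some x) * (a q * τ q) + ∑ y ∈ G, κ x y) := by
      intro x _
      rw [Finset.sum_insertNone, Finset.sum_insertNone, D1]
      rw [mul_add, mul_add, add_assoc]
      congr 1
      rw [← mul_add, ← Finset.sum_add_distrib, Finset.mul_sum]
      exact Finset.sum_congr rfl fun y _ => D2 x y
    have t3 : ∑ x ∈ G, A * (∑ q ∈ G.insertNone, a (some x) * τ (some x) * (a q * τ q) +
        ∑ y ∈ G, κ x y) = A * (∑ x ∈ G, ∑ q ∈ G.insertNone, a (some x) * τ (some x) * (a q * τ q) +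
        ∑ x ∈ G, ∑ y ∈ G, κ x y) := by
      rw [← Finset.mul_sum, Finset.sum_add_distrib]
    rw [t1, Finset.sum_congr rfl t2, t3]
    ring
  have off : ∀ f : α → α → ℝ, ∑ x ∈ G, ∑ y ∈ G, f x y =
      ∑ x ∈ G, f x x + ∑ p ∈ G.offDiag, f p.1 p.2 := by
    intro f
    rw [← Finset.sum_product' G G f, ← Finset.diag_union_offDiag,
      Finset.sum_union (Finset.disjoint_diag_offDiag _), Finset.sum_diag]
  have ksum : ∑ x ∈ G, ∑ y ∈ G, κ x y =
      ∑ x ∈ G, e x + ∑ p ∈ G.offDiag, s p.1 p.2 ^ 2 * (ψ p.1 * ψ p.2) - (∑ x ∈ G, ψ x) ^ 2 := by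
    rw [off κ, pow_two, Finset.sum_mul_sum, off (fun x y => ψ x * ψ y)]
    have u1 : ∑ x ∈ G, κ x x = ∑ x ∈ G, e x - ∑ x ∈ G, ψ x * ψ x := by
      rw [← Finset.sum_sub_distrib]
      refine Finset.sum_congr rfl fun x _ => ?_
      simp only [κ, if_true]
      ring
    have u2 : ∑ p ∈ G.offDiag, κ p.1 p.2 =
        ∑ p ∈ G.offDiag, s p.1 p.2 ^ 2 * (ψ p.1 * ψ p.2) - ∑ p ∈ G.offDiag, ψ p.1 * ψ p.2 := by
      rw [← Finset.sum_sub_distrib]
      refine Finset.sum_congr rfl fun p hp => ?_
      rw [Finset.mem_offDiag] at hp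
      simp only [κ, if_neg hp.2.2]
    rw [u1, u2]
    ring
  have hmain : 0 ≤ ∑ x ∈ G, ∑ y ∈ G, κ x y := by
    rw [ksum]
    have h1 := hψ ψ
    have h2 : ∑ x ∈ G, ψ x ^ 2 ≤ w * ∑ x ∈ G, e x := by
      rw [Finset.mul_sum]
      refine Finset.sum_le_sum fun x _ => ?_
      by_cases hx : x ∈ Q
      · simp [ψ, e, hx]
      · have hψx : ψ x = a (some x) * φ x := by simp [ψ, hx]
        have he : e x = a (some x) ^ 2 * φ x := by simp [e, hx]
        rw [hψx, he]
        have := mul_nonneg (mul_nonneg (sq_nonneg (a (some x))) (hφ0 x))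
          (sub_nonneg.2 (hφw x))
        nlinarith [this]
    have h3 : w * (∑ x ∈ G, ψ x) ^ 2 ≤
        w * (∑ x ∈ G, e x + ∑ p ∈ G.offDiag, s p.1 p.2 ^ 2 * (ψ p.1 * ψ p.2)) := by
      rw [mul_add]
      linarith
    have h4 := le_of_mul_le_mul_left h3 hw
    linarith
  rw [total]
  exact mul_nonneg hA0 (add_nonneg (sq_nonneg _) hmain)

end Pool.Agent.KPT
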