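import Pool.Agent.Lib.KPT.Props

/-!
KPT project, K11: the pair correlation on fine grids.
-/

namespace Pool.Agent.KPT

open MeasureTheory Filter Topology
open scoped Real

theorem diag_nonneg {β : Type*} {G : Finset β} {b : β → β → ℝ}
    (hb : ∀ a : β → ℝ, 0 ≤ ∑ x ∈ G, ∑ y ∈ G, a x * a y * b x y) {x : β} (hx : x ∈ G) :
    0 ≤ b x x := by
  classical
  have h := hb (fun y => if y = x then 1 else 0)
  have h2 : ∑ u ∈ G, ∑ v ∈ G, (if u = x then (1 : ℝ) else 0) * (if v = x then 1 else 0) * b u v =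
      b x x := by
    rw [Finset.sum_eq_single x, Finset.sum_eq_single x]
    · simp
    · intro v _ hv
      simp [hv]
    · exact fun h => absurd hx h
    · intro u _ hu
      simp [hu]
    · exact fun h => absurd hx h
  rwa [h2] at h

theorem k11 (h8 : K8) (h9 : K9) (ha : K10a) (hb : K10b) (hc : K10c) : K11 := by
  classical
  intro N R C ρ ρ' r hRB hC hρ' hρ'ρ hr hrR
  have hρ : 0 < ρ := hρ'.trans hρ'ρ
  have hC0 : 0 < C := by linarith
  have hq1 : ρ' / ρ < 1 := (div_lt_one hρ).2 hρ'ρ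
  set tl : ℝ → ℝ := fun τ => (2 * π * τ ^ 2) ^ (-((N : ℝ) / 2)) *
      ∫ v in {v : E N | R - r ≤ ‖v‖}, Real.exp (-‖v‖ ^ 2 / (2 * τ ^ 2)) with htl
  have ht := hc N (R - r) (by linarith)
  have ht2 : Tendsto (fun τ => ρ' * C * (2 * r + 1) ^ N * tl τ) (𝓝[>] 0) (𝓝 0) := by
    have := ht.const_mul (ρ' * C * (2 * r + 1) ^ N)
    rwa [mul_zero] at this
  obtain ⟨τ, hτ1, hτ0⟩ := ((ht2.eventually_lt_const (show (0 : ℝ) < (1 - ρ' / ρ) / 2 by
    linarith)).and self_mem_nhdsWithin).exists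
  have hτ : 0 < τ := hτ0
  set c : ℝ := √(2 * π) * τ with hcdef
  have hc0 : 0 < c := by
    have := Real.pi_pos
    positivity
  have hP : (2 * π * τ ^ 2) ^ ((N : ℝ) / 2) = c ^ N := by
    have h1 : 2 * π * τ ^ 2 = c ^ 2 := by
      rw [hcdef, mul_pow, Real.sq_sqrt (by positivity)]
    rw [h1, ← Real.rpow_natCast c 2, ← Real.rpow_mul hc0.le, ← Real.rpow_natCast c N]
    congr 1
    push_cast
    ring
  have hlim : Tendsto (fun h : ℝ => ρ' / ρ * ((h + c) / c) ^ N) (𝓝[>] 0)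
      (𝓝 (ρ' / ρ * ((0 + c) / c) ^ N)) := by
    refine Tendsto.mono_left ?_ nhdsWithin_le_nhds
    exact (by fun_prop : Continuous fun h : ℝ => ρ' / ρ * ((h + c) / c) ^ N).tendsto 0
  rw [zero_add, div_self hc0.ne', one_pow, mul_one] at hlim
  filter_upwards [hlim.eventually_lt_const (show ρ' / ρ < (1 + ρ' / ρ) / 2 by linarith),
    self_mem_nhdsWithin, nhdsWithin_le_nhds (Iio_mem_nhds (show (0 : ℝ) < 1 by norm_num))]
    with h hh1 hh0 hh2 G hG
  have hh : 0 < h := hh0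
  have hh3 : h < 1 := hh2
  refine h9 N C (ρ' * h ^ N) r G hC0.le (by positivity) hr ?_
  intro b hbn
  set X : ℝ := (∑ x ∈ G, ∑ y ∈ G, b x y) -
        C * ∑ z ∈ (diffs G).filter (fun z => r ≤ ‖z‖), max (fs G b z) 0 with hX
  set tr : ℝ := ∑ x ∈ G, b x x with htr
  have htr0 : 0 ≤ tr := Finset.sum_nonneg fun x hx => diag_nonneg hbn hx
  have h1 := h8 N R C ρ r τ ((1 + √(2 * π) * τ / h) ^ N) G b hRB hC0.le hρ.le hr hrR hτ hbn
    (fun x hx => ha N h τ G hh hτ hG x hx)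
  rw [← hX, ← htr, hP] at h1
  set n : ℝ := (((diffs G).filter fun z => ‖z‖ < r).card : ℝ) with hn
  set I : ℝ := ∫ v in {v : E N | R - r ≤ ‖v‖}, Real.exp (-‖v‖ ^ 2 / (2 * τ ^ 2)) with hI
  have hI0 : 0 ≤ I := integral_nonneg fun _ => (Real.exp_pos _).le
  have hnle : n ≤ (2 * r / h + 1) ^ N := hb N h r G hh hr hG
  have hn0 : 0 ≤ n := Nat.cast_nonneg _
  have e1 : h ^ N * (1 + √(2 * π) * τ / h) ^ N = (h + c) ^ N := by
    rw [← mul_pow]
    congr 1
    rw [hcdef]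
    field_simp
  have e2 : h ^ N * n ≤ (2 * r + 1) ^ N := by
    calc h ^ N * n ≤ h ^ N * (2 * r / h + 1) ^ N := by gcongr
      _ = (2 * r + h) ^ N := by
          rw [← mul_pow]
          congr 1
          field_simp
      _ ≤ (2 * r + 1) ^ N := by gcongr
  have e3 : tl τ = I / c ^ N := by
    simp only [htl]
    rw [Real.rpow_neg (by positivity), hP, ← hI]
    field_simp
  rw [e3] at hτ1
  -- combine
  have hcN : 0 < c ^ N := by positivity
  have h2 : ρ * (c ^ N * X) ≤ (h ^ N)⁻¹ * (tr * ((h + c) ^ N + ρ * C * (h ^ N * n) * I)) := by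
    have h3 : (h ^ N)⁻¹ * (tr * ((h + c) ^ N + ρ * C * (h ^ N * n) * I)) =
        (1 + √(2 * π) * τ / h) ^ N * tr + ρ * C * n * I * tr := by
      rw [← e1]
      have : h ^ N ≠ 0 := by positivity
      field_simp
    rw [h3]
    linarith
  have h4 : ρ' * h ^ N * X ≤ tr * (ρ' / ρ * ((h + c) / c) ^ N + ρ' * C * (h ^ N * n) * (I / c ^ N)) := by
    have h5 : ρ' * h ^ N * X = ρ' * h ^ N / (ρ * c ^ N) * (ρ * (c ^ N * X)) := by
      field_simp
    rw [h5]
    refine (mul_le_mul_of_nonneg_left h2 (by positivity)).trans (le_of_eq ?_)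
    rw [div_pow]
    have : h ^ N ≠ 0 := by positivity
    field_simp
  refine h4.trans ?_
  have h6 : ρ' * C * (h ^ N * n) * (I / c ^ N) ≤ ρ' * C * (2 * r + 1) ^ N * (I / c ^ N) := by
    have : 0 ≤ I / c ^ N := by positivity
    gcongr
  have h7 : ρ' / ρ * ((h + c) / c) ^ N + ρ' * C * (h ^ N * n) * (I / c ^ N) ≤ 1 := by linarith
  calc tr * (ρ' / ρ * ((h + c) / c) ^ N + ρ' * C * (h ^ N * n) * (I / c ^ N)) ≤ tr * 1 :=
        mul_le_mul_of_nonneg_left h7 htr0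
    _ = tr := mul_one _

end Pool.Agent.KPT
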