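import Pool.Agent.Lib.KPT.Props
import Pool.Agent.Lib.LPX.Robust

/-!
KPT project, row K12: the relaxed barrier, for every dimension.
-/

set_option autoImplicit false

namespace Pool.Agent.KPT

open MeasureTheory Filter Topology
open scoped Real
open Pool.Agent.LPX

theorem X_lower_part {δ : ℝ} (hδ : 0 < δ) : ∀ᶠ N : ℕ in atTop, ∀ X : ℝ, 0 < X →
    (π / 10 * Real.exp ((1 / Real.sin (π / (2 * (2 * (N / 4) : ℕ))) - 1) * δ -
      (2 * (N / 4) : ℕ) * δ ^ 2 - δ ^ 2 / 4 * N) ≤ X * Real.exp (δ * X)) → (1 / π - δ) * N ≤ X := by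
  set K : ℝ := 10 / π * Real.exp (δ * (3 / π + 1)) with hK
  have hp := Real.pi_pos
  have hK0 : 0 < K := by positivity
  have hev : ∀ᶠ N : ℕ in atTop, 2 * K / (δ ^ 2 / 4) ^ 2 < N := by
    exact (tendsto_natCast_atTop_atTop (R := ℝ)).eventually_gt_atTop _
  filter_upwards [hev, eventually_ge_atTop 4] with N hN hN4 X hX h
  by_contra hcon
  rw [not_le] at hcon
  set m : ℕ := 2 * (N / 4) with hm
  have hNpos : (0 : ℝ) < N := by
    have : 0 < N := by omega
    exact_mod_cast this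
  have hm1 : 1 ≤ m := by omega
  have hmle : (m : ℝ) ≤ N / 2 := by
    have : 2 * m ≤ N := by omega
    have h2 : (2 : ℝ) * m ≤ N := by exact_mod_cast this
    linarith
  have hmge : ((N : ℝ) - 3) / 2 ≤ m := by
    have : N ≤ 2 * m + 3 := by omega
    have h2 : (N : ℝ) ≤ 2 * m + 3 := by exact_mod_cast this
    linarith
  have hS := one_div_sin_ge hm1
  set S := 1 / Real.sin (π / (2 * (m : ℝ))) with hSdef
  have hS2 : ((N : ℝ) - 3) / π ≤ S := by
    refine le_trans ?_ hS
    rw [div_le_div_iff_of_pos_right hp]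
    linarith
  have h1 : δ * (((N : ℝ) - 3) / π - 1) - N / 2 * δ ^ 2 - δ ^ 2 / 4 * N ≤
      (S - 1) * δ - m * δ ^ 2 - δ ^ 2 / 4 * N := by
    have := mul_le_mul_of_nonneg_right hmle (sq_nonneg δ)
    nlinarith [mul_le_mul_of_nonneg_left hS2 hδ.le]
  have hXN : X ≤ N := by
    refine hcon.le.trans ?_
    have : 1 / π ≤ 1 := by
      rw [div_le_one hp]
      linarith [Real.pi_gt_three]
    nlinarith
  have h2 : X * Real.exp (δ * X) ≤ N * Real.exp (δ * ((1 / π - δ) * N)) := by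
    refine mul_le_mul hXN ?_ (Real.exp_pos _).le hNpos.le
    exact Real.exp_le_exp.2 (mul_le_mul_of_nonneg_left hcon.le hδ.le)
  have h3 : π / 10 * Real.exp (δ * (((N : ℝ) - 3) / π - 1) - N / 2 * δ ^ 2 - δ ^ 2 / 4 * N) ≤
      N * Real.exp (δ * ((1 / π - δ) * N)) := by
    refine le_trans ?_ (h.trans h2)
    refine mul_le_mul_of_nonneg_left (Real.exp_le_exp.2 h1) (by positivity)
  have h4 : Real.exp (δ * (((N : ℝ) - 3) / π - 1) - N / 2 * δ ^ 2 - δ ^ 2 / 4 * N) =
      Real.exp (δ ^ 2 / 4 * N) * Real.exp (δ * ((1 / π - δ) * N)) /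
        Real.exp (δ * (3 / π + 1)) := by
    rw [← Real.exp_add, ← Real.exp_sub]
    congr 1
    field_simp
    ring
  rw [h4] at h3
  have h5 : Real.exp (δ ^ 2 / 4 * N) ≤ K * N := by
    have h6 : π / 10 * (Real.exp (δ ^ 2 / 4 * N) / Real.exp (δ * (3 / π + 1))) *
        Real.exp (δ * ((1 / π - δ) * N)) ≤ N * Real.exp (δ * ((1 / π - δ) * N)) := by
      refine le_trans (le_of_eq ?_) h3
      ring
    have h7 := le_of_mul_le_mul_right h6 (Real.exp_pos _)
    rw [hK]
    have h8 : Real.exp (δ ^ 2 / 4 * N) = 10 / π * Real.exp (δ * (3 / π + 1)) *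
        (π / 10 * (Real.exp (δ ^ 2 / 4 * N) / Real.exp (δ * (3 / π + 1)))) := by
      have := (Real.exp_pos (δ * (3 / π + 1))).ne'
      field_simp
    rw [h8]
    exact mul_le_mul_of_nonneg_left h7 (by positivity)
  have h9 : (δ ^ 2 / 4 * N) ^ 2 / 2 ≤ Real.exp (δ ^ 2 / 4 * N) := by
    have := Real.quadratic_le_exp_of_nonneg (x := δ ^ 2 / 4 * N) (by positivity)
    have h10 : 0 ≤ δ ^ 2 / 4 * N := by positivity
    linarith
  have h11 : 2 * K < N * (δ ^ 2 / 4) ^ 2 := by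
    rwa [div_lt_iff₀ (by positivity)] at hN
  nlinarith


theorem k12 : K12 := by
  intro ε hε hε1
  have hp := Real.pi_pos
  set d : ℝ := π * ε with hd
  have hd0 : 0 < d := by positivity
  refine ⟨d ^ 2 / 4, by positivity, ?_⟩
  filter_upwards [X_lower_part hd0, eventually_ge_atTop 4] with N hN h4 R hR F ν hν hFi hF
  have hN0 : (0 : ℝ) < N := by
    have : 0 < N := by omega
    exact_mod_cast this
  set q : ℝ := Real.exp (-(d ^ 2 / 4 * N)) with hq
  have hq0 : 0 < q := Real.exp_pos _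
  have hq1 : q ≤ 1 := by
    rw [hq, Real.exp_le_one_iff]
    have : 0 ≤ d ^ 2 / 4 * N := by positivity
    linarith
  set P : ℝ := ∫ x in {x : E N | R ≤ ‖x‖}, max (F x) 0 with hP
  have hP0 : 0 ≤ P := integral_nonneg fun x => le_max_right _ _
  have hF0 : 0 ≤ F 0 := by
    rw [hF 0]
    simp
  have hA : 0 < 1 / π ^ 2 - ε := by linarith
  set ρ : ℝ := ((1 / π ^ 2 - ε) * N / R ^ 2) ^ ((N : ℝ) / 2) with hρ
  have hρ0 : 0 < ρ := by positivity
  rcases le_or_gt ((∫ x, F x) - (1 + q) * P) 0 with h1 | h1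
  · exact (mul_nonpos_of_nonneg_of_nonpos hρ0.le h1).trans hF0
  have hI : 0 < ∫ x, F x := by
    have : 0 ≤ (1 + q) * P := by positivity
    linarith
  have hτ : TAdm (1 / (1 + q)) N F R := by
    refine ⟨hR, hFi, ⟨ν, hν, hF⟩, ?_, hI⟩
    rw [one_div, inv_mul_eq_div, le_div_iff₀ (by linarith)]
    linarith
  have hb := barrier_tadm (by positivity) (by rw [div_le_one (by linarith)]; linarith) h4 hτ hd0
  have hv : 0 ≤ val N F R := by
    unfold val
    positivity
  have hpart : q / 2 ≤ 1 - 1 / (1 + q) := by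
    have h2 : 1 - 1 / (1 + q) = q / (1 + q) := by field_simp; ring
    rw [h2, div_le_div_iff₀ (by norm_num) (by linarith)]
    nlinarith
  have hlow : π / 10 * Real.exp ((1 / Real.sin (π / (2 * (2 * (N / 4) : ℕ))) - 1) * d -
      (2 * (N / 4) : ℕ) * d ^ 2 - d ^ 2 / 4 * N) ≤
      (π * val N F R) * Real.exp (d * (π * val N F R)) := by
    refine le_trans ?_ hb
    rw [sub_eq_add_neg _ (d ^ 2 / 4 * (N : ℝ)), Real.exp_add]
    have h3 : 0 ≤ π / 5 * Real.exp ((1 / Real.sin (π / (2 * (2 * (N / 4) : ℕ))) - 1) * d -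
        (2 * (N / 4) : ℕ) * d ^ 2) := by positivity
    have h4 := mul_le_mul_of_nonneg_right hpart h3
    rw [← hq]
    linarith
  have hX : 0 < π * val N F R := by
    rcases hv.lt_or_eq with h | h
    · positivity
    · rw [← h] at hlow
      have h5 : 0 < π / 10 * Real.exp ((1 / Real.sin (π / (2 * (2 * (N / 4) : ℕ))) - 1) * d -
        (2 * (N / 4) : ℕ) * d ^ 2 - d ^ 2 / 4 * N) := by positivity
      simp only [mul_zero, zero_mul] at hlow
      linarith
  have h6 := hN _ hX hlow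
  have h7 : (1 / π ^ 2 - ε) * N ≤ val N F R := by
    have h8 : (1 / π - d) * N = π * ((1 / π ^ 2 - ε) * N) := by
      rw [hd]
      field_simp
    rw [h8] at h6
    exact le_of_mul_le_mul_left h6 hp
  have h9 : ρ ≤ F 0 / ∫ x, F x := by
    have h10 : (1 / π ^ 2 - ε) * N / R ^ 2 ≤ (F 0 / ∫ x, F x) ^ ((2 : ℝ) / N) := by
      rw [div_le_iff₀ (by positivity)]
      rw [val] at h7
      linarith
    have h11 : 0 ≤ F 0 / ∫ x, F x := by positivity
    calc ρ ≤ ((F 0 / ∫ x, F x) ^ ((2 : ℝ) / N)) ^ ((N : ℝ) / 2) :=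
          Real.rpow_le_rpow (by positivity) h10 (by positivity)
      _ = F 0 / ∫ x, F x := by
          rw [← Real.rpow_mul h11, div_mul_div_comm, mul_comm, div_self (by positivity),
            Real.rpow_one]
  have h12 : ρ * ∫ x, F x ≤ F 0 := by
    rwa [le_div_iff₀ hI] at h9
  refine le_trans (mul_le_mul_of_nonneg_left ?_ hρ0.le) h12
  have : 0 ≤ (1 + q) * P := by positivity
  linarith

end Pool.Agent.KPT
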