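import Pool.Agent.Lib.KPT.Props

/-!
KPT project, row K2: the inner product of two nonnegative quadratic forms.
-/

set_option autoImplicit false

namespace Pool.Agent.KPT

theorem k2_psd {β : Type} (S : Finset β) (N : β → β → ℝ) (hN : ∀ x y, N x y = N y x)
    (hNp : ∀ a : β → ℝ, 0 ≤ ∑ x ∈ S, ∑ y ∈ S, a x * a y * N x y) :
    (Matrix.of fun x y : S => N x y).PosSemidef := by
  refine Matrix.PosSemidef.of_dotProduct_mulVec_nonneg ?_ ?_
  · ext x y
    simp only [Matrix.conjTranspose_apply, Matrix.of_apply, star_trivial]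
    exact hN _ _
  · intro v
    classical
    let a : β → ℝ := fun x => if h : x ∈ S then v ⟨x, h⟩ else 0
    have ha : ∀ x : S, a x = v x := fun x => by simp [a, x.2]
    have h := hNp a
    rw [← Finset.sum_coe_sort S] at h
    have e : star v ⬝ᵥ ((Matrix.of fun x y : S => N x y).mulVec v) =
        ∑ x : S, ∑ y ∈ S, a x * a y * N x y := by
      simp only [dotProduct, Matrix.mulVec, Matrix.of_apply, star_trivial]
      refine Finset.sum_congr rfl fun x _ => ?_
      rw [← Finset.sum_coe_sort S, Finset.mul_sum]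
      refine Finset.sum_congr rfl fun y _ => ?_
      rw [ha, ha]
      ring
    rw [e]
    exact h

theorem k2 : K2 := by
  intro β S K N hK hN hNp
  have h1 := k2_psd S N hN hNp
  have h2 : (Matrix.of fun x y : S => (K x y + K y x) / 2).PosSemidef := by
    refine k2_psd S (fun x y => (K x y + K y x) / 2) (fun x y => by ring) fun a => ?_
    have e : ∑ x ∈ S, ∑ y ∈ S, a x * a y * ((K x y + K y x) / 2) =
        ∑ x ∈ S, ∑ y ∈ S, a x * a y * K x y := by
      have e1 : ∀ x y, a x * a y * ((K x y + K y x) / 2) =
          (a x * a y * K x y) / 2 + (a y * a x * K y x) / 2 := fun x y => by ring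
      simp_rw [e1, Finset.sum_add_distrib]
      rw [Finset.sum_comm (f := fun x y => (a y * a x * K y x) / 2), ← Finset.sum_add_distrib]
      refine Finset.sum_congr rfl fun x _ => ?_
      rw [← Finset.sum_add_distrib]
      exact Finset.sum_congr rfl fun y _ => by ring
    rw [e]
    exact hK a
  have h3 := (h2.hadamard h1).dotProduct_mulVec_nonneg (fun _ => (1 : ℝ))
  have e : star (fun _ : S => (1 : ℝ)) ⬝ᵥ
      ((Matrix.hadamard (Matrix.of fun x y : S => (K x y + K y x) / 2)
        (Matrix.of fun x y : S => N x y)).mulVec fun _ => (1 : ℝ)) =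
      ∑ x ∈ S, ∑ y ∈ S, K x y * N x y := by
    simp only [dotProduct, Matrix.mulVec, Matrix.hadamard_apply, Matrix.of_apply, star_trivial,
      mul_one, one_mul, Pi.star_apply]
    have e0 : ∑ x : S, ∑ y : S, (K x y + K y x) / 2 * N x y =
        ∑ x ∈ S, ∑ y ∈ S, (K x y + K y x) / 2 * N x y := by
      rw [← Finset.sum_coe_sort S]
      refine Finset.sum_congr rfl fun x _ => ?_
      rw [← Finset.sum_coe_sort S]
    rw [e0]
    have e1 : ∀ x y, (K x y + K y x) / 2 * N x y =
        (K x y * N x y) / 2 + (K y x * N y x) / 2 := fun x y => by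
      rw [hN y x]
      ring
    simp_rw [e1, Finset.sum_add_distrib]
    rw [Finset.sum_comm (f := fun x y => (K y x * N y x) / 2), ← Finset.sum_add_distrib]
    refine Finset.sum_congr rfl fun x _ => ?_
    rw [← Finset.sum_add_distrib]
    exact Finset.sum_congr rfl fun y _ => by ring
  rw [← e]
  exact h3

end Pool.Agent.KPT
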