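import Pool.Agent.Lib.KPT.Props

/-!
KPT project, row K9: separation of the cube of pair correlations from the positive semidefinite cone.
-/

set_option autoImplicit false

namespace Pool.Agent.KPT

open MeasureTheory Filter Topology
open scoped Real

namespace K9x

variable {N : ℕ}

/-- The cube of the admissible pair correlations. -/
def Cube (N : ℕ) (C r : ℝ) : Set (E N → ℝ) :=
  {g | (∀ z, g (-z) = g z) ∧ (∀ z, 0 ≤ g z) ∧ (∀ z, g z ≤ C) ∧ ∀ z, ‖z‖ < r → g z = 0}

lemma cube_compact (N : ℕ) (C r : ℝ) : IsCompact (Cube N C r) := by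
  have h1 : IsCompact (Set.univ.pi fun _ : E N => Set.Icc (0 : ℝ) C) :=
    isCompact_univ_pi fun _ => isCompact_Icc
  refine h1.of_isClosed_subset ?_ ?_
  · unfold Cube
    simp only [Set.ofPred_and, Set.ofPred_forall]
    refine IsClosed.inter (isClosed_iInter fun z => isClosed_eq (continuous_apply _) (continuous_apply _))
      (IsClosed.inter (isClosed_iInter fun z => isClosed_le continuous_const (continuous_apply _))
        (IsClosed.inter (isClosed_iInter fun z => isClosed_le (continuous_apply _) continuous_const)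
          (isClosed_iInter fun z => isClosed_iInter fun _ => isClosed_eq (continuous_apply _) continuous_const)))
  · intro g hg z _
    exact ⟨hg.2.1 z, hg.2.2.1 z⟩

lemma cube_convex (N : ℕ) (C r : ℝ) : Convex ℝ (Cube N C r) := by
  rintro g ⟨g1, g2, g3, g4⟩ g' ⟨g1', g2', g3', g4'⟩ s t hs ht hst
  refine ⟨fun z => ?_, fun z => ?_, fun z => ?_, fun z hz => ?_⟩
  · simp only [Pi.add_apply, Pi.smul_apply, g1, g1']
  · simp only [Pi.add_apply, Pi.smul_apply, smul_eq_mul]
    have := g2 z
    have := g2' z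
    positivity
  · simp only [Pi.add_apply, Pi.smul_apply, smul_eq_mul]
    calc s * g z + t * g' z ≤ s * C + t * C := by
          gcongr
          · exact g3 z
          · exact g3' z
      _ = C := by rw [← add_mul, hst, one_mul]
  · simp only [Pi.add_apply, Pi.smul_apply, smul_eq_mul, g4 z hz, g4' z hz, mul_zero, add_zero]

/-- The matrix of a pair correlation. -/
noncomputable def mat (w : ℝ) (g : E N → ℝ) (x y : E N) : ℝ :=
  (if x = y then 1 else w * g (x - y)) - w

/-- The matrix on the points of `G`. -/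
noncomputable def matG (w : ℝ) (G : Finset (E N)) (g : E N → ℝ) : ↥G × ↥G → ℝ :=
  fun p => mat w g p.1 p.2

lemma matG_cont (w : ℝ) (G : Finset (E N)) : Continuous (matG w G) := by
  refine continuous_pi fun p => ?_
  unfold matG mat
  by_cases h : (p.1 : E N) = p.2
  · simp only [h, if_true]
    exact continuous_const
  · simp only [h, if_false]
    exact (continuous_const.mul (continuous_apply ((p.1 : E N) - p.2))).sub continuous_const

lemma image_convex (w C r : ℝ) (G : Finset (E N)) : Convex ℝ (matG w G '' Cube N C r) := by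
  rintro _ ⟨g, hg, rfl⟩ _ ⟨g', hg', rfl⟩ s t hs ht hst
  refine ⟨s • g + t • g', cube_convex N C r hg hg' hs ht hst, ?_⟩
  funext p
  simp only [matG, mat, Pi.add_apply, Pi.smul_apply, smul_eq_mul]
  have e : t = 1 - s := by linarith
  subst e
  split_ifs
  · ring
  · ring

/-- The positive semidefinite cone. -/
def Cone (G : Finset (E N)) : Set (↥G × ↥G → ℝ) :=
  {M | ∀ a : ↥G → ℝ, 0 ≤ ∑ p, M p * (a p.1 * a p.2)}

lemma cone_closed (G : Finset (E N)) : IsClosed (Cone G) := by
  unfold Cone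
  simp only [Set.ofPred_forall]
  refine isClosed_iInter fun a => isClosed_le continuous_const ?_
  exact continuous_finsetSum _ fun p _ => (continuous_apply p).mul_const _

lemma cone_convex (G : Finset (E N)) : Convex ℝ (Cone G) := by
  intro M hM M' hM' s t hs ht _ a
  have h1 := hM a
  have h2 := hM' a
  have e : ∑ p, (s • M + t • M') p * (a p.1 * a p.2) =
      s * ∑ p, M p * (a p.1 * a p.2) + t * ∑ p, M' p * (a p.1 * a p.2) := by
    rw [Finset.mul_sum, Finset.mul_sum, ← Finset.sum_add_distrib]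
    refine Finset.sum_congr rfl fun p _ => ?_
    simp only [Pi.add_apply, Pi.smul_apply, smul_eq_mul]
    ring
  rw [e]
  positivity

lemma smul_cone (G : Finset (E N)) {M : ↥G × ↥G → ℝ} (hM : M ∈ Cone G) {s : ℝ} (hs : 0 ≤ s) :
    s • M ∈ Cone G := by
  intro a
  have h1 := hM a
  have e : ∑ p, (s • M) p * (a p.1 * a p.2) = s * ∑ p, M p * (a p.1 * a p.2) := by
    rw [Finset.mul_sum]
    refine Finset.sum_congr rfl fun p _ => ?_
    simp only [Pi.smul_apply, smul_eq_mul]
    ring
  rw [e]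
  positivity

lemma sum_pairs (G : Finset (E N)) (F : E N → E N → ℝ) :
    ∑ p : ↥G × ↥G, F p.1 p.2 = ∑ x ∈ G, ∑ y ∈ G, F x y := by
  rw [Fintype.sum_prod_type]
  rw [← Finset.sum_coe_sort G (fun x => ∑ y ∈ G, F x y)]
  refine Finset.sum_congr rfl fun x _ => ?_
  exact Finset.sum_coe_sort G (fun y => F x y)

lemma fs_neg (G : Finset (E N)) (b : E N → E N → ℝ) (z : E N) : fs G b (-z) = fs G b z := by
  unfold fs
  refine Finset.sum_congr rfl fun x _ => Finset.sum_congr rfl fun y _ => ?_
  have h1 : (x - y = -z) ↔ (y - x = z) := by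
    rw [← neg_sub y x, neg_inj]
  have h2 : (y - x = -z) ↔ (x - y = z) := by
    rw [← neg_sub x y, neg_inj]
  simp only [h1, h2]
  rw [add_comm]

open Classical in
lemma sum_fs (G : Finset (E N)) (b : E N → E N → ℝ) (g : E N → ℝ) (hg : ∀ z, g (-z) = g z) :
    ∑ z ∈ diffs G, g z * fs G b z = ∑ x ∈ G, ∑ y ∈ G, g (x - y) * b x y := by
  have h1 : ∀ z : E N, g z * fs G b z = ∑ x ∈ G, ∑ y ∈ G,
      ((if x - y = z then g z * b x y else 0) + (if y - x = z then g z * b x y else 0)) / 2 := by
    intro z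
    unfold fs
    rw [Finset.mul_sum]
    refine Finset.sum_congr rfl fun x _ => ?_
    rw [Finset.mul_sum]
    refine Finset.sum_congr rfl fun y _ => ?_
    split_ifs <;> ring
  simp only [h1]
  rw [Finset.sum_comm]
  refine Finset.sum_congr rfl fun x hx => ?_
  rw [Finset.sum_comm]
  refine Finset.sum_congr rfl fun y hy => ?_
  rw [← Finset.sum_div, Finset.sum_add_distrib]
  have m1 : x - y ∈ diffs G := Finset.mem_image.mpr ⟨(x, y), Finset.mem_product.mpr ⟨hx, hy⟩, rfl⟩
  have m2 : y - x ∈ diffs G := Finset.mem_image.mpr ⟨(y, x), Finset.mem_product.mpr ⟨hy, hx⟩, rfl⟩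
  have e1 : ∑ z ∈ diffs G, (if x - y = z then g z * b x y else 0) = g (x - y) * b x y := by
    rw [Finset.sum_eq_single (x - y)]
    · simp
    · intro z _ hz
      rw [if_neg (fun h => hz h.symm)]
    · intro h
      exact absurd m1 h
  have e2 : ∑ z ∈ diffs G, (if y - x = z then g z * b x y else 0) = g (y - x) * b x y := by
    rw [Finset.sum_eq_single (y - x)]
    · simp
    · intro z _ hz
      rw [if_neg (fun h => hz h.symm)]
    · intro h
      exact absurd m2 h
  rw [e1, e2, ← neg_sub x y, hg]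
  ring

/-- The quadratic form of the matrix of a pair correlation. -/
lemma sum_mat (w : ℝ) (G : Finset (E N)) (g : E N → ℝ) (h0 : g 0 = 0) (b : E N → E N → ℝ) :
    ∑ x ∈ G, ∑ y ∈ G, mat w g x y * b x y =
      ∑ x ∈ G, b x x + w * ∑ x ∈ G, ∑ y ∈ G, g (x - y) * b x y - w * ∑ x ∈ G, ∑ y ∈ G, b x y := by
  rw [Finset.mul_sum, Finset.mul_sum, ← Finset.sum_add_distrib, ← Finset.sum_sub_distrib]
  refine Finset.sum_congr rfl fun x hx => ?_
  have e : b x x = ∑ y ∈ G, (if x = y then b x y else 0) := by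
    rw [Finset.sum_ite_eq]
    simp [hx]
  rw [e, Finset.mul_sum, Finset.mul_sum, ← Finset.sum_add_distrib, ← Finset.sum_sub_distrib]
  refine Finset.sum_congr rfl fun y _ => ?_
  unfold mat
  by_cases h : x = y
  · subst h
    simp only [if_true, sub_self, h0]
    ring
  · simp only [h, if_false]
    ring

end K9x

open K9x

open Classical in
/-- **Row K9: separation.** -/
theorem k9 : K9 := by
  intro N C w r G hC hw hr hb
  by_contra hcon
  have hdis : Disjoint (matG w G '' Cube N C r) (Cone G) := by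
    rw [Set.disjoint_left]
    rintro _ ⟨g, hg, rfl⟩ hM
    refine hcon ⟨g, hg.1, hg.2.1, hg.2.2.1, hg.2.2.2, fun ψ => ?_⟩
    have h0 : g 0 = 0 := hg.2.2.2 0 (by simpa using hr)
    have h1 := hM (fun x => ψ x)
    have h2 : ∑ p : ↥G × ↥G, matG w G g p * (ψ p.1 * ψ p.2) =
        ∑ x ∈ G, ∑ y ∈ G, mat w g x y * (ψ x * ψ y) :=
      sum_pairs G (fun x y => mat w g x y * (ψ x * ψ y))
    rw [h2, sum_mat w G g h0 (fun x y => ψ x * ψ y)] at h1
    have h3 : ∑ x ∈ G, ∑ y ∈ G, ψ x * ψ y = (∑ x ∈ G, ψ x) ^ 2 := by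
      rw [sq, Finset.sum_mul_sum]
    have h4 : ∑ p ∈ G.offDiag, g (p.1 - p.2) * (ψ p.1 * ψ p.2) =
        ∑ x ∈ G, ∑ y ∈ G, g (x - y) * (ψ x * ψ y) := by
      rw [← Finset.sum_product']
      refine Finset.sum_subset (fun p hp => ?_) fun p hp hp' => ?_
      · rw [Finset.mem_offDiag] at hp
        exact Finset.mem_product.mpr ⟨hp.1, hp.2.1⟩
      · rw [Finset.mem_product] at hp
        have h5 : p.1 = p.2 := by
          by_contra h6
          exact hp' (Finset.mem_offDiag.mpr ⟨hp.1, hp.2, h6⟩)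
        rw [h5, sub_self, h0, zero_mul]
    have h5 : ∑ x ∈ G, ψ x * ψ x = ∑ x ∈ G, ψ x ^ 2 :=
      Finset.sum_congr rfl fun x _ => (sq _).symm
    rw [h3, h5] at h1
    rw [h4]
    linarith
  obtain ⟨f, u, v, hf1, huv, hf2⟩ := geometric_hahn_banach_compact_closed
    (image_convex w C r G) ((cube_compact N C r).image (matG_cont w G)) (cone_convex G)
    (cone_closed G) hdis
  have hv : v < 0 := by
    have h1 := hf2 0 (fun a => by simp)
    simpa using h1
  have hpos : ∀ M ∈ Cone G, 0 ≤ f M := by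
    intro M hM
    by_contra hneg
    have hneg' : f M < 0 := not_le.mp hneg
    have h1 := hf2 ((v / f M) • M) (smul_cone G hM (div_nonneg_of_nonpos hv.le hneg'.le))
    rw [map_smul, smul_eq_mul, div_mul_cancel₀ _ hneg'.ne] at h1
    exact lt_irrefl _ h1
  set b : E N → E N → ℝ := fun x y => if h : x ∈ G ∧ y ∈ G then
    f (fun j => if ((⟨x, h.1⟩, ⟨y, h.2⟩) : ↥G × ↥G) = j then 1 else 0) else 0 with hbdef
  have hfb : ∀ F : E N → E N → ℝ, f (fun p : ↥G × ↥G => F p.1 p.2) =
      ∑ x ∈ G, ∑ y ∈ G, F x y * b x y := by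
    intro F
    rw [← sum_pairs G (fun x y => F x y * b x y)]
    have h1 := LinearMap.pi_apply_eq_sum_univ (f : (↥G × ↥G → ℝ) →ₗ[ℝ] ℝ)
      (fun p : ↥G × ↥G => F p.1 p.2)
    rw [ContinuousLinearMap.coe_coe] at h1
    rw [h1]
    refine Finset.sum_congr rfl fun p _ => ?_
    rw [smul_eq_mul, hbdef]
    simp only [p.1.2, p.2.2, and_self, dif_pos, Subtype.coe_eta, Prod.mk.eta]
  have hbpsd : ∀ a : E N → ℝ, 0 ≤ ∑ x ∈ G, ∑ y ∈ G, a x * a y * b x y := by
    intro a
    have h1 := hpos (fun p : ↥G × ↥G => a p.1 * a p.2) (fun c => by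
      have e : ∑ p : ↥G × ↥G, a p.1 * a p.2 * (c p.1 * c p.2) =
          (∑ x : ↥G, a x * c x) * ∑ y : ↥G, a y * c y := by
        rw [Fintype.sum_prod_type, Finset.sum_mul_sum]
        refine Finset.sum_congr rfl fun x _ => Finset.sum_congr rfl fun y _ => ?_
        ring
      rw [e]
      exact mul_self_nonneg _)
    rw [hfb (fun x y => a x * a y)] at h1
    exact h1
  have hmain := hb b hbpsd
  set g : E N → ℝ := fun z => if r ≤ ‖z‖ ∧ 0 < fs G b z then C else 0 with hg
  have hgK : g ∈ Cube N C r := by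
    refine ⟨fun z => ?_, fun z => ?_, fun z => ?_, fun z hz => ?_⟩
    · simp only [hg, norm_neg, fs_neg]
    · simp only [hg]
      split_ifs
      · exact hC
      · exact le_rfl
    · simp only [hg]
      split_ifs
      · exact le_rfl
      · exact hC
    · simp only [hg]
      rw [if_neg (fun h => (not_le.mpr hz) h.1)]
  have h0 : g 0 = 0 := hgK.2.2.2 0 (by simpa using hr)
  have h1 := hf1 _ ⟨g, hgK, rfl⟩
  have h2 : f (matG w G g) = ∑ x ∈ G, ∑ y ∈ G, mat w g x y * b x y := hfb (mat w g)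
  rw [h2, sum_mat w G g h0 b, ← sum_fs G b g hgK.1] at h1
  have h3 : ∑ z ∈ diffs G, g z * fs G b z =
      C * ∑ z ∈ (diffs G).filter (fun z => r ≤ ‖z‖), max (fs G b z) 0 := by
    rw [Finset.sum_filter, Finset.mul_sum]
    refine Finset.sum_congr rfl fun z _ => ?_
    simp only [hg]
    by_cases hz : r ≤ ‖z‖
    · by_cases hp : 0 < fs G b z
      · rw [if_pos ⟨hz, hp⟩, if_pos hz, max_eq_left hp.le]
      · rw [if_neg (fun h => hp h.2), if_pos hz, max_eq_right (not_lt.mp hp)]
        ring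
    · rw [if_neg (fun h => hz h.1), if_neg hz]
      ring
  rw [h3] at h1
  have h4 : w * ((∑ x ∈ G, ∑ y ∈ G, b x y) -
      C * ∑ z ∈ (diffs G).filter (fun z => r ≤ ‖z‖), max (fs G b z) 0) =
      w * (∑ x ∈ G, ∑ y ∈ G, b x y) -
      w * (C * ∑ z ∈ (diffs G).filter (fun z => r ≤ ‖z‖), max (fs G b z) 0) := by ring
  rw [h4] at hmain
  linarith

end Pool.Agent.KPT
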