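import Mathlib
import Pool.Agent.Lib.KPT.Props

/-!
KPT project, row K8: Gaussian smoothing of a discrete function of positive type.  helper15.
-/

set_option autoImplicit false

namespace Pool.Agent.KPT

open MeasureTheory Filter
open scoped Real

namespace K8x

variable {N : ℕ}

/-- The Gaussian. -/
noncomputable def ga (τ : ℝ) (v : E N) : ℝ := Real.exp (-‖v‖ ^ 2 / (2 * τ ^ 2))

lemma ga_pos (τ : ℝ) (v : E N) : 0 < ga τ v := Real.exp_pos _

lemma ga_neg (τ : ℝ) (v : E N) : ga τ (-v) = ga τ v := by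
  unfold ga
  rw [norm_neg]

lemma ga_cont (τ : ℝ) : Continuous (ga τ : E N → ℝ) := by
  unfold ga
  fun_prop

lemma exp_int {a : ℝ} (ha : 0 < a) : Integrable fun t : E N => Real.exp (-a * ‖t‖ ^ 2) := by
  have := (GaussianFourier.integrable_cexp_neg_mul_sq_norm_add (b := (a : ℂ))
    (by simpa using ha) 0 (0 : E N)).norm
  refine this.congr (Eventually.of_forall fun t => ?_)
  simp only
  rw [Complex.norm_exp]
  congr 1
  have : -(a : ℂ) * (‖t‖ : ℂ) ^ 2 + 0 * ((inner ℝ (0 : E N) t : ℝ) : ℂ) =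
      ((-a * ‖t‖ ^ 2 : ℝ) : ℂ) := by
    push_cast; ring
  rw [this, Complex.ofReal_re]

lemma ga_eq (τ : ℝ) (v : E N) : ga τ v = Real.exp (-(1 / (2 * τ ^ 2)) * ‖v‖ ^ 2) := by
  unfold ga
  congr 1
  ring

lemma ga_int {τ : ℝ} (hτ : 0 < τ) : Integrable (ga τ : E N → ℝ) := by
  have h := exp_int (N := N) (a := 1 / (2 * τ ^ 2)) (by positivity)
  refine h.congr (Eventually.of_forall fun t => ?_)
  simp only
  rw [ga_eq]

/-- The cosine transform of the Gaussian. -/
lemma gauss_cos {a : ℝ} (ha : 0 < a) (c : E N) :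
    ∫ t : E N, Real.cos (inner ℝ c t) * Real.exp (-a * ‖t‖ ^ 2) =
      (π / a) ^ ((N : ℝ) / 2) * Real.exp (-‖c‖ ^ 2 / (4 * a)) := by
  have h := GaussianFourier.integral_cexp_neg_mul_sq_norm_add (b := (a : ℂ))
    (by simpa using ha) Complex.I c
  have hi := GaussianFourier.integrable_cexp_neg_mul_sq_norm_add (b := (a : ℂ))
    (by simpa using ha) Complex.I c
  have h1 : (fun t : E N =>
      ((Real.cos (inner ℝ c t) * Real.exp (-a * ‖t‖ ^ 2) : ℝ))) =
      fun t => (Complex.exp (-a * ‖t‖ ^ 2 + Complex.I * inner ℝ c t)).re := by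
    funext t
    have h2 : Complex.exp (-a * ‖t‖ ^ 2 + Complex.I * inner ℝ c t) =
        Complex.exp (((inner ℝ c t : ℝ) : ℂ) * Complex.I) *
          ((Real.exp (-a * ‖t‖ ^ 2) : ℝ) : ℂ) := by
      rw [Complex.ofReal_exp, ← Complex.exp_add]
      congr 1
      push_cast
      ring
    rw [h2, Complex.re_mul_ofReal, Complex.exp_ofReal_mul_I_re]
  rw [h1]
  have h5 := integral_re hi
  simp only [RCLike.re_to_complex] at h5
  rw [h5, h, finrank_euclideanSpace_fin]
  have h6 : ((π : ℂ) / a) ^ ((N : ℂ) / 2) = (((π / a) ^ ((N : ℝ) / 2) : ℝ) : ℂ) := by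
    rw [Complex.ofReal_cpow (by positivity)]
    push_cast
    rfl
  have h7 : Complex.exp (Complex.I ^ 2 * (‖c‖ : ℂ) ^ 2 / (4 * a)) =
      ((Real.exp (-‖c‖ ^ 2 / (4 * a)) : ℝ) : ℂ) := by
    rw [Complex.ofReal_exp]
    congr 1
    push_cast
    rw [Complex.I_sq]
    ring
  rw [h6, h7, ← Complex.ofReal_mul, Complex.ofReal_re]

lemma ga_integral {τ : ℝ} (hτ : 0 < τ) :
    ∫ v : E N, ga τ v = (2 * π * τ ^ 2) ^ ((N : ℝ) / 2) := by
  have h := gauss_cos (N := N) (a := 1 / (2 * τ ^ 2)) (by positivity) 0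
  simp only [inner_zero_left, Real.cos_zero, one_mul, norm_zero] at h
  have e1 : (-(0 : ℝ) ^ 2 / (4 * (1 / (2 * τ ^ 2)))) = 0 := by simp
  rw [e1, Real.exp_zero, mul_one] at h
  have e2 : π / (1 / (2 * τ ^ 2)) = 2 * π * τ ^ 2 := by
    field_simp
  rw [e2] at h
  rw [← h]
  refine integral_congr_ae (Eventually.of_forall fun v => ?_)
  simp only
  rw [ga_eq]

/-- The weight on the side of the frequencies. -/
noncomputable def wt (τ : ℝ) (ξ : E N) : ℝ :=
  ((2 * π / τ ^ 2) ^ ((N : ℝ) / 2))⁻¹ * Real.exp (-(τ ^ 2 / 2) * ‖ξ‖ ^ 2)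

lemma wt_pos {τ : ℝ} (hτ : 0 < τ) (ξ : E N) : 0 < wt τ ξ := by
  unfold wt
  positivity

lemma wt_cont (τ : ℝ) : Continuous (wt τ : E N → ℝ) := by
  unfold wt
  fun_prop

lemma wt_int {τ : ℝ} (hτ : 0 < τ) : Integrable (wt τ : E N → ℝ) :=
  (exp_int (a := τ ^ 2 / 2) (by positivity)).const_mul _

lemma cos_wt_int {τ : ℝ} (hτ : 0 < τ) (c : E N) :
    Integrable fun ξ : E N => Real.cos (inner ℝ c ξ) * wt τ ξ := by
  refine (wt_int hτ).mono' ?_ (Eventually.of_forall fun ξ => ?_)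
  · have := wt_cont (N := N) τ
    exact Continuous.aestronglyMeasurable (by fun_prop)
  · rw [norm_mul, Real.norm_eq_abs, Real.norm_eq_abs, abs_of_pos (wt_pos hτ ξ)]
    exact mul_le_of_le_one_left (wt_pos hτ ξ).le (Real.abs_cos_le_one _)

lemma cos_wt {τ : ℝ} (hτ : 0 < τ) (c : E N) :
    ∫ ξ : E N, Real.cos (inner ℝ c ξ) * wt τ ξ = ga τ c := by
  have h := gauss_cos (N := N) (a := τ ^ 2 / 2) (by positivity) c
  have hZ : 0 < (2 * π / τ ^ 2) ^ ((N : ℝ) / 2) := by positivity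
  have e1 : (fun ξ : E N => Real.cos (inner ℝ c ξ) * wt τ ξ) = fun ξ =>
      ((2 * π / τ ^ 2) ^ ((N : ℝ) / 2))⁻¹ *
        (Real.cos (inner ℝ c ξ) * Real.exp (-(τ ^ 2 / 2) * ‖ξ‖ ^ 2)) := by
    funext ξ
    unfold wt
    ring
  have e2 : π / (τ ^ 2 / 2) = 2 * π / τ ^ 2 := by
    field_simp
  have e3 : -‖c‖ ^ 2 / (4 * (τ ^ 2 / 2)) = -‖c‖ ^ 2 / (2 * τ ^ 2) := by
    congr 1
    ring
  rw [e1, integral_const_mul, h, e2, e3, ← mul_assoc, inv_mul_cancel₀ hZ.ne', one_mul]
  rfl

section main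

variable (G : Finset (E N)) (b : E N → E N → ℝ) (τ : ℝ)

/-- The trigonometric polynomial. -/
noncomputable def tp (ξ : E N) : ℝ := ∑ x ∈ G, ∑ y ∈ G, b x y * Real.cos (inner ℝ (x - y) ξ)

/-- The smoothed function. -/
noncomputable def FF (v : E N) : ℝ :=
  ∑ x ∈ G, ∑ y ∈ G, b x y * ((ga τ (v - (x - y)) + ga τ (v + (x - y))) / 2)

lemma tp_cont : Continuous (tp G b) := by
  unfold tp
  fun_prop

lemma tp_nonneg (hb : ∀ a : E N → ℝ, 0 ≤ ∑ x ∈ G, ∑ y ∈ G, a x * a y * b x y) (ξ : E N) :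
    0 ≤ tp G b ξ := by
  have h1 := hb fun x => Real.cos (inner ℝ x ξ)
  have h2 := hb fun x => Real.sin (inner ℝ x ξ)
  have e : tp G b ξ = ∑ x ∈ G, ∑ y ∈ G, Real.cos (inner ℝ x ξ) * Real.cos (inner ℝ y ξ) * b x y +
      ∑ x ∈ G, ∑ y ∈ G, Real.sin (inner ℝ x ξ) * Real.sin (inner ℝ y ξ) * b x y := by
    unfold tp
    rw [← Finset.sum_add_distrib]
    refine Finset.sum_congr rfl fun x _ => ?_
    rw [← Finset.sum_add_distrib]
    refine Finset.sum_congr rfl fun y _ => ?_
    rw [inner_sub_left, Real.cos_sub]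
    ring
  rw [e]
  exact add_nonneg h1 h2

lemma tp_bdd (ξ : E N) : |tp G b ξ| ≤ ∑ x ∈ G, ∑ y ∈ G, |b x y| := by
  unfold tp
  refine (Finset.abs_sum_le_sum_abs _ _).trans (Finset.sum_le_sum fun x _ =>
    (Finset.abs_sum_le_sum_abs _ _).trans (Finset.sum_le_sum fun y _ => ?_))
  rw [abs_mul]
  exact mul_le_of_le_one_right (abs_nonneg _) (Real.abs_cos_le_one _)

lemma dens_int (hτ : 0 < τ) : Integrable fun ξ : E N => tp G b ξ * wt τ ξ := by
  refine ((wt_int hτ).const_mul (∑ x ∈ G, ∑ y ∈ G, |b x y|)).mono' ?_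
    (Eventually.of_forall fun ξ => ?_)
  · exact ((tp_cont G b).mul (wt_cont τ)).aestronglyMeasurable
  · rw [norm_mul, Real.norm_eq_abs, Real.norm_eq_abs, abs_of_pos (wt_pos hτ ξ)]
    exact mul_le_mul_of_nonneg_right (tp_bdd G b ξ) (wt_pos hτ ξ).le

/-- The measure. -/
noncomputable def nuM : Measure (E N) :=
  volume.withDensity fun ξ => ENNReal.ofReal (tp G b ξ * wt τ ξ)

lemma nuM_fin (hτ : 0 < τ) : IsFiniteMeasure (nuM G b τ) :=
  isFiniteMeasure_withDensity_ofReal (dens_int G b τ hτ).2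

lemma FF_eq (hτ : 0 < τ)
    (hb : ∀ a : E N → ℝ, 0 ≤ ∑ x ∈ G, ∑ y ∈ G, a x * a y * b x y) (v : E N) :
    FF G b τ v = ∫ ξ, Real.cos (inner ℝ v ξ) ∂(nuM G b τ) := by
  unfold nuM
  have hm : Measurable fun ξ : E N => ENNReal.ofReal (tp G b ξ * wt τ ξ) :=
    ((tp_cont G b).mul (wt_cont τ)).measurable.ennreal_ofReal
  rw [integral_withDensity_eq_integral_toReal_smul₀ hm.aemeasurable
    (Eventually.of_forall fun ξ => ENNReal.ofReal_lt_top)]
  have h1 : ∀ ξ : E N, (ENNReal.ofReal (tp G b ξ * wt τ ξ)).toReal • Real.cos (inner ℝ v ξ) =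
      ∑ x ∈ G, ∑ y ∈ G, (b x y / 2) * (Real.cos (inner ℝ (v - (x - y)) ξ) * wt τ ξ +
        Real.cos (inner ℝ (v + (x - y)) ξ) * wt τ ξ) := by
    intro ξ
    rw [ENNReal.toReal_ofReal (mul_nonneg (tp_nonneg G b hb ξ) (wt_pos hτ ξ).le), smul_eq_mul]
    unfold tp
    rw [Finset.sum_mul, Finset.sum_mul]
    refine Finset.sum_congr rfl fun x _ => ?_
    rw [Finset.sum_mul, Finset.sum_mul]
    refine Finset.sum_congr rfl fun y _ => ?_
    rw [inner_sub_left v, inner_add_left v, Real.cos_sub, Real.cos_add]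
    ring
  rw [integral_congr_ae (Eventually.of_forall h1)]
  rw [integral_finsetSum]
  · unfold FF
    refine Finset.sum_congr rfl fun x _ => ?_
    rw [integral_finsetSum]
    · refine Finset.sum_congr rfl fun y _ => ?_
      rw [integral_const_mul, integral_add (cos_wt_int hτ _) (cos_wt_int hτ _), cos_wt hτ,
        cos_wt hτ]
      ring
    · intro y _
      exact ((cos_wt_int hτ _).add (cos_wt_int hτ _)).const_mul _
  · intro x _
    refine integrable_finsetSum _ fun y _ => ?_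
    exact ((cos_wt_int hτ _).add (cos_wt_int hτ _)).const_mul _

lemma FF_int (hτ : 0 < τ) : Integrable (FF G b τ) := by
  unfold FF
  refine integrable_finsetSum _ fun x _ => integrable_finsetSum _ fun y _ => ?_
  exact ((((ga_int hτ).comp_sub_right _).add ((ga_int hτ).comp_add_right _)).div_const 2).const_mul _

lemma FF_integral (hτ : 0 < τ) :
    ∫ v, FF G b τ v = (2 * π * τ ^ 2) ^ ((N : ℝ) / 2) * ∑ x ∈ G, ∑ y ∈ G, b x y := by
  unfold FF
  rw [integral_finsetSum]
  · rw [Finset.mul_sum]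
    refine Finset.sum_congr rfl fun x _ => ?_
    rw [integral_finsetSum]
    · rw [Finset.mul_sum]
      refine Finset.sum_congr rfl fun y _ => ?_
      rw [integral_const_mul, integral_div, integral_add ((ga_int hτ).comp_sub_right _)
        ((ga_int hτ).comp_add_right _), integral_sub_right_eq_self (ga τ : E N → ℝ),
        integral_add_right_eq_self (ga τ : E N → ℝ), ga_integral hτ]
      ring
    · intro y _
      exact ((((ga_int hτ).comp_sub_right _).add
        ((ga_int hτ).comp_add_right _)).div_const 2).const_mul _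
  · intro x _
    refine integrable_finsetSum _ fun y _ => ?_
    exact ((((ga_int hτ).comp_sub_right _).add
      ((ga_int hτ).comp_add_right _)).div_const 2).const_mul _

variable (hb : ∀ a : E N → ℝ, 0 ≤ ∑ x ∈ G, ∑ y ∈ G, a x * a y * b x y)

include hb

open Classical in
lemma diag_nonneg {x : E N} (hx : x ∈ G) : 0 ≤ b x x := by
  have h := hb fun z => if z = x then 1 else 0
  have e : ∑ z ∈ G, ∑ y ∈ G, (if z = x then (1 : ℝ) else 0) * (if y = x then 1 else 0) * b z y =
      b x x := by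
    rw [Finset.sum_eq_single_of_mem x hx fun z _ hz => by simp [hz]]
    rw [Finset.sum_eq_single_of_mem x hx fun z _ hz => by simp [hz]]
    simp
  rwa [e] at h

open Classical in
lemma off_le {x y : E N} (hx : x ∈ G) (hy : y ∈ G) : (b x y + b y x) / 2 ≤ (b x x + b y y) / 2 := by
  by_cases hxy : x = y
  · subst hxy; exact le_rfl
  have h := hb fun z => if z = x then 1 else if z = y then -1 else 0
  have e1 : ∀ z ∈ G, ∀ f : E N → ℝ, ∑ u ∈ G, (if u = x then (1 : ℝ) else if u = y then -1 else 0) *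
      f u = f x - f y := by
    intro z _ f
    have e : ∀ u ∈ G, (if u = x then (1 : ℝ) else if u = y then -1 else 0) * f u =
        (if u = x then f u else 0) - (if u = y then f u else 0) := by
      intro u _
      by_cases h1 : u = x
      · subst h1
        simp [hxy]
      · simp only [if_neg h1]
        split_ifs <;> ring
    rw [Finset.sum_congr rfl e, Finset.sum_sub_distrib, Finset.sum_ite_eq', Finset.sum_ite_eq',
      if_pos hx, if_pos hy]
  have e2 : ∑ z ∈ G, ∑ u ∈ G, (if z = x then (1 : ℝ) else if z = y then -1 else 0) *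
      (if u = x then (1 : ℝ) else if u = y then -1 else 0) * b z u =
      b x x - b x y - (b y x - b y y) := by
    have e3 : ∀ z ∈ G, ∑ u ∈ G, (if z = x then (1 : ℝ) else if z = y then -1 else 0) *
        (if u = x then (1 : ℝ) else if u = y then -1 else 0) * b z u =
        (if z = x then (1 : ℝ) else if z = y then -1 else 0) * (b z x - b z y) := by
      intro z hz
      rw [← e1 z hz (fun u => b z u), Finset.mul_sum]
      exact Finset.sum_congr rfl fun u _ => by ring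
    rw [Finset.sum_congr rfl e3, e1 x hx fun z => b z x - b z y]
  rw [e2] at h
  linarith

/-- The value at zero. -/
lemma FF_zero_le {Θ : ℝ} (hΘ : ∀ x ∈ G, ∑ y ∈ G, Real.exp (-‖x - y‖ ^ 2 / (2 * τ ^ 2)) ≤ Θ) :
    FF G b τ 0 ≤ Θ * ∑ x ∈ G, b x x := by
  have h1 : FF G b τ 0 = ∑ x ∈ G, ∑ y ∈ G, b x y * ga τ (x - y) := by
    unfold FF
    refine Finset.sum_congr rfl fun x _ => Finset.sum_congr rfl fun y _ => ?_
    rw [zero_sub, zero_add, ga_neg]
    ring
  have hsym : ∀ x y : E N, ga τ (x - y) = ga τ (y - x) := fun x y => by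
    rw [← neg_sub y x, ga_neg]
  have h2 : ∑ x ∈ G, ∑ y ∈ G, b x y * ga τ (x - y) =
      ∑ x ∈ G, ∑ y ∈ G, (b x y + b y x) / 2 * ga τ (x - y) := by
    have h3 : ∑ x ∈ G, ∑ y ∈ G, b x y * ga τ (x - y) = ∑ x ∈ G, ∑ y ∈ G, b y x * ga τ (x - y) := by
      rw [Finset.sum_comm]
      refine Finset.sum_congr rfl fun x _ => Finset.sum_congr rfl fun y _ => ?_
      rw [hsym]
    have h4 : ∑ x ∈ G, ∑ y ∈ G, (b x y + b y x) / 2 * ga τ (x - y) =
        (∑ x ∈ G, ∑ y ∈ G, b x y * ga τ (x - y) + ∑ x ∈ G, ∑ y ∈ G, b y x * ga τ (x - y)) / 2 := by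
      rw [← Finset.sum_add_distrib, Finset.sum_div]
      refine Finset.sum_congr rfl fun x _ => ?_
      rw [← Finset.sum_add_distrib, Finset.sum_div]
      exact Finset.sum_congr rfl fun y _ => by ring
    rw [h4, ← h3]
    ring
  have h5 : ∑ x ∈ G, ∑ y ∈ G, (b x y + b y x) / 2 * ga τ (x - y) ≤
      ∑ x ∈ G, ∑ y ∈ G, (b x x + b y y) / 2 * ga τ (x - y) :=
    Finset.sum_le_sum fun x hx => Finset.sum_le_sum fun y hy =>
      mul_le_mul_of_nonneg_right (off_le G b hb hx hy) (ga_pos τ _).le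
  have h6 : ∑ x ∈ G, ∑ y ∈ G, (b x x + b y y) / 2 * ga τ (x - y) =
      ∑ x ∈ G, b x x * ∑ y ∈ G, ga τ (x - y) := by
    have h7 : ∑ x ∈ G, ∑ y ∈ G, b y y * ga τ (x - y) = ∑ x ∈ G, ∑ y ∈ G, b x x * ga τ (x - y) := by
      rw [Finset.sum_comm]
      refine Finset.sum_congr rfl fun x _ => Finset.sum_congr rfl fun y _ => ?_
      rw [hsym]
    have h8 : ∑ x ∈ G, ∑ y ∈ G, (b x x + b y y) / 2 * ga τ (x - y) =
        (∑ x ∈ G, ∑ y ∈ G, b x x * ga τ (x - y) + ∑ x ∈ G, ∑ y ∈ G, b y y * ga τ (x - y)) / 2 := by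
      rw [← Finset.sum_add_distrib, Finset.sum_div]
      refine Finset.sum_congr rfl fun x _ => ?_
      rw [← Finset.sum_add_distrib, Finset.sum_div]
      exact Finset.sum_congr rfl fun y _ => by ring
    rw [h8, h7]
    have h9 : ∑ x ∈ G, b x x * ∑ y ∈ G, ga τ (x - y) = ∑ x ∈ G, ∑ y ∈ G, b x x * ga τ (x - y) :=
      Finset.sum_congr rfl fun x _ => Finset.mul_sum _ _ _
    rw [h9]
    ring
  rw [h1, h2]
  refine h5.trans ?_
  rw [h6, Finset.mul_sum]
  refine Finset.sum_le_sum fun x hx => ?_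
  rw [mul_comm Θ]
  exact mul_le_mul_of_nonneg_left (hΘ x hx) (diag_nonneg G b hb hx)

open Classical in
/-- The coefficients are at most the trace. -/
lemma fs_le (z : E N) : fs G b z ≤ ∑ x ∈ G, b x x := by
  have h1 : fs G b z = ∑ x ∈ G, ∑ y ∈ G, if x - y = z then (b x y + b y x) / 2 else 0 := by
    have h2 : ∑ x ∈ G, ∑ y ∈ G, (if y - x = z then b x y else 0) =
        ∑ x ∈ G, ∑ y ∈ G, (if x - y = z then b y x else 0) := Finset.sum_comm
    have h3 : fs G b z = (∑ x ∈ G, ∑ y ∈ G, (if x - y = z then b x y else 0) +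
        ∑ x ∈ G, ∑ y ∈ G, (if y - x = z then b x y else 0)) / 2 := by
      unfold fs
      rw [← Finset.sum_add_distrib, Finset.sum_div]
      refine Finset.sum_congr rfl fun x _ => ?_
      rw [← Finset.sum_add_distrib, Finset.sum_div]
    rw [h3, h2, ← Finset.sum_add_distrib, Finset.sum_div]
    refine Finset.sum_congr rfl fun x _ => ?_
    rw [← Finset.sum_add_distrib, Finset.sum_div]
    refine Finset.sum_congr rfl fun y _ => ?_
    split_ifs <;> ring
  have h2 : fs G b z ≤ ∑ x ∈ G, ∑ y ∈ G, if x - y = z then (b x x + b y y) / 2 else 0 := by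
    rw [h1]
    refine Finset.sum_le_sum fun x hx => Finset.sum_le_sum fun y hy => ?_
    split_ifs
    · exact off_le G b hb hx hy
    · exact le_rfl
  have h3 : ∑ x ∈ G, ∑ y ∈ G, (if x - y = z then (b x x + b y y) / 2 else 0) =
      (∑ x ∈ G, ∑ y ∈ G, (if x - y = z then b x x else 0) +
        ∑ y ∈ G, ∑ x ∈ G, (if x - y = z then b y y else 0)) / 2 := by
    rw [Finset.sum_comm (s := G) (t := G) (f := fun y x => if x - y = z then b y y else 0),
      ← Finset.sum_add_distrib, Finset.sum_div]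
    refine Finset.sum_congr rfl fun x _ => ?_
    rw [← Finset.sum_add_distrib, Finset.sum_div]
    refine Finset.sum_congr rfl fun y _ => ?_
    split_ifs <;> ring
  have h4 : ∑ x ∈ G, ∑ y ∈ G, (if x - y = z then b x x else 0) ≤ ∑ x ∈ G, b x x := by
    refine Finset.sum_le_sum fun x hx => ?_
    have e : ∀ y ∈ G, (if x - y = z then b x x else 0) = if y = x - z then b x x else 0 := by
      intro y _
      have : x - y = z ↔ y = x - z := by
        constructor
        · intro h; rw [← h]; abel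
        · intro h; rw [h]; abel
      simp only [this]
    rw [Finset.sum_congr rfl e, Finset.sum_ite_eq']
    split_ifs
    · exact le_rfl
    · exact diag_nonneg G b hb hx
  have h5 : ∑ y ∈ G, ∑ x ∈ G, (if x - y = z then b y y else 0) ≤ ∑ x ∈ G, b x x := by
    refine Finset.sum_le_sum fun y hy => ?_
    have e : ∀ x ∈ G, (if x - y = z then b y y else 0) = if x = z + y then b y y else 0 := by
      intro x _
      have : x - y = z ↔ x = z + y := sub_eq_iff_eq_add
      simp only [this]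
    rw [Finset.sum_congr rfl e, Finset.sum_ite_eq']
    split_ifs
    · exact le_rfl
    · exact diag_nonneg G b hb hy
  rw [h3] at h2
  linarith

omit hb

open Classical in
/-- The smoothed function in terms of the differences. -/
lemma FF_diffs (v : E N) : FF G b τ v = ∑ z ∈ diffs G, fs G b z * ga τ (v - z) := by
  unfold fs
  have h1 : ∀ z ∈ diffs G, (∑ x ∈ G, ∑ y ∈ G, ((if x - y = z then b x y else 0) +
      (if y - x = z then b x y else 0)) / 2) * ga τ (v - z) =
      ∑ x ∈ G, ∑ y ∈ G, ((if x - y = z then b x y * ga τ (v - (x - y)) else 0) +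
        (if y - x = z then b x y * ga τ (v - (y - x)) else 0)) / 2 := by
    intro z _
    rw [Finset.sum_mul]
    refine Finset.sum_congr rfl fun x _ => ?_
    rw [Finset.sum_mul]
    refine Finset.sum_congr rfl fun y _ => ?_
    by_cases h2 : x - y = z <;> by_cases h3 : y - x = z
    · simp only [h2, h3, if_true]; ring
    · simp only [h2, h3, if_true, if_false]; ring
    · simp only [h2, h3, if_true, if_false]; ring
    · simp only [h2, h3, if_false]; ring
  rw [Finset.sum_congr rfl h1, Finset.sum_comm]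
  unfold FF
  refine Finset.sum_congr rfl fun x hx => ?_
  rw [Finset.sum_comm]
  refine Finset.sum_congr rfl fun y hy => ?_
  have hxy : x - y ∈ diffs G := by
    unfold diffs
    exact Finset.mem_image.2 ⟨(x, y), Finset.mem_product.2 ⟨hx, hy⟩, rfl⟩
  have hyx : y - x ∈ diffs G := by
    unfold diffs
    exact Finset.mem_image.2 ⟨(y, x), Finset.mem_product.2 ⟨hy, hx⟩, rfl⟩
  rw [← Finset.sum_div, Finset.sum_add_distrib, Finset.sum_ite_eq, Finset.sum_ite_eq,
    if_pos hxy, if_pos hyx]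
  have e : v - (y - x) = v + (x - y) := by abel
  rw [e]
  ring

lemma tail_le {R r : ℝ} (hτ : 0 < τ) (z : E N) (hz : ‖z‖ < r) :
    ∫ v in {x : E N | R ≤ ‖x‖}, ga τ (v - z) ≤
      ∫ v in {v : E N | R - r ≤ ‖v‖}, Real.exp (-‖v‖ ^ 2 / (2 * τ ^ 2)) := by
  have hm : ∀ s : ℝ, MeasurableSet {x : E N | s ≤ ‖x‖} := fun s =>
    measurableSet_le measurable_const measurable_norm
  rw [← integral_indicator (hm _), ← integral_indicator (hm _)]
  have h1 : ∫ v : E N, ({v : E N | R - r ≤ ‖v‖}).indicator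
      (fun v => Real.exp (-‖v‖ ^ 2 / (2 * τ ^ 2))) v =
      ∫ v : E N, ({v : E N | R - r ≤ ‖v‖}).indicator
      (fun v => Real.exp (-‖v‖ ^ 2 / (2 * τ ^ 2))) (v - z) :=
    (integral_sub_right_eq_self (({v : E N | R - r ≤ ‖v‖}).indicator
      (fun v => Real.exp (-‖v‖ ^ 2 / (2 * τ ^ 2)))) z).symm
  rw [h1]
  refine integral_mono (((ga_int hτ).comp_sub_right z).indicator (hm _))
    ((((ga_int hτ).indicator (hm (R - r)))).comp_sub_right z) fun v => ?_
  by_cases h : v ∈ {x : E N | R ≤ ‖x‖}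
  · rw [Set.indicator_of_mem h, Set.indicator_of_mem]
    · exact le_rfl
    · rw [Set.mem_ofPred_eq] at h ⊢
      have := norm_sub_norm_le v z
      linarith
  · rw [Set.indicator_of_notMem h]
    exact Set.indicator_nonneg (fun _ _ => (Real.exp_pos _).le) _

open Classical in
/-- The positive part far from the origin. -/
lemma pos_le (hb : ∀ a : E N → ℝ, 0 ≤ ∑ x ∈ G, ∑ y ∈ G, a x * a y * b x y) {R r : ℝ}
    (hτ : 0 < τ) :
    ∫ x in {x : E N | R ≤ ‖x‖}, max (FF G b τ x) 0 ≤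
      (2 * π * τ ^ 2) ^ ((N : ℝ) / 2) *
        ∑ z ∈ (diffs G).filter (fun z => r ≤ ‖z‖), max (fs G b z) 0 +
      ((diffs G).filter fun z => ‖z‖ < r).card *
        (∫ v in {v : E N | R - r ≤ ‖v‖}, Real.exp (-‖v‖ ^ 2 / (2 * τ ^ 2))) *
          (∑ x ∈ G, b x x) := by
  have hm : ∀ s : ℝ, MeasurableSet {x : E N | s ≤ ‖x‖} := fun s =>
    measurableSet_le measurable_const measurable_norm
  have htr : 0 ≤ ∑ x ∈ G, b x x := Finset.sum_nonneg fun x hx => diag_nonneg G b hb hx
  have hi : ∀ z : E N, Integrable (fun v => max (fs G b z) 0 * ga τ (v - z))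
      (volume.restrict {x : E N | R ≤ ‖x‖}) := fun z =>
    (((ga_int hτ).comp_sub_right z).const_mul _).integrableOn
  have h1 : ∫ x in {x : E N | R ≤ ‖x‖}, max (FF G b τ x) 0 ≤
      ∫ x in {x : E N | R ≤ ‖x‖}, ∑ z ∈ diffs G, max (fs G b z) 0 * ga τ (x - z) := by
    refine integral_mono ((FF_int G b τ hτ).pos_part.integrableOn)
      (integrable_finsetSum _ fun z _ => hi z) fun x => ?_
    refine max_le ?_ (Finset.sum_nonneg fun z _ => mul_nonneg (le_max_right _ _) (ga_pos τ _).le)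
    rw [FF_diffs]
    exact Finset.sum_le_sum fun z _ => mul_le_mul_of_nonneg_right (le_max_left _ _) (ga_pos τ _).le
  refine h1.trans ?_
  rw [integral_finsetSum _ fun z _ => hi z]
  simp only [integral_const_mul]
  rw [← Finset.sum_filter_add_sum_filter_not (diffs G) (fun z => r ≤ ‖z‖)]
  refine add_le_add ?_ ?_
  · rw [Finset.mul_sum]
    refine Finset.sum_le_sum fun z _ => ?_
    rw [mul_comm]
    refine mul_le_mul_of_nonneg_right ?_ (le_max_right _ _)
    calc ∫ v in {x : E N | R ≤ ‖x‖}, ga τ (v - z) ≤ ∫ v, ga τ (v - z) :=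
          setIntegral_le_integral ((ga_int hτ).comp_sub_right z)
            (Eventually.of_forall fun v => (ga_pos τ _).le)
      _ = (2 * π * τ ^ 2) ^ ((N : ℝ) / 2) := by
          rw [integral_sub_right_eq_self (ga τ : E N → ℝ), ga_integral hτ]
  · have e : (diffs G).filter (fun z => ¬ r ≤ ‖z‖) = (diffs G).filter fun z => ‖z‖ < r := by
      refine Finset.filter_congr fun z _ => ?_
      rw [not_le]
    rw [e]
    obtain ⟨T, hT⟩ : ∃ T, T = ∫ v in {v : E N | R - r ≤ ‖v‖}, Real.exp (-‖v‖ ^ 2 / (2 * τ ^ 2)) :=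
      ⟨_, rfl⟩
    have hT0 : 0 ≤ T := by
      rw [hT]
      exact integral_nonneg fun v => (Real.exp_pos _).le
    rw [← hT]
    calc ∑ z ∈ (diffs G).filter (fun z => ‖z‖ < r), max (fs G b z) 0 *
          ∫ v in {x : E N | R ≤ ‖x‖}, ga τ (v - z) ≤
          ∑ z ∈ (diffs G).filter (fun z => ‖z‖ < r), (∑ x ∈ G, b x x) * T := by
          refine Finset.sum_le_sum fun z hz => ?_
          rw [Finset.mem_filter] at hz
          have h2 := tail_le (R := R) (r := r) τ hτ z hz.2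
          rw [← hT] at h2
          have h3 : max (fs G b z) 0 ≤ ∑ x ∈ G, b x x := max_le (fs_le G b hb z) htr
          have h4 : 0 ≤ ∫ v in {x : E N | R ≤ ‖x‖}, ga τ (v - z) :=
            integral_nonneg fun v => (ga_pos τ _).le
          exact mul_le_mul h3 h2 h4 htr
      _ = _ := by
          rw [Finset.sum_const, nsmul_eq_mul]
          ring

end main

end K8x

open K8x

theorem k8 : K8 := by
  classical
  intro N R C ρ r τ Θ G b hRB hC hρ hr hrR hτ hb hΘ
  have hfin := nuM_fin G b τ hτ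
  have h1 := hRB (FF G b τ) (nuM G b τ) hfin (FF_int G b τ hτ) (FF_eq G b τ hτ hb)
  have h2 := FF_zero_le G b τ hb hΘ
  have h3 := pos_le G b τ hb (R := R) (r := r) hτ
  rw [FF_integral G b τ hτ] at h1
  refine le_trans ?_ (h1.trans h2)
  have h4 := mul_le_mul_of_nonneg_left h3 (mul_nonneg hρ hC)
  have e : ρ * ((2 * π * τ ^ 2) ^ ((N : ℝ) / 2) * (∑ x ∈ G, ∑ y ∈ G, b x y) -
      C * ∫ x in {x : E N | R ≤ ‖x‖}, max (FF G b τ x) 0) =
      ρ * (2 * π * τ ^ 2) ^ ((N : ℝ) / 2) * (∑ x ∈ G, ∑ y ∈ G, b x y) -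
      ρ * C * ∫ x in {x : E N | R ≤ ‖x‖}, max (FF G b τ x) 0 := by ring
  rw [e]
  refine le_trans (le_of_eq ?_) (sub_le_sub_left h4 _)
  ring

end Pool.Agent.KPT
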