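import Pool.Agent.Lib.KPT.Props

/-!
KPT project, K5: soundness of the certificates for packings.
-/

namespace Pool.Agent.KPT

theorem Sep.mono {N : ℕ} {r : ℝ} {I J : Finset (E N)} (h : Sep r J) (hI : I ⊆ J) : Sep r I :=
  fun x hx y hy hxy => h x (hI hx) y (hI hy) hxy

/-- The bound for a weighted sum of the functional `B k T`. -/
theorem sum_B_le {N k : ℕ} {V : Set (E N)} {r M : ℝ}
    {T : Finset (E N) → Option (E N) → Option (E N) → ℝ} (h1b : K1b) (hk : 2 ≤ k)
    (hT : Cert k V r M T) {G : Finset (E N)} (hG : ∀ x ∈ G, x ∈ V) {ν : Finset (E N) → ℝ}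
    {w : ℝ} (h0 : ν ∅ = 1) (h1 : ∀ x ∈ G, ν {x} = w) (hw : 0 ≤ w)
    (hsep : ∀ I, I ⊆ G → ¬ Sep r I → ν I = 0) (hnn : ∀ I, I ⊆ G → 0 ≤ ν I) :
    ∑ I ∈ G.powerset, ν I * B k T I ≤ M - w * G.card := by
  classical
  obtain ⟨-, hB1, hB2, hM⟩ := hT
  have key : ∀ I ∈ G.powerset, ν I * B k T I ≤
      (if I = ∅ then M else 0) + (if I.card = 1 then -w else 0) := by
    intro I hI
    rw [Finset.mem_powerset] at hI
    rcases Nat.lt_or_ge I.card 2 with hc | hc
    · rcases Nat.lt_or_ge I.card 1 with hc1 | hc1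
      · have : I = ∅ := by
          rw [← Finset.card_eq_zero]
          omega
        subst this
        rw [h0, (h1b (E N) k T).2 hk, hM]
        simp
      · have hc2 : I.card = 1 := by omega
        obtain ⟨x, rfl⟩ := Finset.card_eq_one.1 hc2
        have hx : x ∈ G := hI (Finset.mem_singleton_self x)
        rw [h1 x hx]
        have := mul_le_mul_of_nonneg_left (hB1 x (hG x hx)) hw
        simp only [Finset.singleton_ne_empty, if_false, Finset.card_singleton, if_true]
        linarith
    · have hne : I ≠ ∅ := by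
        rintro rfl
        simp at hc
      have hc1 : I.card ≠ 1 := by omega
      rw [if_neg hne, if_neg hc1, add_zero]
      rcases Nat.lt_or_ge k I.card with hk1 | hk1
      · rw [(h1b (E N) k T).1 I hk1, mul_zero]
      · by_cases hs : Sep r I
        · exact mul_nonpos_of_nonneg_of_nonpos (hnn I hI)
            (hB2 I (fun x hx => hG x (hI hx)) hs hc hk1)
        · rw [hsep I hI hs, zero_mul]
  refine (Finset.sum_le_sum key).trans (le_of_eq ?_)
  rw [Finset.sum_add_distrib, Finset.sum_ite_eq' G.powerset ∅, if_pos (Finset.empty_mem_powerset G),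
    ← Finset.sum_filter, Finset.sum_const]
  have : (G.powerset.filter fun I => I.card = 1) = G.powersetCard 1 := by
    ext I
    simp [Finset.mem_powersetCard]
  rw [this, Finset.card_powersetCard, Nat.choose_one_right, nsmul_eq_mul]
  ring

theorem k5 (h1 : K1) (h1b : K1b) : K5 := by
  classical
  intro N k V r M T X hk hT hX hs
  have hsum := h1 (E N) k T (fun _ => 1) X
  have hle := sum_B_le (ν := fun _ => 1) (w := 1) h1b hk hT hX rfl (fun _ _ => rfl) zero_le_one
    (fun I hI hn => absurd (hs.mono hI) hn) (fun _ _ => zero_le_one)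
  rw [← hsum, one_mul] at hle
  have h0 : 0 ≤ ∑ Q ∈ X.powerset.filter (fun Q => Q.card + 2 ≤ k),
      ∑ p ∈ X.insertNone ×ˢ X.insertNone, T Q p.1 p.2 * 1 := by
    refine Finset.sum_nonneg fun Q hQ => ?_
    rw [Finset.mem_filter, Finset.mem_powerset] at hQ
    have := hT.1 Q (fun x hx => hX x (hQ.1 hx)) (hs.mono hQ.1) hQ.2 X.insertNone
      (fun p hp x hx => hX x (Finset.mem_insertNone.1 hp x hx)) (fun _ => 1)
    simp only [one_mul] at this
    rw [Finset.sum_product]
    simpa using this
  linarith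

end Pool.Agent.KPT
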