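import Pool.Agent.Lib.KPT.Props

/-!
KPT project, K1: exchange of summation.
-/

namespace Pool.Agent.KPT

open Classical in
theorem mem_join {α : Type*} {Q : Finset α} {p : Option α × Option α} {x : α} :
    x ∈ join Q p ↔ x ∈ Q ∨ x ∈ p.1 ∨ x ∈ p.2 := by
  simp [join]

open Classical in
theorem join_subset {α : Type*} {Q G : Finset α} {p : Option α × Option α} :
    join Q p ⊆ G ↔ Q ⊆ G ∧ p.1 ∈ G.insertNone ∧ p.2 ∈ G.insertNone := by
  simp only [Finset.subset_iff, mem_join, Finset.mem_insertNone]
  constructor
  · intro h
    exact ⟨fun x hx => h (Or.inl hx), fun x hx => h (Or.inr (Or.inl hx)),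
      fun x hx => h (Or.inr (Or.inr hx))⟩
  · rintro ⟨h1, h2, h3⟩ x (hx | hx | hx)
    · exact h1 hx
    · exact h2 x hx
    · exact h3 x hx

open Classical in
theorem card_join_le {α : Type*} (Q : Finset α) (p : Option α × Option α) :
    (join Q p).card ≤ Q.card + 2 := by
  have h1 : ∀ o : Option α, o.toFinset.card ≤ 1 := by
    intro o
    cases o <;> simp
  calc (join Q p).card ≤ (Q ∪ p.1.toFinset).card + p.2.toFinset.card := Finset.card_union_le _ _
    _ ≤ Q.card + p.1.toFinset.card + p.2.toFinset.card := by
        gcongr
        exact Finset.card_union_le _ _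
    _ ≤ Q.card + 2 := by
        have := h1 p.1
        have := h1 p.2
        omega

theorem k1 : K1 := by
  classical
  intro α k T ν G
  simp only [B, Finset.mul_sum, Finset.sum_filter]
  have hL : ∀ Q ∈ G.powerset, (if Q.card + 2 ≤ k then ∑ p ∈ G.insertNone ×ˢ G.insertNone,
      T Q p.1 p.2 * ν (join Q p) else 0) =
      ∑ I ∈ G.powerset, (if Q ⊆ I then (if Q.card + 2 ≤ k then
        ∑ p ∈ I.insertNone ×ˢ I.insertNone, (if join Q p = I then ν I * T Q p.1 p.2 else 0)
          else 0) else 0) := by
    intro Q hQ
    rw [Finset.mem_powerset] at hQ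
    by_cases hk : Q.card + 2 ≤ k
    · simp only [hk, if_true]
      have h1 : ∀ p ∈ G.insertNone ×ˢ G.insertNone, T Q p.1 p.2 * ν (join Q p) =
          ∑ I ∈ G.powerset, if join Q p = I then ν I * T Q p.1 p.2 else 0 := by
        intro p hp
        rw [Finset.mem_product] at hp
        rw [Finset.sum_ite_eq, if_pos, mul_comm]
        rw [Finset.mem_powerset, join_subset]
        exact ⟨hQ, hp.1, hp.2⟩
      rw [Finset.sum_congr rfl h1, Finset.sum_comm]
      refine Finset.sum_congr rfl fun I hI => ?_
      rw [Finset.mem_powerset] at hI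
      have h2 : ∀ p : Option α × Option α, join Q p = I → Q ⊆ I ∧ p.1 ∈ I.insertNone ∧
          p.2 ∈ I.insertNone := fun p hp => join_subset.1 hp.le
      by_cases hQI : Q ⊆ I
      · rw [if_pos hQI]
        symm
        refine Finset.sum_subset ?_ fun p _ hp => ?_
        · exact Finset.product_subset_product (by simpa using hI) (by simpa using hI)
        · rw [if_neg]
          intro h
          exact hp (Finset.mem_product.2 (h2 p h).2)
      · rw [if_neg hQI]
        refine Finset.sum_eq_zero fun p _ => ?_
        rw [if_neg]
        exact fun h => hQI (h2 p h).1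
    · simp [hk]
  rw [Finset.sum_congr rfl hL, Finset.sum_comm]
  refine Finset.sum_congr rfl fun I hI => ?_
  rw [Finset.mem_powerset] at hI
  rw [← Finset.sum_filter]
  have h3 : G.powerset.filter (fun Q => Q ⊆ I) = I.powerset := by
    ext Q
    simp only [Finset.mem_filter, Finset.mem_powerset]
    exact ⟨fun h => h.2, fun h => ⟨h.trans hI, h⟩⟩
  rw [h3]
  refine Finset.sum_congr rfl fun Q _ => ?_
  split_ifs
  · rw [Finset.mul_sum]
    refine Finset.sum_congr rfl fun p _ => ?_
    split_ifs
    · rfl
    · simp
  · simp

theorem k1b : K1b := by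
  classical
  intro α k T
  refine ⟨fun I hI => ?_, fun hk => ?_⟩
  · unfold B
    refine Finset.sum_eq_zero fun Q hQ => ?_
    rw [Finset.mem_filter] at hQ
    refine Finset.sum_eq_zero fun p hp => ?_
    rw [Finset.mem_filter] at hp
    exfalso
    have := card_join_le Q p
    rw [hp.2] at this
    omega
  · unfold B
    have h1 : (∅ : Finset α).powerset.filter (fun Q => Q.card + 2 ≤ k) = {∅} := by
      ext Q
      simp only [Finset.powerset_empty, Finset.mem_filter, Finset.mem_singleton]
      constructor
      · exact fun h => h.1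
      · rintro rfl
        exact ⟨rfl, by simpa using hk⟩
    have h2 : (((∅ : Finset α).insertNone ×ˢ (∅ : Finset α).insertNone).filter
        fun p => join (∅ : Finset α) p = ∅) = {(none, none)} := by
      ext ⟨p, q⟩
      simp only [Finset.mem_filter, Finset.mem_product, Finset.mem_singleton, Prod.mk.injEq]
      constructor
      · rintro ⟨⟨h1, h2⟩, -⟩
        constructor
        · cases p with
          | none => rfl
          | some x => simp at h1
        · cases q with
          | none => rfl
          | some x => simp at h2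
      · rintro ⟨rfl, rfl⟩
        simp [join]
    rw [h1, Finset.sum_singleton, h2, Finset.sum_singleton]

end Pool.Agent.KPT
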