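import Pool.Agent.Lib.KPT.Props

/-!
KPT project, row K10c: the Gaussian tail.
-/

namespace Pool.Agent.KPT

open MeasureTheory Filter Topology
open scoped Real

noncomputable section

theorem gaussian_tail_le (N : ℕ) {d τ : ℝ} (hd : 0 < d) (hτ : 0 < τ) :
    (2 * π * τ ^ 2) ^ (-((N : ℝ) / 2)) *
      ∫ v in {v : E N | d ≤ ‖v‖}, Real.exp (-‖v‖ ^ 2 / (2 * τ ^ 2)) ≤
    2 ^ ((N : ℝ) / 2) * Real.exp (-(d ^ 2 / (4 * τ ^ 2))) := by
  have hτ2 : 0 < τ ^ 2 := by positivity
  have hb : 0 < 1 / (4 * τ ^ 2) := by positivity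
  have hint : ∫ v : E N, Real.exp (-(1 / (4 * τ ^ 2)) * ‖v‖ ^ 2) =
      (4 * π * τ ^ 2) ^ ((N : ℝ) / 2) := by
    rw [GaussianFourier.integral_rexp_neg_mul_sq_norm hb, finrank_euclideanSpace_fin]
    congr 1
    field_simp
  have hI : Integrable fun v : E N => Real.exp (-(1 / (4 * τ ^ 2)) * ‖v‖ ^ 2) := by
    by_contra hcon
    have h1 := integral_undef hcon
    rw [hint] at h1
    have h2 : 0 < (4 * π * τ ^ 2) ^ ((N : ℝ) / 2) := by positivity
    linarith
  have hms : MeasurableSet {v : E N | d ≤ ‖v‖} := measurableSet_le measurable_const measurable_norm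
  have hle : ∫ v in {v : E N | d ≤ ‖v‖}, Real.exp (-‖v‖ ^ 2 / (2 * τ ^ 2)) ≤
      ∫ v : E N, Real.exp (-(d ^ 2 / (4 * τ ^ 2))) *
        Real.exp (-(1 / (4 * τ ^ 2)) * ‖v‖ ^ 2) := by
    rw [← integral_indicator hms]
    refine integral_mono_of_nonneg (Eventually.of_forall fun v => ?_) (hI.const_mul _)
      (Eventually.of_forall fun v => ?_)
    · exact Set.indicator_nonneg (fun _ _ => (Real.exp_pos _).le) v
    · by_cases hv : v ∈ {v : E N | d ≤ ‖v‖}
      · rw [Set.indicator_of_mem hv]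
        show Real.exp (-‖v‖ ^ 2 / (2 * τ ^ 2)) ≤ Real.exp (-(d ^ 2 / (4 * τ ^ 2))) *
          Real.exp (-(1 / (4 * τ ^ 2)) * ‖v‖ ^ 2)
        rw [← Real.exp_add]
        apply Real.exp_le_exp.2
        have hdv : d ≤ ‖v‖ := hv
        have h1 : d ^ 2 ≤ ‖v‖ ^ 2 := pow_le_pow_left₀ hd.le hdv 2
        have e : -(d ^ 2 / (4 * τ ^ 2)) + -(1 / (4 * τ ^ 2)) * ‖v‖ ^ 2 -
            (-‖v‖ ^ 2 / (2 * τ ^ 2)) = (‖v‖ ^ 2 - d ^ 2) / (4 * τ ^ 2) := by
          field_simp
          ring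
        have h2 : 0 ≤ (‖v‖ ^ 2 - d ^ 2) / (4 * τ ^ 2) := by
          apply div_nonneg (by linarith) (by positivity)
        linarith
      · rw [Set.indicator_of_notMem hv]
        positivity
  rw [integral_const_mul, hint] at hle
  have h2 : 0 ≤ (2 * π * τ ^ 2) ^ (-((N : ℝ) / 2)) := by positivity
  refine (mul_le_mul_of_nonneg_left hle h2).trans_eq ?_
  have e1 : (4 * π * τ ^ 2) ^ ((N : ℝ) / 2) =
      2 ^ ((N : ℝ) / 2) * (2 * π * τ ^ 2) ^ ((N : ℝ) / 2) := by
    rw [← Real.mul_rpow (by norm_num) (by positivity)]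
    congr 1
    ring
  rw [e1, Real.rpow_neg (by positivity)]
  have h3 : (2 * π * τ ^ 2) ^ ((N : ℝ) / 2) ≠ 0 := by positivity
  field_simp

theorem k10c : K10c := by
  intro N d hd
  have hlim : Tendsto (fun τ : ℝ => 2 ^ ((N : ℝ) / 2) * Real.exp (-(d ^ 2 / (4 * τ ^ 2))))
      (𝓝[>] 0) (𝓝 0) := by
    have h1 : Tendsto (fun τ : ℝ => d ^ 2 / (4 * τ ^ 2)) (𝓝[>] 0) atTop := by
      have h2 : Tendsto (fun τ : ℝ => 4 * τ ^ 2) (𝓝[>] 0) (𝓝[>] 0) := by
        apply tendsto_nhdsWithin_of_tendsto_nhds_of_eventually_within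
        · have h3 : Tendsto (fun τ : ℝ => 4 * τ ^ 2) (𝓝 0) (𝓝 (4 * 0 ^ 2)) := by
            have : Continuous fun τ : ℝ => 4 * τ ^ 2 := by fun_prop
            exact this.tendsto 0
          norm_num at h3
          exact h3.mono_left nhdsWithin_le_nhds
        · filter_upwards [self_mem_nhdsWithin] with τ hτ
          have : 0 < τ := hτ
          show 0 < 4 * τ ^ 2
          positivity
      have h4 := h2.inv_tendsto_nhdsGT_zero
      have h5 := h4.const_mul_atTop (show 0 < d ^ 2 by positivity)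
      exact h5.congr fun τ => by simp [div_eq_mul_inv]
    have h6 := Real.tendsto_exp_neg_atTop_nhds_zero.comp h1
    have h7 := h6.const_mul (2 ^ ((N : ℝ) / 2))
    rw [mul_zero] at h7
    exact h7
  refine squeeze_zero' ?_ ?_ hlim
  · filter_upwards with τ
    apply mul_nonneg (by positivity)
    exact integral_nonneg fun v => (Real.exp_pos _).le
  · filter_upwards [self_mem_nhdsWithin] with τ hτ
    exact gaussian_tail_le N hd hτ

end

end Pool.Agent.KPT
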