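import Pool.Agent.Lib.KPT.Props

/-!
KPT project, row K6: a translate of a lattice with many points in a bounded set.
-/

namespace Pool.Agent.KPT

open MeasureTheory Filter Topology
open scoped Real ENNReal

noncomputable section

theorem span_coord {N : ℕ} {g : Fin N → ℝ}
    (hg : g ∈ Submodule.span ℤ (Set.range (Pi.basisFun ℝ (Fin N)))) (i : Fin N) :
    ((⌊g i⌋ : ℤ) : ℝ) = g i := by
  have h : ∃ n : ℤ, g i = n := by
    induction hg using Submodule.span_induction with
    | mem x hx =>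
      obtain ⟨j, rfl⟩ := hx
      rw [Pi.basisFun_apply]
      by_cases hij : i = j
      · subst hij
        exact ⟨1, by simp⟩
      · exact ⟨0, by simp [hij]⟩
    | zero => exact ⟨0, by simp⟩
    | add x y _ _ hx hy =>
      obtain ⟨a, ha⟩ := hx
      obtain ⟨b, hb⟩ := hy
      exact ⟨a + b, by rw [Pi.add_apply, ha, hb]; push_cast; ring⟩
    | smul a x _ hx =>
      obtain ⟨b, hb⟩ := hx
      exact ⟨a * b, by rw [Pi.smul_apply, hb, zsmul_eq_mul]; push_cast; ring⟩
  obtain ⟨n, hn⟩ := h
  rw [hn, Int.floor_intCast]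

theorem exists_translate_int {N : ℕ} {V : Set (Fin N → ℝ)} (hVm : MeasurableSet V)
    (hVb : Bornology.IsBounded V) : ∃ (s : Fin N → ℝ) (Z : Finset (Fin N → ℤ)),
      (∀ z ∈ Z, (s + fun i => (z i : ℝ)) ∈ V) ∧ (volume V).toReal ≤ Z.card := by
  classical
  set Λ := Submodule.span ℤ (Set.range (Pi.basisFun ℝ (Fin N))) with hΛ
  set F : Set (Fin N → ℝ) := ZSpan.fundamentalDomain (Pi.basisFun ℝ (Fin N)) with hF
  have hFd : IsAddFundamentalDomain Λ F (volume : Measure (Fin N → ℝ)) :=
    ZSpan.isAddFundamentalDomain _ _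
  have hFvol : volume F = 1 := by
    rw [hF, ZSpan.fundamentalDomain_pi_basisFun, volume_pi, Measure.pi_pi]
    simp
  have hcount : Countable Λ := inferInstance
  set f : (Fin N → ℝ) → ℝ≥0∞ := fun x => ∑' g : Λ, V.indicator 1 (g +ᵥ x) with hf
  have hmeas : ∀ g : Λ, Measurable fun x : Fin N → ℝ =>
      V.indicator (1 : (Fin N → ℝ) → ℝ≥0∞) (g +ᵥ x) := by
    intro g
    have h1 : Measurable (V.indicator (1 : (Fin N → ℝ) → ℝ≥0∞)) :=
      measurable_one.indicator hVm
    have h2 : Measurable fun x : Fin N → ℝ => g +ᵥ x := by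
      have : (fun x : Fin N → ℝ => g +ᵥ x) = fun x => (g : Fin N → ℝ) + x := rfl
      rw [this]
      exact measurable_const_add _
    exact h1.comp h2
  have hvol : volume V = ∫⁻ x in F, f x := by
    have : VAddInvariantMeasure Λ (Fin N → ℝ) volume :=
      inferInstanceAs <| VAddInvariantMeasure Λ.toAddSubgroup (Fin N → ℝ) volume
    have : MeasurableConstVAdd Λ (Fin N → ℝ) :=
      inferInstanceAs <| MeasurableConstVAdd Λ.toAddSubgroup (Fin N → ℝ)
    rw [hf, lintegral_tsum fun g => (hmeas g).aemeasurable, ← hFd.lintegral_eq_tsum'',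
      lintegral_indicator_one hVm]
  have hVfin : volume V ≠ ∞ := hVb.measure_lt_top.ne
  obtain ⟨x, hx, hxf⟩ := exists_setLAverage_le (f := f) (μ := volume) (s := F)
    (by rw [hFvol]; exact one_ne_zero) hFd.nullMeasurableSet (by rw [← hvol]; exact hVfin)
  rw [setLAverage_eq, hFvol, div_one, ← hvol] at hxf
  -- the lattice points
  let φ : Λ → (Fin N → ℤ) := fun g i => ⌊(g : Fin N → ℝ) i⌋
  have hφ : ∀ (g : Λ) i, ((φ g i : ℤ) : ℝ) = (g : Fin N → ℝ) i := fun g i => span_coord g.2 i
  have hφinj : Function.Injective φ := by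
    intro g g' h
    apply Subtype.ext
    funext i
    rw [← hφ g i, ← hφ g' i, h]
  set S : Set Λ := {g | g +ᵥ x ∈ V} with hS
  have hSfin : S.Finite := by
    obtain ⟨R, hR⟩ := hVb.exists_norm_le
    set q : ℤ := ⌈R + ‖x‖⌉ with hq
    have hbox : S ⊆ φ ⁻¹' (Fintype.piFinset fun _ : Fin N => Finset.Icc (-q) q : Finset _) := by
      intro g hg
      show φ g ∈ ((Fintype.piFinset fun _ : Fin N => Finset.Icc (-q) q : Finset (Fin N → ℤ)) :
        Set (Fin N → ℤ))
      rw [Finset.mem_coe, Fintype.mem_piFinset]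
      intro i
      have h1 : ‖(g : Fin N → ℝ) + x‖ ≤ R := hR _ hg
      have h2 : |(g : Fin N → ℝ) i| ≤ R + ‖x‖ := by
        have h3 : ‖(g : Fin N → ℝ)‖ ≤ ‖(g : Fin N → ℝ) + x‖ + ‖x‖ := by
          have := norm_sub_le ((g : Fin N → ℝ) + x) x
          rwa [add_sub_cancel_right] at this
        have h4 : ‖(g : Fin N → ℝ) i‖ ≤ ‖(g : Fin N → ℝ)‖ := norm_le_pi_norm _ i
        rw [Real.norm_eq_abs] at h4
        linarith
      rw [← hφ g i] at h2
      have h5 : |((φ g i : ℤ) : ℝ)| ≤ q := h2.trans (Int.le_ceil _)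
      have h6 : |φ g i| ≤ q := by
        rw [← Int.cast_abs] at h5
        exact_mod_cast h5
      rw [Finset.mem_Icc]
      exact abs_le.1 h6
    exact (Set.Finite.preimage hφinj.injOn (Finset.finite_toSet _)).subset hbox
  have hfx : f x = hSfin.toFinset.card := by
    have h1 : f x = ∑' g : Λ, S.indicator (1 : Λ → ℝ≥0∞) g := by
      show ∑' g : Λ, V.indicator (1 : (Fin N → ℝ) → ℝ≥0∞) (g +ᵥ x) = _
      refine tsum_congr fun g => ?_
      by_cases hg : g +ᵥ x ∈ V
      · rw [Set.indicator_of_mem hg, Set.indicator_of_mem (show g ∈ S from hg)]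
        rfl
      · rw [Set.indicator_of_notMem hg, Set.indicator_of_notMem (show g ∉ S from hg)]
    rw [h1, tsum_eq_sum (s := hSfin.toFinset)]
    · rw [Finset.sum_congr rfl fun g hg => Set.indicator_of_mem (hSfin.mem_toFinset.1 hg) _]
      simp
    · intro g hg
      exact Set.indicator_of_notMem (fun h => hg (hSfin.mem_toFinset.2 h)) _
  refine ⟨x, hSfin.toFinset.image φ, ?_, ?_⟩
  · intro z hz
    obtain ⟨g, hg, rfl⟩ := Finset.mem_image.1 hz
    have h1 : g +ᵥ x ∈ V := hSfin.mem_toFinset.1 hg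
    have h2 : (x + fun i => ((φ g i : ℤ) : ℝ)) = g +ᵥ x := by
      funext i
      show x i + ((φ g i : ℤ) : ℝ) = (g : Fin N → ℝ) i + x i
      rw [hφ]; ring
    rw [h2]
    exact h1
  · rw [Finset.card_image_of_injective _ hφinj]
    rw [hfx] at hxf
    have h1 := ENNReal.toReal_mono (by simp) hxf
    simpa using h1

theorem k6 : K6 := by
  classical
  intro N A V hA hVb hVm
  set e := WithLp.toLp 2 (V := Fin N → ℝ) with he
  have hem : MeasurePreserving e := PiLp.volume_preserving_toLp (Fin N)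
  set U : Set (Fin N → ℝ) := e ⁻¹' V with hU
  have hUm : MeasurableSet U := hem.measurable hVm
  have hUvol : volume U = volume V := hem.measure_preimage hVm.nullMeasurableSet
  have hdet : LinearMap.det (Matrix.toLin' A) ≠ 0 := by
    rw [LinearMap.det_toLin']; exact hA
  set V' : Set (Fin N → ℝ) := (Matrix.toLin' A) ⁻¹' U with hV'
  have hV'm : MeasurableSet V' :=
    (LinearMap.continuous_of_finiteDimensional (Matrix.toLin' A)).measurable hUm
  have hV'vol : volume V' = ENNReal.ofReal |(A.det)⁻¹| * volume V := by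
    rw [hV', Measure.addHaar_preimage_linearMap volume hdet, LinearMap.det_toLin', hUvol]
  have hUb : Bornology.IsBounded U := by
    have h1 : U = (WithLp.ofLp (p := 2) (V := Fin N → ℝ)) '' V := by
      ext u
      constructor
      · intro hu
        exact ⟨e u, hu, rfl⟩
      · rintro ⟨v, hv, rfl⟩
        exact hv
    rw [h1]
    exact (PiLp.lipschitzWith_ofLp 2 fun _ : Fin N => ℝ).isBounded_image hVb
  have hV'b : Bornology.IsBounded V' := by
    have h1 : V' ⊆ (Matrix.toLin' A⁻¹) '' U := by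
      intro y hy
      refine ⟨Matrix.toLin' A y, hy, ?_⟩
      rw [Matrix.toLin'_apply, Matrix.toLin'_apply, Matrix.mulVec_mulVec,
        Matrix.nonsing_inv_mul _ (isUnit_iff_ne_zero.2 hA), Matrix.one_mulVec]
    refine Bornology.IsBounded.subset ?_ h1
    exact (LinearMap.toContinuousLinearMap (Matrix.toLin' A⁻¹)).lipschitz.isBounded_image hUb
  obtain ⟨s, Z, hZ, hcard⟩ := exists_translate_int hV'm hV'b
  have hinj : Function.Injective fun z : Fin N → ℤ =>
      e (A.mulVec (s + fun i => (z i : ℝ))) := by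
    intro z z' h
    have h1 : A.mulVec (s + fun i => (z i : ℝ)) = A.mulVec (s + fun i => (z' i : ℝ)) :=
      congrArg (WithLp.ofLp (p := 2)) h
    have h2 := congrArg (A⁻¹.mulVec) h1
    rw [Matrix.mulVec_mulVec, Matrix.mulVec_mulVec,
      Matrix.nonsing_inv_mul _ (isUnit_iff_ne_zero.2 hA), Matrix.one_mulVec,
      Matrix.one_mulVec] at h2
    funext i
    have h3 := congrFun h2 i
    simp only [Pi.add_apply, add_right_inj] at h3
    exact_mod_cast h3
  refine ⟨e (A.mulVec s), Z.image fun z => e (A.mulVec (s + fun i => (z i : ℝ))), ?_, ?_⟩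
  · intro x hx
    obtain ⟨z, hz, rfl⟩ := Finset.mem_image.1 hx
    refine ⟨hZ z hz, z, fun i => ?_⟩
    show A.mulVec (s + fun i => (z i : ℝ)) i = A.mulVec s i + A.mulVec (fun j => (z j : ℝ)) i
    rw [Matrix.mulVec_add, Pi.add_apply]
  · rw [Finset.card_image_of_injective _ hinj]
    rw [hV'vol, ENNReal.toReal_mul, ENNReal.toReal_ofReal (abs_nonneg _), abs_inv] at hcard
    have hd : 0 < |A.det| := abs_pos.2 hA
    rw [inv_mul_le_iff₀ hd] at hcard
    exact hcard

end

end Pool.Agent.KPT
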