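import Pool.Agent.Lib.KPT.Sound

/-!
KPT project, K4: weak duality.
-/

namespace Pool.Agent.KPT

open Classical in
theorem subset_join {α : Type*} (Q : Finset α) (p : Option α × Option α) : Q ⊆ join Q p := by
  intro x hx
  simp [join, hx]

open Classical in
theorem join_swap {α : Type*} (Q : Finset α) (p q : Option α) : join Q (p, q) = join Q (q, p) := by
  simp only [join]
  exact Finset.union_right_comm Q p.toFinset q.toFinset

theorem k4 (h1 : K1) (h1b : K1b) (h2 : K2) (h3 : K3) : K4 := by
  classical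
  intro N k V r M T G s C w hk hT hG hC hw hsym hs0 hsC hsr hψ
  set w' : ℝ := w / C ^ (k - 2) with hw'
  have hCpos : 0 < C := by linarith
  have hw'0 : 0 < w' := by positivity
  have hnn : ∀ I : Finset (E N), 0 ≤ nu w' s I := by
    intro I
    unfold nu
    exact mul_nonneg (pow_nonneg hw'0.le _) (Finset.prod_nonneg fun p _ => hs0 _ _)
  have hsep : ∀ I : Finset (E N), ¬ Sep r I → nu w' s I = 0 := by
    intro I hI
    unfold Sep at hI
    push Not at hI
    obtain ⟨x, hx, y, hy, hxy, hlt⟩ := hI
    unfold nu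
    rw [Finset.prod_eq_zero (i := (x, y)) (by simp [Finset.mem_offDiag, hx, hy, hxy])
      (hsr x y hxy hlt), mul_zero]
  have hle := sum_B_le (ν := nu w' s) (w := w') h1b hk hT hG (by simp [nu])
    (fun x _ => by simp [nu]) hw'0.le (fun I _ hI => hsep I hI) (fun I _ => hnn I)
  rw [← h1 (E N) k T (nu w' s) G] at hle
  have h0 : 0 ≤ ∑ Q ∈ G.powerset.filter (fun Q => Q.card + 2 ≤ k),
      ∑ p ∈ G.insertNone ×ˢ G.insertNone, T Q p.1 p.2 * nu w' s (join Q p) := by
    refine Finset.sum_nonneg fun Q hQ => ?_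
    rw [Finset.mem_filter, Finset.mem_powerset] at hQ
    by_cases hsQ : Sep r Q
    · have hK := hT.1 Q (fun x hx => hG x (hQ.1 hx)) hsQ hQ.2 G.insertNone
        (fun p hp x hx => hG x (Finset.mem_insertNone.1 hp x hx))
      have hN := h3 (E N) G s C w (k - 2) hC hw hsym hs0 hsC hψ Q hQ.1 (by omega)
      have h4 := h2 (Option (E N)) G.insertNone (T Q) (fun p q => nu w' s (join Q (p, q))) hK
        (fun p q => by rw [join_swap]) hN
      rw [Finset.sum_product]
      exact h4
    · refine le_of_eq (Finset.sum_eq_zero fun p _ => ?_).symm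
      rw [hsep _ (fun h => hsQ (h.mono (subset_join Q p))), mul_zero]
  linarith

end Pool.Agent.KPT
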